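import Pool.Agent.TSL.Targets

/-!
# MP_5ab805_an, time slices with the `L^p` norm of `f`: summation over the slabs (helper9)
-/

set_option autoImplicit false

namespace TSL

open MeasureTheory Set Filter
open scoped ENNReal NNReal Topology
open Pool.Agent.Restr (u E QQ)
open TriL (Sq n2)
open Wey (nq lam hat gup gdn blk Tk Sl Wi InD)
open Wex (Gs nu cf BB Ann Sep XX chk chp Par pw Cross sw del dm cell amal)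

namespace ASA_

open Pool.Agent.Restr (vol_QQ)

theorem half_mul_half (v : ℝ≥0∞) : v ^ (1 / 2 : ℝ) * v ^ (1 / 2 : ℝ) = v := by
  rw [← ENNReal.rpow_add_of_nonneg _ _ (by norm_num) (by norm_num)]
  norm_num

/-- the natural number `m₀` -/
noncomputable def m0 (M : ℕ) (e w : ℝ) : ℕ := ⌈(M : ℝ) ^ e * w ^ (-(1 / 2) : ℝ)⌉₊

theorem one_le_y {M : ℕ} {e w : ℝ} (hM : 1 ≤ M) (he : 0 ≤ e) (hw : 0 < w) (hw1 : w ≤ 1) :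
    1 ≤ (M : ℝ) ^ e * w ^ (-(1 / 2) : ℝ) := by
  have h1 : (1 : ℝ) ≤ (M : ℝ) ^ e := Real.one_le_rpow (by exact_mod_cast hM) he
  have h2 : (1 : ℝ) ≤ w ^ (-(1 / 2) : ℝ) :=
    Real.one_le_rpow_of_pos_of_le_one_of_nonpos hw hw1 (by norm_num)
  exact one_le_mul_of_one_le_of_one_le h1 h2

theorem m0_pos {M : ℕ} {e w : ℝ} (hM : 1 ≤ M) (he : 0 ≤ e) (hw : 0 < w) (hw1 : w ≤ 1) :
    1 ≤ m0 M e w := by
  unfold m0
  rw [Nat.one_le_ceil_iff]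
  linarith [one_le_y hM he hw hw1]

theorem m0_ge (M : ℕ) (e : ℝ) {w : ℝ} (hw : 0 < w) :
    pw M e ≤ (m0 M e w : ℝ≥0∞) * ENNReal.ofReal w ^ (1 / 2 : ℝ) := by
  have h1 : (M : ℝ) ^ e * w ^ (-(1 / 2) : ℝ) ≤ (m0 M e w : ℝ) := Nat.le_ceil _
  have h2 : (M : ℝ) ^ e = (M : ℝ) ^ e * w ^ (-(1 / 2) : ℝ) * w ^ (1 / 2 : ℝ) := by
    rw [mul_assoc, ← Real.rpow_add hw]
    norm_num
  unfold pw
  rw [ENNReal.ofReal_rpow_of_pos hw, ← ENNReal.ofReal_natCast, ← ENNReal.ofReal_mul (by positivity)]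
  apply ENNReal.ofReal_le_ofReal
  rw [h2]
  gcongr

theorem m0_le {M : ℕ} {e w c : ℝ} (hM : 1 ≤ M) (he : 0 ≤ e) (hw : 0 < w) (hw1 : w ≤ 1)
    (hc : 0 ≤ c) (hc1 : c ≤ 1) :
    pw (m0 M e w) c ≤ 2 * (pw M (e * c) * ENNReal.ofReal w ^ (-(c / 2))) := by
  set y : ℝ := (M : ℝ) ^ e * w ^ (-(1 / 2) : ℝ) with hy
  have hy1 : 1 ≤ y := one_le_y hM he hw hw1
  have h1 : (m0 M e w : ℝ) ≤ 2 * y := by
    have := Nat.ceil_lt_add_one (zero_le_one.trans hy1)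
    unfold m0
    rw [← hy]
    linarith
  have hM0 : (0 : ℝ) ≤ (M : ℝ) := Nat.cast_nonneg M
  have h2 : (m0 M e w : ℝ) ^ c ≤ 2 * ((M : ℝ) ^ (e * c) * w ^ (-(c / 2))) := by
    calc (m0 M e w : ℝ) ^ c ≤ (2 * y) ^ c := Real.rpow_le_rpow (Nat.cast_nonneg _) h1 hc
      _ = 2 ^ c * ((M : ℝ) ^ (e * c) * w ^ (-(c / 2))) := by
          rw [Real.mul_rpow (by norm_num) (zero_le_one.trans hy1), hy,
            Real.mul_rpow (Real.rpow_nonneg hM0 _) (Real.rpow_nonneg hw.le _),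
            ← Real.rpow_mul hM0, ← Real.rpow_mul hw.le]
          congr 3
          ring
      _ ≤ 2 * ((M : ℝ) ^ (e * c) * w ^ (-(c / 2))) := by
          have h3 : (2 : ℝ) ^ c ≤ 2 := by
            calc (2 : ℝ) ^ c ≤ 2 ^ (1 : ℝ) := Real.rpow_le_rpow_of_exponent_le (by norm_num) hc1
              _ = 2 := Real.rpow_one 2
          gcongr
  unfold pw
  have e2 : (2 : ℝ≥0∞) = ENNReal.ofReal 2 := by norm_num
  rw [ENNReal.ofReal_rpow_of_pos hw, e2, ← ENNReal.ofReal_mul (by positivity),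
    ← ENNReal.ofReal_mul (by norm_num)]
  exact ENNReal.ofReal_le_ofReal h2

theorem vs_le_one {f : ℝ × ℝ → ℂ} (hf : Sq f) : vs f ≤ 1 := by
  unfold vs
  rw [← vol_QQ]
  refine measure_mono fun x hx => ?_
  by_contra h
  exact hx (hf.2 x h)

theorem n2_le_vs {f : ℝ × ℝ → ℂ} (hf : Sq f) (h1 : ∀ x, ‖f x‖ ≤ 1) : n2 f ≤ vs f := by
  unfold n2 vs
  have hS : MeasurableSet (Function.support f) := measurableSet_support hf.1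
  rw [← lintegral_indicator_one hS]
  refine lintegral_mono fun x => ?_
  by_cases hx : x ∈ Function.support f
  · rw [indicator_of_mem hx]
    have h2 : ‖f x‖ₑ ≤ 1 := by
      rw [← ofReal_norm, ← ENNReal.ofReal_one]
      exact ENNReal.ofReal_le_ofReal (h1 x)
    calc ‖f x‖ₑ ^ 2 ≤ 1 ^ 2 := by gcongr
      _ = _ := by simp
  · have : f x = 0 := by simpa using hx
    simp [this]

theorem ae_zero {f : ℝ × ℝ → ℂ} (h : vs f = 0) : f =ᵐ[volume] 0 := by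
  unfold vs at h
  rw [Filter.EventuallyEq, ae_iff]
  exact h

theorem NA_le (f : ℝ × ℝ → ℂ) (s : Finset ℤ) (a : ℤ → ℂ) (ε w : ℝ) (hw : 0 < w)
    (hv : vs f = ENNReal.ofReal w) :
    NA ε s a f ≤ (m0 s.card (1 / 2 + ε) w : ℝ≥0∞) * (vs f * ∑ n ∈ s, ‖a n‖ₑ ^ 2) := by
  unfold NA
  have h1 := m0_ge s.card (1 / 2 + ε) hw
  rw [← hv] at h1
  calc pw s.card (1 / 2 + ε) * vs f ^ (1 / 2 : ℝ) * ∑ n ∈ s, ‖a n‖ₑ ^ 2
      ≤ ((m0 s.card (1 / 2 + ε) w : ℝ≥0∞) * vs f ^ (1 / 2 : ℝ)) * vs f ^ (1 / 2 : ℝ) *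
        ∑ n ∈ s, ‖a n‖ₑ ^ 2 := by gcongr
    _ = (m0 s.card (1 / 2 + ε) w : ℝ≥0∞) * (vs f ^ (1 / 2 : ℝ) * vs f ^ (1 / 2 : ℝ)) *
        ∑ n ∈ s, ‖a n‖ₑ ^ 2 := by ring
    _ = _ := by
        rw [half_mul_half]
        ring

theorem NA_mono (f : ℝ × ℝ → ℂ) {s : Finset ℤ} (hs : s.Nonempty) (a : ℤ → ℂ) {ε ε' : ℝ}
    (h : ε' ≤ ε) : NA ε' s a f ≤ NA ε s a f := by
  unfold NA pw
  have h1 : (1 : ℝ) ≤ (s.card : ℝ) := by exact_mod_cast hs.card_pos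
  gcongr

theorem two_mono {ε ε' : ℝ} (h : ε' ≤ ε) (k : ℕ) :
    ENNReal.ofReal (2 ^ ((-1 + ε') * k)) ≤ ENNReal.ofReal (2 ^ ((-1 + ε) * k)) := by
  apply ENNReal.ofReal_le_ofReal
  apply Real.rpow_le_rpow_of_exponent_le (by norm_num)
  gcongr

theorem slab {ε ε1 ε' : ℝ} {C K R : ℝ≥0} {φ ψ : ℤ → ℝ} {s : Finset ℤ} {a : ℤ → ℂ}
    {χ f : ℝ × ℝ → ℂ} {k : ℕ} {w : ℝ} (hs : s.Nonempty) (h1 : ε' ≤ ε) (h2 : ε' ≤ ε1)
    (hw : 0 < w) (hv : vs f = ENNReal.ofReal w)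
    (hR : (R : ℝ≥0∞) ^ 2 = vs f * ∑ n ∈ s, ‖a n‖ₑ ^ 2)
    (h : ∫⁻ ξ in Sl k, XX φ ψ s a χ f ξ ^ 2 ≤
      C * (K : ℝ≥0∞) ^ 2 * ENNReal.ofReal (2 ^ ((-1 + ε') * k)) * NA ε' s a f) :
    ∫⁻ ξ in Sl k, XX φ ψ s a χ f ξ ^ 2 ≤
      C * (K : ℝ≥0∞) ^ 2 * (m0 s.card (1 / 2 + ε) w : ℕ) *
        ENNReal.ofReal (2 ^ ((-1 + ε1) * k)) * (R : ℝ≥0∞) ^ 2 := by
  refine h.trans ?_
  have h3 := NA_le f s a ε w hw hv
  rw [← hR] at h3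
  calc C * (K : ℝ≥0∞) ^ 2 * ENNReal.ofReal (2 ^ ((-1 + ε') * k)) * NA ε' s a f
      ≤ C * (K : ℝ≥0∞) ^ 2 * ENNReal.ofReal (2 ^ ((-1 + ε1) * k)) *
        ((m0 s.card (1 / 2 + ε) w : ℝ≥0∞) * (R : ℝ≥0∞) ^ 2) :=
        mul_le_mul' (mul_le_mul' le_rfl (two_mono h2 k)) ((NA_mono f hs a h1).trans h3)
    _ = _ := by ring

/-- the final numbers -/
theorem fin {C1 D1 D K R : ℝ≥0} {κ ρ ε w : ℝ} {f : ℝ × ℝ → ℂ} {s : Finset ℤ} {a : ℤ → ℂ}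
    (hs : s.Nonempty) (hw : 0 < w) (hw1 : w ≤ 1) (hε : 0 < ε) (hρ : 0 < ρ) (hκ : 0 ≤ κ)
    (hκρ : κ ≤ ρ) (hv : vs f = ENNReal.ofReal w)
    (hR : (R : ℝ≥0∞) ^ 2 = vs f * ∑ n ∈ s, ‖a n‖ₑ ^ 2) :
    ((C1 ^ (1 / ρ) : ℝ≥0) : ℝ≥0∞) * pw (m0 s.card (1 / 2 + ε) w) (κ / ρ) *
      (Wex.ASM2_.cN D D1 K R : ℝ≥0∞) ≤
      ((2 * C1 ^ (1 / ρ) * (NNReal.sqrt D1 + 160 * NNReal.sqrt D) : ℝ≥0) : ℝ≥0∞) * K *
        (pw s.card ((1 / 2 + ε) * (κ / ρ)) * vs f ^ (1 / 2 - κ / (2 * ρ))) *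
        (∑ n ∈ s, ‖a n‖ₑ ^ 2) ^ (1 / 2 : ℝ) := by
  have hc0 : 0 ≤ κ / ρ := by positivity
  have hc1 : κ / ρ ≤ 1 := (div_le_one hρ).2 hκρ
  have hM : 1 ≤ s.card := hs.card_pos
  have h1 := m0_le hM (e := 1 / 2 + ε) (by linarith) hw hw1 hc0 hc1
  rw [← hv] at h1
  have hR' : (R : ℝ≥0∞) = vs f ^ (1 / 2 : ℝ) * (∑ n ∈ s, ‖a n‖ₑ ^ 2) ^ (1 / 2 : ℝ) := by
    rw [← ENNReal.mul_rpow_of_nonneg _ _ (by norm_num : (0 : ℝ) ≤ 1 / 2), ← hR,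
      ← ENNReal.rpow_natCast, ← ENNReal.rpow_mul]
    norm_num
  have hv0 : vs f ≠ 0 := by
    rw [hv]
    simpa using hw
  have hvt : vs f ≠ ⊤ := by
    rw [hv]
    exact ENNReal.ofReal_ne_top
  have hvv : vs f ^ (-(κ / ρ / 2)) * vs f ^ (1 / 2 : ℝ) = vs f ^ (1 / 2 - κ / (2 * ρ)) := by
    rw [← ENNReal.rpow_add _ _ hv0 hvt]
    congr 1
    field_simp
    ring
  unfold Wex.ASM2_.cN
  push_cast
  rw [hR']
  calc ((C1 ^ (1 / ρ) : ℝ≥0) : ℝ≥0∞) * pw (m0 s.card (1 / 2 + ε) w) (κ / ρ) *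
        (((NNReal.sqrt D1 : ℝ≥0∞) + 160 * (NNReal.sqrt D : ℝ≥0∞)) * K *
          (vs f ^ (1 / 2 : ℝ) * (∑ n ∈ s, ‖a n‖ₑ ^ 2) ^ (1 / 2 : ℝ)))
      ≤ ((C1 ^ (1 / ρ) : ℝ≥0) : ℝ≥0∞) *
        (2 * (pw s.card ((1 / 2 + ε) * (κ / ρ)) * vs f ^ (-(κ / ρ / 2)))) *
        (((NNReal.sqrt D1 : ℝ≥0∞) + 160 * (NNReal.sqrt D : ℝ≥0∞)) * K *
          (vs f ^ (1 / 2 : ℝ) * (∑ n ∈ s, ‖a n‖ₑ ^ 2) ^ (1 / 2 : ℝ))) := by gcongr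
    _ = 2 * ((C1 ^ (1 / ρ) : ℝ≥0) : ℝ≥0∞) *
        ((NNReal.sqrt D1 : ℝ≥0∞) + 160 * (NNReal.sqrt D : ℝ≥0∞)) * K *
        (pw s.card ((1 / 2 + ε) * (κ / ρ)) *
          (vs f ^ (-(κ / ρ / 2)) * vs f ^ (1 / 2 : ℝ))) *
        (∑ n ∈ s, ‖a n‖ₑ ^ 2) ^ (1 / 2 : ℝ) := by ring
    _ = _ := by rw [hvv]

end ASA_

open ASA_ in
open Wex.ASM_ (Gs_meas sq_chi n2_chi meas_XX) in
open Wex.ASM2_ (cN slab0 slab1 slab2 fin1 fin2) in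
open Wey.ASM_ (wi_le E_zero_of_ae) in
theorem p_ASA (hCUA : T_CUA) : T_ASA := by
  intro ρ κ μ ν ε hpar hε
  obtain ⟨⟨hr1, hr2, hk1, hk2⟩, hm1, hm2, hn1, hn2⟩ := hpar
  have hρ0 : 0 < ρ := by linarith
  have hμ0 : 0 < μ := by linarith
  have hκ0 : 0 ≤ κ := by linarith
  have hν0 : 0 ≤ ν := by linarith
  obtain ⟨ε1, hε1, C1, hC1⟩ := Wex.p_INB ρ κ hr1 hr2 hk1 hk2
  obtain ⟨ε2, hε2, C2, hC2⟩ := Wex.p_INT μ ν hm1 hm2 hn1 hn2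
  set ε' : ℝ := min ε1 (min ε2 ε) with hε'
  have hε'0 : 0 < ε' := by
    rw [hε']
    positivity
  have hle1 : ε' ≤ ε1 := min_le_left _ _
  have hle2 : ε' ≤ ε2 := (min_le_right _ _).trans (min_le_left _ _)
  have hle3 : ε' ≤ ε := (min_le_right _ _).trans (min_le_right _ _)
  obtain ⟨D1, hD1⟩ := hCUA ε' hε'0
  obtain ⟨D, hD⟩ := Wex.sqb
  refine ⟨2 * C1 ^ (1 / ρ) * (NNReal.sqrt D1 + 160 * NNReal.sqrt D) +
    2 * C2 ^ (1 / μ) * (NNReal.sqrt D1 + 160 * NNReal.sqrt D), ?_⟩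
  intro φ ψ s a χ f K hsep hs hW h0 hf hf1
  set S : ℝ≥0∞ := ∑ n ∈ s, ‖a n‖ₑ ^ 2 with hS
  have hSt : S ≠ ⊤ := by
    rw [hS]
    exact ENNReal.sum_ne_top.2 fun n _ => ENNReal.pow_ne_top enorm_ne_top
  have hv1 : vs f ≤ 1 := vs_le_one hf
  have hvt : vs f ≠ ⊤ := ne_top_of_le_ne_top ENNReal.one_ne_top hv1
  by_cases hv0 : vs f = 0
  · have hE : ∀ ξ, E f ξ = 0 := fun ξ => E_zero_of_ae (ae_zero hv0) ξ
    refine ⟨?_, fun g _ => ?_⟩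
    · simp [hE]
    · simp [hE]
  by_cases hK : K = 0
  · have hE : ∀ ξ, E (fun x => χ x * Gs φ ψ s a x) ξ = 0 := by
      refine fun ξ => E_zero_of_ae (Eventually.of_forall fun x => ?_) ξ
      have hx := wi_le hW x
      rw [hK, ENNReal.coe_zero, nonpos_iff_eq_zero, enorm_eq_zero] at hx
      simp [hx]
    refine ⟨?_, fun g _ => ?_⟩
    · simp [hE]
    · simp [hE]
  set w : ℝ := (vs f).toReal with hw
  have hw0 : 0 < w := ENNReal.toReal_pos hv0 hvt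
  have hv : vs f = ENNReal.ofReal w := (ENNReal.ofReal_toReal hvt).symm
  have hw1 : w ≤ 1 := by
    rw [hw]
    simpa using ENNReal.toReal_mono ENNReal.one_ne_top hv1
  obtain ⟨R, hR⟩ : ∃ R : ℝ≥0, (R : ℝ≥0∞) ^ 2 = vs f * S := by
    refine ⟨NNReal.sqrt (vs f * S).toNNReal, ?_⟩
    rw [← ENNReal.coe_pow, NNReal.sq_sqrt, ENNReal.coe_toNNReal (ENNReal.mul_ne_top hvt hSt)]
  have hGG : n2 f * n2 (fun x => χ x * Gs φ ψ s a x) ≤ D * (K : ℝ≥0∞) ^ 2 * (R : ℝ≥0∞) ^ 2 := by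
    have h7 := hD φ ψ s a hsep
    calc n2 f * n2 (fun x => χ x * Gs φ ψ s a x)
        ≤ vs f * ((K : ℝ≥0∞) ^ 2 * (D * S)) := by
          refine mul_le_mul' (n2_le_vs hf hf1) ((n2_chi hW h0 φ ψ s a).trans ?_)
          gcongr
      _ = D * (K : ℝ≥0∞) ^ 2 * (vs f * S) := by ring
      _ = _ := by rw [hR]
  have hm : 1 ≤ m0 s.card (1 / 2 + ε) w := m0_pos hs.card_pos (by linarith) hw0 hw1
  constructor
  · have hb := hC1 (m0 s.card (1 / 2 + ε) w) (XX φ ψ s a χ f) (cN D D1 K R) hm (meas_XX hW h0 hf)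
      (slab0 D D1 hW h0 hf hGG)
      (fun k => slab1 D (slab hs hle3 hle1 hw0 hv hR (hD1 φ ψ s a χ f K k hsep hs hW h0 hf hf1)))
      (slab2 D D1 hW h0 hf hGG)
    refine (fin1 hρ0 hb).trans ?_
    refine (fin hs hw0 hw1 hε hρ0 hκ0 (by linarith) hv hR).trans ?_
    gcongr
    exact le_self_add
  · intro g hg
    have hb := hC2 (m0 s.card (1 / 2 + ε) w) (XX φ ψ s a χ f) (cN D D1 K R) g hm
      (meas_XX hW h0 hf) hg.1 (slab0 D D1 hW h0 hf hGG)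
      (fun k => slab1 D (slab hs hle3 hle2 hw0 hv hR (hD1 φ ψ s a χ f K k hsep hs hW h0 hf hf1)))
    refine (fin2 hμ0 hb).trans ?_
    have h9 := fin (C1 := C2) (D1 := D1) (D := D) (K := K) hs hw0 hw1 hε hμ0 hν0
      (by linarith) hv hR
    refine mul_le_mul' (h9.trans ?_) le_rfl
    gcongr
    exact le_add_self

end TSL
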