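import Pool.Agent.TSL.Targets2

/-!
# MP_5ab805_an, time slices with the `L^p` norm of `f`: summation over the slabs, `f` in `L²`
-/

set_option autoImplicit false

namespace TSL

open MeasureTheory Set Filter
open scoped ENNReal NNReal Topology
open Pool.Agent.Restr (u E QQ)
open TriL (Sq n2)
open Wey (nq lam hat gup gdn blk Tk Sl Wi InD)
open Wex (Gs nu cf BB Ann Sep XX chk chp Par pw Cross sw del dm cell amal)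

namespace ASB_

/-- the hypothesis of `slab1` -/
theorem slab {ε : ℝ} {C K R : ℝ≥0} {φ ψ : ℤ → ℝ} {s : Finset ℤ} {a : ℤ → ℂ}
    {χ f : ℝ × ℝ → ℂ} {k : ℕ} (hR : (R : ℝ≥0∞) ^ 2 = n2 f * ∑ n ∈ s, ‖a n‖ₑ ^ 2)
    (h : ∫⁻ ξ in Sl k, XX φ ψ s a χ f ξ ^ 2 ≤
      C * (K : ℝ≥0∞) ^ 2 * ENNReal.ofReal (2 ^ ((-1 + ε) * k)) *
        (s.card * (n2 f * ∑ n ∈ s, ‖a n‖ₑ ^ 2))) :
    ∫⁻ ξ in Sl k, XX φ ψ s a χ f ξ ^ 2 ≤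
      C * (K : ℝ≥0∞) ^ 2 * (s.card : ℕ) *
        ENNReal.ofReal (2 ^ ((-1 + ε) * k)) * (R : ℝ≥0∞) ^ 2 := by
  refine h.trans (le_of_eq ?_)
  rw [hR]
  ring

/-- the final numbers -/
theorem fin {C1 D1 D K R : ℝ≥0} {κ ρ : ℝ} {f : ℝ × ℝ → ℂ} {s : Finset ℤ} {a : ℤ → ℂ}
    (hR : (R : ℝ≥0∞) ^ 2 = n2 f * ∑ n ∈ s, ‖a n‖ₑ ^ 2) :
    ((C1 ^ (1 / ρ) : ℝ≥0) : ℝ≥0∞) * pw s.card (κ / ρ) *
      (Wex.ASM2_.cN D D1 K R : ℝ≥0∞) ≤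
      ((C1 ^ (1 / ρ) * (NNReal.sqrt D1 + 160 * NNReal.sqrt D) : ℝ≥0) : ℝ≥0∞) * K *
        (pw s.card (κ / ρ) * eLpNorm f 2 volume) *
        (∑ n ∈ s, ‖a n‖ₑ ^ 2) ^ (1 / 2 : ℝ) := by
  have e2 : n2 f = eLpNorm f 2 volume ^ 2 := Pool.Agent.Restr.lin_2
  have hR' : (R : ℝ≥0∞) = eLpNorm f 2 volume * (∑ n ∈ s, ‖a n‖ₑ ^ 2) ^ (1 / 2 : ℝ) := by
    have h1 : (R : ℝ≥0∞) ^ 2 =
        (eLpNorm f 2 volume * (∑ n ∈ s, ‖a n‖ₑ ^ 2) ^ (1 / 2 : ℝ)) ^ 2 := by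
      rw [hR, e2, mul_pow, ← ENNReal.rpow_natCast ((∑ n ∈ s, ‖a n‖ₑ ^ 2) ^ (1 / 2 : ℝ)) 2,
        ← ENNReal.rpow_mul]
      norm_num
    exact le_antisymm ((ENNReal.pow_le_pow_left_iff two_ne_zero).1 h1.le)
      ((ENNReal.pow_le_pow_left_iff two_ne_zero).1 h1.ge)
  unfold Wex.ASM2_.cN
  push_cast
  rw [hR']
  refine le_of_eq ?_
  ring

end ASB_

open ASB_ in
open Wex.ASM_ (Gs_meas sq_chi n2_chi meas_XX) in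
open Wex.ASM2_ (cN slab0 slab1 slab2 fin1 fin2) in
theorem p_ASB (hTRS : T_TRS) : T_ASB := by
  intro ρ κ μ ν hpar
  obtain ⟨⟨hr1, hr2, hk1, hk2⟩, hm1, hm2, hn1, hn2⟩ := hpar
  have hρ0 : 0 < ρ := by linarith
  have hμ0 : 0 < μ := by linarith
  obtain ⟨ε1, hε1, C1, hC1⟩ := Wex.p_INB ρ κ hr1 hr2 hk1 hk2
  obtain ⟨ε2, hε2, C2, hC2⟩ := Wex.p_INT μ ν hm1 hm2 hn1 hn2
  obtain ⟨D1, hD1⟩ := hTRS ε1 hε1
  obtain ⟨D2, hD2⟩ := hTRS ε2 hε2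
  obtain ⟨D, hD⟩ := Wex.sqb
  refine ⟨C1 ^ (1 / ρ) * (NNReal.sqrt D1 + 160 * NNReal.sqrt D) +
    C2 ^ (1 / μ) * (NNReal.sqrt D2 + 160 * NNReal.sqrt D), ?_⟩
  intro φ ψ s a χ f K hsep hs hW h0 hf hn
  have hi : Integrable f := TriL.SUM_.integrable_of_Sq hf hn.ne
  set S : ℝ≥0∞ := ∑ n ∈ s, ‖a n‖ₑ ^ 2 with hS
  have hSt : S ≠ ⊤ := by
    rw [hS]
    exact ENNReal.sum_ne_top.2 fun n _ => ENNReal.pow_ne_top enorm_ne_top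
  obtain ⟨R, hR⟩ : ∃ R : ℝ≥0, (R : ℝ≥0∞) ^ 2 = n2 f * S := by
    refine ⟨NNReal.sqrt (n2 f * S).toNNReal, ?_⟩
    rw [← ENNReal.coe_pow, NNReal.sq_sqrt, ENNReal.coe_toNNReal (ENNReal.mul_ne_top hn.ne hSt)]
  have hGG : n2 f * n2 (fun x => χ x * Gs φ ψ s a x) ≤ D * (K : ℝ≥0∞) ^ 2 * (R : ℝ≥0∞) ^ 2 := by
    have h7 := hD φ ψ s a hsep
    calc n2 f * n2 (fun x => χ x * Gs φ ψ s a x)
        ≤ n2 f * ((K : ℝ≥0∞) ^ 2 * (D * S)) := by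
          refine mul_le_mul' le_rfl ((n2_chi hW h0 φ ψ s a).trans ?_)
          gcongr
      _ = D * (K : ℝ≥0∞) ^ 2 * (n2 f * S) := by ring
      _ = _ := by rw [hR]
  have hm : 1 ≤ s.card := hs.card_pos
  constructor
  · have hb := hC1 s.card (XX φ ψ s a χ f) (cN D D1 K R) hm (meas_XX hW h0 hf)
      (slab0 D D1 hW h0 hf hGG)
      (fun k => slab1 D (slab hR (hD1 φ ψ s a χ f K k hW h0 hf hi)))
      (slab2 D D1 hW h0 hf hGG)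
    refine (fin1 hρ0 hb).trans ?_
    refine (fin hR).trans ?_
    gcongr
    exact le_self_add
  · intro g hg
    have hb := hC2 s.card (XX φ ψ s a χ f) (cN D D2 K R) g hm
      (meas_XX hW h0 hf) hg.1 (slab0 D D2 hW h0 hf hGG)
      (fun k => slab1 D (slab hR (hD2 φ ψ s a χ f K k hW h0 hf hi)))
    refine (fin2 hμ0 hb).trans ?_
    have h9 := fin (C1 := C2) (D1 := D2) (D := D) (K := K) (κ := ν) (ρ := μ) hR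
    refine mul_le_mul' (h9.trans ?_) le_rfl
    gcongr
    exact le_add_self

end TSL

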