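import Pool.Agent.TSL.Targets

/-!
# MP_5ab805_an, time slices with the `L^p` norm of `f`: CUA (helper84), after `Wex/CUT.lean`
-/

set_option autoImplicit false

namespace TSL

open MeasureTheory Set Filter
open scoped ENNReal NNReal Topology
open Pool.Agent.Restr (u E QQ norm_u enorm_u u_add u_sub u_zero conj_u measurable_u measurable_E)
open TriL (Sq n2)
open Wey (nq lam hat gup gdn blk Tk Sl Wi InD)
open Wex (Gs nu cf BB Ann Sep XX chk chp Par pw Cross sw del dm cell amal)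

theorem p_CUA (hSLA : T_SLA) : T_CUA := by
  intro ε hε
  obtain ⟨C1, hC1⟩ := hSLA ε hε
  obtain ⟨C2, hC2⟩ := Wey.p_WIE
  refine ⟨C2 ^ 2 * C1, ?_⟩
  intro φ ψ s a χ f K k hSep hne hWi hχ0 hSq hf1
  obtain ⟨κ0, hκ0, hn0, hrep0⟩ := hC2 K χ hWi hχ0
  -- measurable representative
  set κ := hκ0.1.mk κ0 with hκdef
  have hκm : Measurable κ := hκ0.1.stronglyMeasurable_mk.measurable
  have hκae : κ0 =ᵐ[volume] κ := hκ0.1.ae_eq_mk
  have hκ : Integrable κ := hκ0.congr hκae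
  have hn : ∫⁻ w, ‖κ w‖ₑ ≤ C2 * K := by
    refine le_trans (le_of_eq ?_) (by simpa using hn0)
    exact lintegral_congr_ae (hκae.mono fun w hw => by simp only [hw])
  have hrep : ∀ x, gup χ x = ∫ w : ℝ × ℝ, u (-(w.1 * x.1 + w.2 * x.2)) * κ w := by
    intro x
    rw [hrep0 x]
    exact integral_congr_ae (hκae.mono fun w hw => by simp only [hw])
  set g := gdn (Gs φ ψ s a) with hg
  have hgi : Integrable g := Wex.CUT_integrable_gdn φ ψ s a
  have hgm : Measurable g := Wex.CUT_measurable_gdn φ ψ s a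
  have hfm : Measurable f := hSq.1
  have hEf := measurable_E hfm
  have hEg := measurable_E hgm
  -- pointwise bound
  have hpt : ∀ (p : ℝ × ℝ) (t : ℝ), ‖E (fun x => χ x * Gs φ ψ s a x) (p.1, p.2, t)‖ₑ ^ 2 ≤
      (C2 * K) * ∫⁻ w : ℝ × ℝ, ‖κ w‖ₑ * ‖E g (p.1 - w.1, p.2 - w.2, t)‖ₑ ^ 2 := by
    intro p t
    rw [Wex.CUT_super hκ hgi hrep p t]
    calc ‖∫ w : ℝ × ℝ, κ w * E g (p.1 - w.1, p.2 - w.2, t)‖ₑ ^ 2
        ≤ (∫⁻ w : ℝ × ℝ, ‖κ w‖ₑ * ‖E g (p.1 - w.1, p.2 - w.2, t)‖ₑ) ^ 2 := by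
          gcongr
          refine (enorm_integral_le_lintegral_enorm _).trans (le_of_eq ?_)
          refine lintegral_congr fun w => ?_
          rw [enorm_mul]
      _ ≤ (∫⁻ w, ‖κ w‖ₑ) * ∫⁻ w : ℝ × ℝ, ‖κ w‖ₑ * ‖E g (p.1 - w.1, p.2 - w.2, t)‖ₑ ^ 2 :=
          Wex.CUT_cs hκm.enorm (hEg.comp (by fun_prop)).enorm
      _ ≤ _ := by gcongr
  -- measurability of the kernel
  have hker : Measurable fun z : (ℝ × ℝ) × ℝ × (ℝ × ℝ) =>
      ‖κ z.1‖ₑ * (‖E f (z.2.2.1, z.2.2.2, z.2.1)‖ₑ ^ 2 *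
        ‖E g (z.2.2.1 - z.1.1, z.2.2.2 - z.1.2, z.2.1)‖ₑ ^ 2) := by
    refine (hκm.comp measurable_fst).enorm.mul ?_
    refine ((hEf.comp (by fun_prop)).enorm.pow_const 2).mul
      ((hEg.comp (by fun_prop)).enorm.pow_const 2)
  have hgup : Measurable (gup χ) := by
    have e : gup χ = fun x => ∫ w : ℝ × ℝ, u (-(w.1 * x.1 + w.2 * x.2)) * κ w := funext hrep
    rw [e]
    have hm : Measurable fun z : (ℝ × ℝ) × (ℝ × ℝ) =>
        u (-(z.2.1 * z.1.1 + z.2.2 * z.1.2)) * κ z.2 :=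
      (measurable_u.comp (by fun_prop)).mul (hκm.comp measurable_snd)
    exact hm.stronglyMeasurable.integral_prod_right'.measurable
  have hχm : Measurable χ := by
    have e : χ = fun x => ((Real.exp (-nq x) : ℝ) : ℂ) * gup χ x := by
      funext x
      unfold gup
      rw [← mul_assoc, ← Complex.ofReal_mul, ← Real.exp_add]
      simp
    rw [e]
    unfold nq
    exact (Complex.measurable_ofReal.comp (by fun_prop)).mul hgup
  have hXX : Measurable (XX φ ψ s a χ f) := by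
    unfold XX
    exact hEf.enorm.mul (measurable_E (hχm.mul (Wex.CUT_measurable_Gs φ ψ s a))).enorm
  unfold Sl
  rw [Wex.CUT_integral_slab (Tk k) (hXX.pow_const 2)]
  calc ∫⁻ t in Tk k, ∫⁻ p : ℝ × ℝ, XX φ ψ s a χ f (p.1, p.2, t) ^ 2
      ≤ ∫⁻ t in Tk k, ∫⁻ p : ℝ × ℝ, (C2 * K) * ∫⁻ w : ℝ × ℝ,
          ‖κ w‖ₑ * (‖E f (p.1, p.2, t)‖ₑ ^ 2 * ‖E g (p.1 - w.1, p.2 - w.2, t)‖ₑ ^ 2) := by
        refine lintegral_mono fun t => lintegral_mono fun p => ?_
        simp only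
        unfold XX
        rw [mul_pow]
        calc ‖E f (p.1, p.2, t)‖ₑ ^ 2 * ‖E (fun x => χ x * Gs φ ψ s a x) (p.1, p.2, t)‖ₑ ^ 2
            ≤ ‖E f (p.1, p.2, t)‖ₑ ^ 2 * ((C2 * K) * ∫⁻ w : ℝ × ℝ,
              ‖κ w‖ₑ * ‖E g (p.1 - w.1, p.2 - w.2, t)‖ₑ ^ 2) := by
              gcongr
              exact hpt p t
          _ = _ := by
              rw [mul_left_comm, ← lintegral_const_mul]
              · congr 1
                refine lintegral_congr fun w => ?_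
                ring
              · exact hκm.enorm.mul ((hEg.comp (by fun_prop)).enorm.pow_const 2)
    _ = (C2 * K) * ∫⁻ w : ℝ × ℝ, ∫⁻ t in Tk k, ∫⁻ p : ℝ × ℝ,
          ‖κ w‖ₑ * (‖E f (p.1, p.2, t)‖ₑ ^ 2 * ‖E g (p.1 - w.1, p.2 - w.2, t)‖ₑ ^ 2) := by
        have m1 : ∀ t : ℝ, Measurable fun z : (ℝ × ℝ) × (ℝ × ℝ) =>
            ‖κ z.2‖ₑ * (‖E f (z.1.1, z.1.2, t)‖ₑ ^ 2 *
              ‖E g (z.1.1 - z.2.1, z.1.2 - z.2.2, t)‖ₑ ^ 2) := fun t =>
          hker.comp (by fun_prop : Measurable fun z : (ℝ × ℝ) × (ℝ × ℝ) => (z.2, t, z.1))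
        have m2 : Measurable fun z : ℝ × (ℝ × ℝ) => ∫⁻ p : ℝ × ℝ,
            ‖κ z.2‖ₑ * (‖E f (p.1, p.2, z.1)‖ₑ ^ 2 *
              ‖E g (p.1 - z.2.1, p.2 - z.2.2, z.1)‖ₑ ^ 2) := by
          refine Measurable.lintegral_prod_right' (f := fun y : (ℝ × (ℝ × ℝ)) × (ℝ × ℝ) =>
            ‖κ y.1.2‖ₑ * (‖E f (y.2.1, y.2.2, y.1.1)‖ₑ ^ 2 *
              ‖E g (y.2.1 - y.1.2.1, y.2.2 - y.1.2.2, y.1.1)‖ₑ ^ 2)) ?_
          exact hker.comp (by fun_prop : Measurable fun y : (ℝ × (ℝ × ℝ)) × (ℝ × ℝ) =>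
            (y.1.2, y.1.1, y.2))
        have s1 : ∀ t : ℝ, ∫⁻ p : ℝ × ℝ, (C2 * K : ℝ≥0∞) * ∫⁻ w : ℝ × ℝ,
            ‖κ w‖ₑ * (‖E f (p.1, p.2, t)‖ₑ ^ 2 * ‖E g (p.1 - w.1, p.2 - w.2, t)‖ₑ ^ 2) =
            (C2 * K : ℝ≥0∞) * ∫⁻ w : ℝ × ℝ, ∫⁻ p : ℝ × ℝ,
            ‖κ w‖ₑ * (‖E f (p.1, p.2, t)‖ₑ ^ 2 * ‖E g (p.1 - w.1, p.2 - w.2, t)‖ₑ ^ 2) := by
          intro t
          rw [lintegral_const_mul]
          · congr 1
            exact lintegral_lintegral_swap (m1 t).aemeasurable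
          · exact Measurable.lintegral_prod_right' (m1 t)
        simp only [s1]
        rw [lintegral_const_mul]
        · congr 1
          exact lintegral_lintegral_swap m2.aemeasurable
        · exact Measurable.lintegral_prod_right' m2
    _ ≤ (C2 * K) * ∫⁻ w : ℝ × ℝ, ‖κ w‖ₑ *
          (C1 * ENNReal.ofReal (2 ^ ((-1 + ε) * k)) * NA ε s a f) := by
        gcongr with w
        set fw : ℝ × ℝ → ℂ := fun x => u (w.1 * x.1 + w.2 * x.2) * f x with hfw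
        have hfwm : Measurable fw := (measurable_u.comp (by fun_prop)).mul hfm
        have hSqw : Sq fw := ⟨hfwm, fun x hx => by simp only [hfw, hSq.2 x hx, mul_zero]⟩
        have hen : ∀ x, ‖fw x‖ = ‖f x‖ := by
          intro x
          simp only [hfw, norm_mul, norm_u, one_mul]
        have hsup : Function.support fw = Function.support f := by
          ext x
          rw [Function.mem_support, Function.mem_support, ← norm_ne_zero_iff, hen x,
            norm_ne_zero_iff]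
        have hNA : NA ε s a fw = NA ε s a f := by
          unfold NA vs
          rw [hsup]
        have hb := hC1 φ ψ s a fw k hSep hne hSqw (fun x => (hen x).le.trans (hf1 x))
        rw [hNA] at hb
        have mm : ∀ t : ℝ, Measurable fun p : ℝ × ℝ => ‖E f (p.1, p.2, t)‖ₑ ^ 2 *
            ‖E g (p.1 - w.1, p.2 - w.2, t)‖ₑ ^ 2 := fun t =>
          ((hEf.comp (by fun_prop)).enorm.pow_const 2).mul
            ((hEg.comp (by fun_prop)).enorm.pow_const 2)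
        calc ∫⁻ t in Tk k, ∫⁻ p : ℝ × ℝ,
              ‖κ w‖ₑ * (‖E f (p.1, p.2, t)‖ₑ ^ 2 * ‖E g (p.1 - w.1, p.2 - w.2, t)‖ₑ ^ 2)
            = ‖κ w‖ₑ * ∫⁻ t in Tk k, ∫⁻ p : ℝ × ℝ,
                (‖E fw (p.1, p.2, t)‖ₑ * ‖E g (p.1, p.2, t)‖ₑ) ^ 2 := by
              rw [← lintegral_const_mul' _ _ enorm_ne_top]
              refine lintegral_congr fun t => ?_
              rw [← lintegral_const_mul' _ _ enorm_ne_top]
              have h3 := lintegral_add_right_eq_self (μ := (volume : Measure (ℝ × ℝ)))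
                (fun p : ℝ × ℝ => ‖κ w‖ₑ * (‖E f (p.1, p.2, t)‖ₑ ^ 2 *
                  ‖E g (p.1 - w.1, p.2 - w.2, t)‖ₑ ^ 2)) w
              rw [← h3]
              refine lintegral_congr fun p => ?_
              simp only [Prod.fst_add, Prod.snd_add, add_sub_cancel_right]
              rw [Wex.CUT_shift f w p t, mul_pow]
          _ ≤ _ := by gcongr
    _ = (C2 * K) * (∫⁻ w : ℝ × ℝ, ‖κ w‖ₑ) *
          (C1 * ENNReal.ofReal (2 ^ ((-1 + ε) * k)) * NA ε s a f) := by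
        rw [lintegral_mul_const _ hκm.enorm, ← mul_assoc]
    _ ≤ (C2 * K) * (C2 * K) *
          (C1 * ENNReal.ofReal (2 ^ ((-1 + ε) * k)) * NA ε s a f) := by
        gcongr
    _ = _ := by
        push_cast
        ring

end TSL
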