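import Pool.Agent.TSL.Targets

/-!
# TSL: ERR: error term and trivial bound
-/

set_option autoImplicit false

namespace TSL

open MeasureTheory Set Filter
open scoped ENNReal NNReal Topology
open Pool.Agent.Restr (u E QQ)
open TriL (Sq n2)
open Wey (nq lam hat gup gdn blk Tk Sl Wi InD)
open Wex (Gs nu cf BB Ann Sep XX chk chp Par pw Cross sw del dm cell amal)

namespace ERR_

/-- Cauchy-Schwarz -/
theorem cs (s : Finset ℤ) (b : ℤ → ℂ) :
    ‖∑ n ∈ s, b n‖ₑ ^ 2 ≤ (s.card : ℝ≥0∞) * ∑ n ∈ s, ‖b n‖ₑ ^ 2 := by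
  have h1 : ‖∑ n ∈ s, b n‖₊ ^ 2 ≤ (s.card : ℝ≥0) * ∑ n ∈ s, ‖b n‖₊ ^ 2 := by
    calc ‖∑ n ∈ s, b n‖₊ ^ 2 ≤ (∑ n ∈ s, ‖b n‖₊) ^ 2 := by
          gcongr
          exact nnnorm_sum_le _ _
      _ ≤ _ := sq_sum_le_card_mul_sum_sq
  have h2 : ∀ z : ℂ, ‖z‖ₑ = ((‖z‖₊ : ℝ≥0) : ℝ≥0∞) := fun z => rfl
  simp only [h2]
  exact_mod_cast h1

/-- the window -/
def win (M T ν : ℝ) : Set ℝ := {τ | ν ≤ M ∧ τ - 8 * T < ν ∧ ν ≤ τ}

theorem win_meas (M T ν : ℝ) : MeasurableSet (win M T ν) := by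
  unfold win
  measurability

theorem win_vol (M T ν : ℝ) : volume (win M T ν) ≤ ENNReal.ofReal (8 * T) := by
  have h1 : win M T ν ⊆ Ico ν (ν + 8 * T) := by
    rintro τ ⟨_, h2, h3⟩
    exact ⟨h3, by linarith⟩
  refine (measure_mono h1).trans (le_of_eq ?_)
  rw [Real.volume_Ico]
  congr 1
  ring

theorem lint_win (M T ν : ℝ) :
    ∫⁻ τ, (win M T ν).indicator (fun _ => (1 : ℝ≥0∞)) τ ≤ ENNReal.ofReal (8 * T) := by
  rw [lintegral_indicator_const (win_meas M T ν), one_mul]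
  exact win_vol M T ν

theorem cf_meas (φ ψ : ℤ → ℝ) (a : ℤ → ℂ) {F : ℝ × ℝ → ℂ} (hF : Measurable F) (n : ℤ) :
    Measurable fun σ => cf φ ψ a F σ n := by
  unfold cf
  exact ((Wex.SLB_.measurable_hat hF).comp (by fun_prop)).const_mul _

/-- Plancherel for one term -/
theorem planch (φ ψ : ℤ → ℝ) (a : ℤ → ℂ) {F : ℝ × ℝ → ℂ} (hF : Measurable F)
    (hFi : Integrable F) (n : ℤ) :
    ∫⁻ σ, ‖cf φ ψ a F σ n‖ₑ ^ 2 ≤
      ENNReal.ofReal (4 * Real.pi ^ 2) * (‖a n‖ₑ ^ 2 * ∫⁻ x, ‖F x‖ₑ ^ 2) := by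
  have h1 := Wex.p_HAT φ ψ {n} a F 0 n hF hFi
  have h2 : ∀ c : ℤ → ℂ, blk {n} c 0 n = c n := by
    intro c
    unfold blk
    rw [Finset.filter_true_of_mem, Finset.sum_singleton]
    intro k hk
    rw [Finset.mem_singleton] at hk
    subst hk
    simp
  simp only [h2] at h1
  refine h1.trans (le_of_eq ?_)
  congr 1
  rw [← lintegral_const_mul _ (hF.enorm.pow_const 2)]
  refine lintegral_congr fun x => ?_
  rw [enorm_mul]
  have h3 : ‖u (-(φ n * x.1 + ψ n * x.2))‖ₑ = 1 := by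
    rw [← ofReal_norm, Pool.Agent.Restr.norm_u, ENNReal.ofReal_one]
  rw [h3, mul_one, mul_comm]

/-- integration of a sum of windows -/
theorem windows (φ ψ : ℤ → ℝ) (s : Finset ℤ) (a : ℤ → ℂ) {F : ℝ × ℝ → ℂ} (hF : Measurable F)
    (hFi : Integrable F) (K : ℝ≥0∞) (κ : ℝ) (V : ℝ × ℝ → ℤ → ℝ → ℝ≥0∞)
    (hVm : ∀ σ n, Measurable (V σ n)) (hV : ∀ σ n, ∫⁻ τ, V σ n τ ≤ ENNReal.ofReal κ)
    (Φ : ℝ × ℝ → ℝ → ℝ≥0∞)
    (hΦ : ∀ σ τ, Φ σ τ ≤ K * ∑ n ∈ s, ‖cf φ ψ a F σ n‖ₑ ^ 2 * V σ n τ) :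
    ∫⁻ σ : ℝ × ℝ, ∫⁻ τ : ℝ, Φ σ τ ≤ K * (ENNReal.ofReal κ * (ENNReal.ofReal (4 * Real.pi ^ 2) *
      ((∑ n ∈ s, ‖a n‖ₑ ^ 2) * ∫⁻ x, ‖F x‖ₑ ^ 2))) := by
  have h1 : ∀ σ, ∫⁻ τ : ℝ, Φ σ τ ≤
      K * (ENNReal.ofReal κ * ∑ n ∈ s, ‖cf φ ψ a F σ n‖ₑ ^ 2) := by
    intro σ
    calc ∫⁻ τ : ℝ, Φ σ τ ≤ ∫⁻ τ : ℝ, K * ∑ n ∈ s, ‖cf φ ψ a F σ n‖ₑ ^ 2 * V σ n τ :=
          lintegral_mono (hΦ σ)
      _ = K * ∑ n ∈ s, ‖cf φ ψ a F σ n‖ₑ ^ 2 * ∫⁻ τ : ℝ, V σ n τ := by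
          rw [lintegral_const_mul _ (Finset.measurable_fun_sum _ fun n _ =>
            (hVm σ n).const_mul _), lintegral_finsetSum _ fun n _ => (hVm σ n).const_mul _]
          congr 1
          refine Finset.sum_congr rfl fun n _ => ?_
          rw [lintegral_const_mul _ (hVm σ n)]
      _ ≤ K * ∑ n ∈ s, ‖cf φ ψ a F σ n‖ₑ ^ 2 * ENNReal.ofReal κ := by
          gcongr with n _
          exact hV σ n
      _ = _ := by
          rw [← Finset.sum_mul, mul_comm (ENNReal.ofReal κ)]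
  have hm : ∀ n, Measurable fun σ => ‖cf φ ψ a F σ n‖ₑ ^ 2 := fun n =>
    (cf_meas φ ψ a hF n).enorm.pow_const 2
  calc ∫⁻ σ : ℝ × ℝ, ∫⁻ τ : ℝ, Φ σ τ
      ≤ ∫⁻ σ : ℝ × ℝ, K * (ENNReal.ofReal κ * ∑ n ∈ s, ‖cf φ ψ a F σ n‖ₑ ^ 2) :=
        lintegral_mono h1
    _ = K * (ENNReal.ofReal κ * ∑ n ∈ s, ∫⁻ σ : ℝ × ℝ, ‖cf φ ψ a F σ n‖ₑ ^ 2) := by
        rw [lintegral_const_mul _ ((Finset.measurable_fun_sum _ fun n _ => hm n).const_mul _),
          lintegral_const_mul _ (Finset.measurable_fun_sum _ fun n _ => hm n),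
          lintegral_finsetSum _ fun n _ => hm n]
    _ ≤ K * (ENNReal.ofReal κ * ∑ n ∈ s,
          ENNReal.ofReal (4 * Real.pi ^ 2) * (‖a n‖ₑ ^ 2 * ∫⁻ x, ‖F x‖ₑ ^ 2)) := by
        gcongr with n _
        exact planch φ ψ a hF hFi n
    _ = _ := by
        rw [← Finset.mul_sum, ← Finset.sum_mul]

theorem card_real {s : Finset ℤ} {P : ℝ} (h : (s.card : ℝ) ≤ P) :
    (s.card : ℝ≥0∞) ≤ ENNReal.ofReal P := by
  rw [← ENNReal.ofReal_natCast]
  exact ENNReal.ofReal_le_ofReal h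

end ERR_

theorem p_ERR : T_ERR := by
  classical
  constructor
  · intro φ ψ s φ' ψ' e B m P hC a F M T hF hFi hT
    have hP0 : 0 ≤ P := le_trans (Nat.cast_nonneg _) (hC.few 0 0 0 0)
    have key := ERR_.windows φ ψ s a hF hFi (ENNReal.ofReal P) (16 * T)
      (fun σ n τ => (ERR_.win M T (nu φ ψ σ n)).indicator (fun _ => (1 : ℝ≥0∞)) τ +
        (ERR_.win M T (nu φ' ψ' σ (e n))).indicator (fun _ => (1 : ℝ≥0∞)) τ)
      (fun σ n => (measurable_const.indicator (ERR_.win_meas _ _ _)).add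
        (measurable_const.indicator (ERR_.win_meas _ _ _)))
      (fun σ n => by
        rw [lintegral_add_left (measurable_const.indicator (ERR_.win_meas _ _ _))]
        refine (add_le_add (ERR_.lint_win _ _ _) (ERR_.lint_win _ _ _)).trans (le_of_eq ?_)
        rw [← ENNReal.ofReal_add (by positivity) (by positivity)]
        congr 1
        ring)
      (fun σ τ => ‖(∑ n ∈ s with (nu φ ψ σ n ≤ M ∧ τ - 8 * T < nu φ ψ σ n ∧
        nu φ ψ σ n ≤ τ), cf φ ψ a F σ n) -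
      ∑ n ∈ s with (nu φ' ψ' σ (e n) ≤ M ∧ τ - 8 * T < nu φ' ψ' σ (e n) ∧
        nu φ' ψ' σ (e n) ≤ τ), cf φ ψ a F σ n‖ₑ ^ 2) ?_
    · refine (le_of_eq ?_).trans (key.trans (le_of_eq ?_))
      · refine lintegral_congr fun σ => lintegral_congr fun τ => ?_
        congr
      · rw [← mul_assoc, ← mul_assoc, ← ENNReal.ofReal_mul hP0,
          ← ENNReal.ofReal_mul (by positivity)]
        congr 2
        ring
    · intro σ τ
      set p1 : ℤ → Prop := fun n => nu φ ψ σ n ≤ M ∧ τ - 8 * T < nu φ ψ σ n ∧ nu φ ψ σ n ≤ τ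
        with hp1
      set p2 : ℤ → Prop := fun n => nu φ' ψ' σ (e n) ≤ M ∧ τ - 8 * T < nu φ' ψ' σ (e n) ∧
        nu φ' ψ' σ (e n) ≤ τ with hp2
      -- few indices
      have hfew : ((s.filter fun n => ¬ (p1 n ↔ p2 n)).card : ℝ) ≤ P := by
        have h1 := hC.few (σ.1 / 2) (σ.2 / 2) ((τ - 8 * T) / 4) (min M τ / 4)
        refine le_trans (le_of_eq ?_) h1
        congr 2
        ext n
        simp only [Finset.mem_filter]
        have h2 : ∀ φ ψ : ℤ → ℝ, ∀ k : ℤ, (nu φ ψ σ k ≤ M ∧ τ - 8 * T < nu φ ψ σ k ∧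
            nu φ ψ σ k ≤ τ) ↔ ((τ - 8 * T) / 4 < (φ k - σ.1 / 2) ^ 2 + (ψ k - σ.2 / 2) ^ 2 ∧
              (φ k - σ.1 / 2) ^ 2 + (ψ k - σ.2 / 2) ^ 2 ≤ min M τ / 4) := by
          intro φ ψ k
          have h3 : nu φ ψ σ k = 4 * ((φ k - σ.1 / 2) ^ 2 + (ψ k - σ.2 / 2) ^ 2) := by
            unfold nu
            ring
          rw [h3]
          set r := (φ k - σ.1 / 2) ^ 2 + (ψ k - σ.2 / 2) ^ 2
          constructor
          · rintro ⟨h4, h5, h6⟩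
            refine ⟨by linarith, ?_⟩
            rw [le_div_iff₀ (by norm_num), le_min_iff]
            constructor <;> linarith
          · rintro ⟨h4, h5⟩
            rw [le_div_iff₀ (by norm_num), le_min_iff] at h5
            refine ⟨by linarith [h5.1], by linarith, by linarith [h5.2]⟩
        simp only [hp1, hp2]
        rw [h2 φ ψ n, h2 φ' ψ' (e n)]
      have hdiff : (∑ n ∈ s with p1 n, cf φ ψ a F σ n) - ∑ n ∈ s with p2 n, cf φ ψ a F σ n =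
          ∑ n ∈ s with ¬ (p1 n ↔ p2 n), ((if p1 n then cf φ ψ a F σ n else 0) -
            if p2 n then cf φ ψ a F σ n else 0) := by
        rw [Finset.sum_filter, Finset.sum_filter, ← Finset.sum_sub_distrib, Finset.sum_filter]
        refine Finset.sum_congr rfl fun n _ => ?_
        by_cases h1 : p1 n <;> by_cases h2 : p2 n <;> simp [h1, h2]
      have hmain : ‖(∑ n ∈ s with p1 n, cf φ ψ a F σ n) -
          ∑ n ∈ s with p2 n, cf φ ψ a F σ n‖ₑ ^ 2 ≤ ENNReal.ofReal P *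
            ∑ n ∈ s, ‖cf φ ψ a F σ n‖ₑ ^ 2 * ((if p1 n then 1 else 0) +
              if p2 n then 1 else 0) := by
        rw [hdiff]
        refine (ERR_.cs _ _).trans ?_
        refine mul_le_mul' (ERR_.card_real hfew) ?_
        rw [Finset.sum_filter]
        refine Finset.sum_le_sum fun n _ => ?_
        by_cases h1 : p1 n <;> by_cases h2 : p2 n <;> simp [h1, h2]
      refine (le_of_eq ?_).trans (hmain.trans (le_of_eq ?_))
      · congr
      · congr 1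
        refine Finset.sum_congr rfl fun n _ => ?_
        congr 1
        simp only [ERR_.win, Set.indicator_apply, Set.mem_ofPred_eq, hp1, hp2]
  · intro φ ψ s a F M T hF hFi hT
    have key := ERR_.windows φ ψ s a hF hFi (s.card : ℝ≥0∞) (8 * T)
      (fun σ n τ => (ERR_.win M T (nu φ ψ σ n)).indicator (fun _ => (1 : ℝ≥0∞)) τ)
      (fun σ n => measurable_const.indicator (ERR_.win_meas _ _ _))
      (fun σ n => ERR_.lint_win _ _ _)
      (fun σ τ => ‖∑ n ∈ s with (nu φ ψ σ n ≤ M ∧ τ - 8 * T < nu φ ψ σ n ∧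
        nu φ ψ σ n ≤ τ), cf φ ψ a F σ n‖ₑ ^ 2) ?_
    · refine (le_of_eq ?_).trans (key.trans (le_of_eq ?_))
      · refine lintegral_congr fun σ => lintegral_congr fun τ => ?_
        congr
      · rw [← mul_assoc, ← mul_assoc, ← ENNReal.ofReal_natCast, ← ENNReal.ofReal_mul
          (by positivity), ← ENNReal.ofReal_mul (by positivity)]
        congr 2
        ring
    · intro σ τ
      set p1 : ℤ → Prop := fun n => nu φ ψ σ n ≤ M ∧ τ - 8 * T < nu φ ψ σ n ∧ nu φ ψ σ n ≤ τ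
        with hp1
      have hmain : ‖∑ n ∈ s with p1 n, cf φ ψ a F σ n‖ₑ ^ 2 ≤ (s.card : ℝ≥0∞) *
            ∑ n ∈ s, ‖cf φ ψ a F σ n‖ₑ ^ 2 * (if p1 n then 1 else 0) := by
        rw [Finset.sum_filter]
        refine (ERR_.cs _ _).trans ?_
        refine mul_le_mul' le_rfl ?_
        refine Finset.sum_le_sum fun n _ => ?_
        by_cases h1 : p1 n <;> simp [h1]
      refine (le_of_eq ?_).trans (hmain.trans (le_of_eq ?_))
      · congr
      · congr 1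
        refine Finset.sum_congr rfl fun n _ => ?_
        congr 1
        simp only [ERR_.win, Set.indicator_apply, Set.mem_ofPred_eq, hp1]

end TSL
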