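import Pool.Agent.TSL.Targets2

/-!
# MP_5ab805_an, LEC: level sets of the transform of `g`, `f` in `L²` (helper53)
-/

set_option autoImplicit false

namespace TSL

open MeasureTheory Set Filter
open scoped ENNReal NNReal Topology
open Pool.Agent.Restr (u E QQ)
open TriL (Sq n2)
open Wey (nq lam hat gup gdn blk Tk Sl Wi InD)
open Wex (Gs nu cf BB Ann Sep XX chk chp Par pw Cross sw del dm cell amal)

theorem p_LEC (hSPC : T_SPC) : T_LEC := by
  intro ρ s μ t hρ hρ2 hs hsρ hμ hμ2 ht htμ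
  have hs0 : 0 < s := by linarith
  have ht0 : 0 < t := by linarith
  have hρ3 : 1 / 2 < 1 / ρ := one_div_lt_one_div_of_lt (by linarith) hρ2
  have hμ3 : 3 / 4 < 1 / μ := by
    rw [lt_one_div (by norm_num) (by linarith)]
    linarith
  have hρ4 : 2 / ρ = 2 * (1 / ρ) := by ring
  have hμ4 : 2 / μ = 2 * (1 / μ) := by ring
  obtain ⟨κ, hκ1, hκ2⟩ : ∃ κ, 2 / ρ - 1 < κ ∧ κ < 1 / s - 1 / 2 :=
    exists_between (by linarith)
  obtain ⟨ν, hν1, hν2⟩ : ∃ ν, 2 / μ - 3 / 2 < ν ∧ ν < 1 / t - 1 / 2 :=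
    exists_between (by linarith)
  have hsκ : s * (κ + 1 / 2) < 1 := by
    have h2 : κ + 1 / 2 < 1 / s := by linarith
    calc s * (κ + 1 / 2) < s * (1 / s) := by gcongr
      _ = 1 := mul_one_div_cancel hs0.ne'
  have htν : t * (ν + 1 / 2) < 1 := by
    have h2 : ν + 1 / 2 < 1 / t := by linarith
    calc t * (ν + 1 / 2) < t * (1 / t) := by gcongr
      _ = 1 := mul_one_div_cancel ht0.ne'
  obtain ⟨C₀, hC₀⟩ := hSPC ρ κ μ ν hρ hρ2 hκ1 hμ hμ2 hν1
  obtain ⟨C₁, hC₁⟩ := Wex.LEV_.assemble hs (by linarith) hsκ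
  obtain ⟨C₂, hC₂⟩ := Wex.LEV_.assemble ht (by linarith) htν
  refine ⟨(C₁ + C₂) * C₀, fun χ γ K S hχ hQ hm hi h2 h0 f hf hf1 => ⟨?_, fun g hg => ?_⟩⟩
  · refine (hC₁ χ γ K S (E f) (ENNReal.ofReal ρ) (C₀ * K * eLpNorm f 2 volume) hχ hQ hm hi h2 h0
      (Pool.Agent.Restr.measurable_E hf.1) ?_ fun T δ hδm hδi hδ0 => ?_).trans ?_
    · exact ENNReal.one_le_ofReal.2 (by linarith)
    · exact (hC₀ χ δ K T hχ hQ hδm hδi hδ0 f hf hf1).1
    · calc (C₁ : ℝ≥0∞) * (C₀ * K * eLpNorm f 2 volume) * amal s γ ≤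
            (C₁ + C₂) * (C₀ * K * eLpNorm f 2 volume) * amal s γ := by
            gcongr
            exact le_self_add
        _ = _ := by push_cast; ring
  · refine (hC₂ χ γ K S (fun ξ => E f ξ * E g ξ) (ENNReal.ofReal μ)
      (C₀ * K * eLpNorm f 2 volume * eLpNorm g 2 volume) hχ hQ hm hi h2 h0
      ((Pool.Agent.Restr.measurable_E hf.1).mul (Pool.Agent.Restr.measurable_E hg.1)) ?_
      fun T δ hδm hδi hδ0 => ?_).trans ?_
    · exact ENNReal.one_le_ofReal.2 (by linarith)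
    · refine ((hC₀ χ δ K T hχ hQ hδm hδi hδ0 f hf hf1).2 g hg).trans (le_of_eq ?_)
      ring
    · calc (C₂ : ℝ≥0∞) * (C₀ * K * eLpNorm f 2 volume * eLpNorm g 2 volume) * amal t γ ≤
            (C₁ + C₂) * (C₀ * K * eLpNorm f 2 volume * eLpNorm g 2 volume) * amal t γ := by
            gcongr
            exact le_add_self
        _ = _ := by push_cast; ring

end TSL
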