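import Pool.Agent.TSL.Targets

/-!
# MP_5ab805_an, TSL: SPB (helper67)

Functions with spectrum in the union of finitely many unit cells, with a power of the measure of
the set where `f` is not zero.
-/

set_option autoImplicit false

namespace TSL

open MeasureTheory Set Filter
open scoped ENNReal NNReal Topology
open Pool.Agent.Restr (u E QQ)
open TriL (Sq n2)
open Wey (nq lam hat gup gdn blk Tk Sl Wi InD)
open Wex (Gs nu cf BB Ann Sep XX chk chp Par pw Cross sw del dm cell amal)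

namespace SPB_

open Pool.Agent.Restr (norm_u measurable_u measurable_E vol_QQ)

theorem vs_le_one {f : ℝ × ℝ → ℂ} (hf : Sq f) : vs f ≤ 1 := by
  unfold vs
  calc volume (Function.support f) ≤ volume QQ := by
        refine measure_mono fun x hx => ?_
        by_contra h
        exact hx (hf.2 x h)
    _ = 1 := vol_QQ

theorem vs_shift (f : ℝ × ℝ → ℂ) (w : ℝ × ℝ) :
    vs (fun x => u (w.1 * x.1 + w.2 * x.2) * f x) = vs f := by
  unfold vs
  congr 1
  ext x
  have hu : u (w.1 * x.1 + w.2 * x.2) ≠ 0 := by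
    intro h
    have := norm_u (w.1 * x.1 + w.2 * x.2)
    rw [h, norm_zero] at this
    exact zero_ne_one this
  simp only [Function.mem_support, ne_eq, mul_eq_zero, hu, false_or]

theorem pw_mono {m : ℕ} (hm : 1 ≤ m) {a b : ℝ} (h : a ≤ b) : pw m a ≤ pw m b := by
  unfold Wex.pw
  refine ENNReal.ofReal_le_ofReal (Real.rpow_le_rpow_of_exponent_le ?_ h)
  exact_mod_cast hm

/-- the choice of the exponents -/
theorem expo (ρ κ η μ ν θ : ℝ) (h1 : 3 / 2 < ρ) (h2 : ρ < 2) (h3 : 1 / ρ - 1 / 2 < κ)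
    (h5 : η < 1 - 1 / ρ) (h6 : 1 < μ) (h7 : μ < 4 / 3) (h8 : 1 / μ - 3 / 4 < ν)
    (h10 : θ < 5 / 4 - 1 / μ) :
    ∃ κ₀ ν₀ ε : ℝ, Par ρ κ₀ μ ν₀ ∧ 0 < ε ∧ (1 / 2 + ε) * (κ₀ / ρ) ≤ κ ∧
      η ≤ 1 / 2 - κ₀ / (2 * ρ) ∧ (1 / 2 + ε) * (ν₀ / μ) ≤ ν ∧ θ ≤ 1 / 2 - ν₀ / (2 * μ) := by
  have hρ0 : 0 < ρ := by linarith
  have hμ0 : 0 < μ := by linarith
  have hκ2 : 2 - ρ < 2 * ρ * κ := by
    have h := mul_lt_mul_of_pos_left h3 (by linarith : (0 : ℝ) < 2 * ρ)
    have e : 2 * ρ * (1 / ρ - 1 / 2) = 2 - ρ := by field_simp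
    linarith
  have hη2 : 2 - ρ < ρ - 2 * ρ * η := by
    have h := mul_lt_mul_of_pos_left h5 (by linarith : (0 : ℝ) < 2 * ρ)
    have e : 2 * ρ * (1 - 1 / ρ) = 2 * ρ - 2 := by field_simp
    linarith
  have hν2 : 2 - 3 * μ / 2 < 2 * μ * ν := by
    have h := mul_lt_mul_of_pos_left h8 (by linarith : (0 : ℝ) < 2 * μ)
    have e : 2 * μ * (1 / μ - 3 / 4) = 2 - 3 * μ / 2 := by field_simp; ring
    linarith
  have hθ2 : 2 - 3 * μ / 2 < μ - 2 * μ * θ := by
    have h := mul_lt_mul_of_pos_left h10 (by linarith : (0 : ℝ) < 2 * μ)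
    have e : 2 * μ * (5 / 4 - 1 / μ) = 5 * μ / 2 - 2 := by field_simp; ring
    linarith
  obtain ⟨kp, hk1, hk2⟩ := exists_between
    (lt_min (lt_min (show 2 - ρ < ρ - 1 by linarith) hκ2) hη2)
  obtain ⟨np, hn1, hn2⟩ := exists_between
    (lt_min (lt_min (show 2 - 3 * μ / 2 < μ / 2 by linarith) hν2) hθ2)
  rw [lt_min_iff, lt_min_iff] at hk2 hn2
  obtain ⟨⟨hka, hkb⟩, hkc⟩ := hk2
  obtain ⟨⟨hna, hnb⟩, hnc⟩ := hn2
  have hkp : 0 < kp := by linarith
  have hnp : 0 < np := by linarith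
  have he1 : 0 < κ * ρ / kp - 1 / 2 := by
    rw [sub_pos, lt_div_iff₀ hkp]
    linarith
  have he2 : 0 < ν * μ / np - 1 / 2 := by
    rw [sub_pos, lt_div_iff₀ hnp]
    linarith
  refine ⟨kp, np, min (κ * ρ / kp - 1 / 2) (ν * μ / np - 1 / 2),
    ⟨⟨h1, h2, hk1, hka.le⟩, h6, h7, hn1, hna.le⟩, lt_min he1 he2, ?_, ?_, ?_, ?_⟩
  · calc (1 / 2 + min (κ * ρ / kp - 1 / 2) (ν * μ / np - 1 / 2)) * (kp / ρ)
        ≤ (1 / 2 + (κ * ρ / kp - 1 / 2)) * (kp / ρ) := by
          gcongr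
          exact min_le_left _ _
      _ = κ := by field_simp; ring
  · rw [le_sub_comm, div_le_iff₀ (by linarith)]
    linarith
  · calc (1 / 2 + min (κ * ρ / kp - 1 / 2) (ν * μ / np - 1 / 2)) * (np / μ)
        ≤ (1 / 2 + (ν * μ / np - 1 / 2)) * (np / μ) := by
          gcongr
          exact min_le_right _ _
      _ = ν := by field_simp; ring
  · rw [le_sub_comm, div_le_iff₀ (by linarith)]
    linarith

end SPB_

open SPB_ Pool.Agent.Restr in
theorem p_SPB (hASA : T_ASA) : T_SPB := by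
  intro ρ κ η μ ν θ h1 h2 h3 _ h5 h6 h7 h8 _ h10
  obtain ⟨κ₀, ν₀, ε, hpar, hε, hk, hη, hn, hθ⟩ := expo ρ κ η μ ν θ h1 h2 h3 h5 h6 h7 h8 h10
  obtain ⟨C1, hC1⟩ := hASA ρ κ₀ μ ν₀ ε hpar hε
  refine ⟨C1 * NNReal.sqrt (16 * 1), ?_⟩
  intro χ γ K S hW h0 hγm hγ hγS f hf hf1
  rcases S.eq_empty_or_nonempty with hS | hS
  · subst hS
    have hγ0 : γ = 0 := by
      funext y
      exact hγS y (by simp)
    have hE : (fun x : ℝ × ℝ => χ x * chk γ x) = fun _ => 0 := by
      funext x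
      simp [hγ0, Wex.chk]
    have hE0 : ∀ ξ, E (fun x : ℝ × ℝ => χ x * chk γ x) ξ = 0 := by
      intro ξ
      rw [hE]
      simp [E]
    refine ⟨?_, ?_⟩
    · simp [hE0]
    · intro g _
      simp [hE0]
  · obtain ⟨ι⟩ : Nonempty (ℤ × ℤ ≃ ℤ) := ⟨Denumerable.equiv₂ (ℤ × ℤ) ℤ⟩
    set s : Finset ℤ := S.map ι.toEmbedding with hs
    set φ : ℤ → ℝ := fun n => ((ι.symm n).1 : ℝ) with hφ
    set ψ : ℤ → ℝ := fun n => ((ι.symm n).2 : ℝ) with hψ
    have hcard : s.card = S.card := Finset.card_map _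
    have hSep : Sep φ ψ s := by
      intro n _ k _ hnk
      have hne : Wex.SPA_.zp (ι.symm n) ≠ Wex.SPA_.zp (ι.symm k) := fun h =>
        hnk (ι.symm.injective (Wex.SPA_.zp_inj h))
      exact Wex.SPA_.zp_sep hne
    have hsn : s.Nonempty := by
      rw [hs, Finset.map_nonempty]
      exact hS
    have hs1 : 1 ≤ s.card := hsn.card_pos
    have hnear : ∀ y : ℝ × ℝ, (∀ n ∈ s, 4 < (y.1 - φ n) ^ 2 + (y.2 - ψ n) ^ 2) → γ y = 0 := by
      intro y hy
      refine hγS y fun k hk hyk => ?_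
      have h := hy (ι k) (by
        rw [hs, Finset.mem_map]
        exact ⟨k, hk, rfl⟩)
      have h' := Wex.SPA_.cell_near hyk
      simp only [hφ, hψ, Equiv.symm_apply_apply] at h
      simp only [Wex.SPA_.zp] at h'
      exact absurd h (not_lt.2 h')
    have hfw1 : ∀ w x : ℝ × ℝ, ‖u (w.1 * x.1 + w.2 * x.2) * f x‖ ≤ 1 := by
      intro w x
      rw [norm_mul, norm_u, one_mul]
      exact hf1 x
    have hv1 := vs_le_one hf
    have key := fun w : ℝ × ℝ => hC1 φ ψ s (Wex.THK_.aw φ ψ s γ w) χ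
      (fun x => u (w.1 * x.1 + w.2 * x.2) * f x) K hSep hsn hW h0
      (Wex.THK_.sq_shift hf w) (hfw1 w)
    simp only [vs_shift] at key
    obtain ⟨Bf, hBf, hBf'⟩ := Wex.THK_.E_bdd f
    have hρ1 : 1 < ρ := by linarith
    constructor
    · have hmain := Wex.THK_.main (r := ρ) hρ1 hW h0 hγm hγ hnear 1
        (C1 * K * (pw s.card ((1 / 2 + ε) * (κ₀ / ρ)) * vs f ^ (1 / 2 - κ₀ / (2 * ρ))))
        (measurable_E hf.1) hBf hBf' (fun w => by
          simp only [Wex.THK_.shift, ENNReal.coe_one, one_mul]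
          exact (key w).1)
      refine hmain.trans ?_
      calc (C1 : ℝ≥0∞) * K * (pw s.card ((1 / 2 + ε) * (κ₀ / ρ)) *
            vs f ^ (1 / 2 - κ₀ / (2 * ρ))) *
            ((NNReal.sqrt (16 * 1) : ℝ≥0∞) * eLpNorm γ 2 volume)
          ≤ (C1 : ℝ≥0∞) * K * (pw s.card κ * vs f ^ η) *
            ((NNReal.sqrt (16 * 1) : ℝ≥0∞) * eLpNorm γ 2 volume) := by
            have e1 := pw_mono hs1 hk
            have e2 := ENNReal.rpow_le_rpow_of_exponent_ge hv1 hη
            exact mul_le_mul' (mul_le_mul' le_rfl (mul_le_mul' e1 e2)) le_rfl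
        _ = _ := by
            rw [hcard]
            push_cast
            ring
    · intro g hg
      obtain ⟨Bg, hBg, hBg'⟩ := Wex.THK_.E_bdd g
      have hmain := Wex.THK_.main (r := μ) h6 hW h0 hγm hγ hnear 1
        (C1 * K * (pw s.card ((1 / 2 + ε) * (ν₀ / μ)) * vs f ^ (1 / 2 - ν₀ / (2 * μ))) *
          eLpNorm g 2 volume) (A := fun ξ => E f ξ * E g ξ)
        ((measurable_E hf.1).mul (measurable_E hg.1)) (ENNReal.mul_ne_top hBf hBg)
        (fun ξ => by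
          rw [enorm_mul]
          exact mul_le_mul' (hBf' ξ) (hBg' ξ)) (fun w => by
          simp only [Wex.THK_.shift, ENNReal.coe_one, one_mul]
          have h3 := (key w).2 (fun x => u (w.1 * x.1 + w.2 * x.2) * g x)
            (Wex.THK_.sq_shift hg w)
          have h4 : eLpNorm (fun x : ℝ × ℝ => u (w.1 * x.1 + w.2 * x.2) * g x) 2 volume =
              eLpNorm g 2 volume := by
            refine eLpNorm_congr_norm_ae (Eventually.of_forall fun x => ?_)
            rw [norm_mul, norm_u, one_mul]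
          rw [h4] at h3
          refine h3.trans (le_of_eq ?_)
          ring)
      refine hmain.trans ?_
      calc (C1 : ℝ≥0∞) * K * (pw s.card ((1 / 2 + ε) * (ν₀ / μ)) *
            vs f ^ (1 / 2 - ν₀ / (2 * μ))) * eLpNorm g 2 volume *
            ((NNReal.sqrt (16 * 1) : ℝ≥0∞) * eLpNorm γ 2 volume)
          ≤ (C1 : ℝ≥0∞) * K * (pw s.card ν * vs f ^ θ) * eLpNorm g 2 volume *
            ((NNReal.sqrt (16 * 1) : ℝ≥0∞) * eLpNorm γ 2 volume) := by
            have e1 := pw_mono hs1 hn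
            have e2 := ENNReal.rpow_le_rpow_of_exponent_ge hv1 hθ
            exact mul_le_mul' (mul_le_mul' (mul_le_mul' le_rfl (mul_le_mul' e1 e2)) le_rfl)
              le_rfl
        _ = _ := by
            rw [hcard]
            push_cast
            ring

end TSL
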