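import Pool.Agent.TSL.Targets2
import Pool.Agent.TSL.SPB

/-!
# MP_5ab805_an, TSL: LED (helper57)

Geometric mean of the bounds SPB and SPC; level sets.
-/

set_option autoImplicit false

namespace TSL

open MeasureTheory Set Filter
open scoped ENNReal NNReal Topology
open Pool.Agent.Restr (u E QQ)
open TriL (Sq n2)
open Wey (nq lam hat gup gdn blk Tk Sl Wi InD)
open Wex (Gs nu cf BB Ann Sep XX chk chp Par pw Cross sw del dm cell amal)

namespace LED_

/-- the choice of the parameters -/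
theorem pick {A B σ η : ℝ} (hA : 1 / 2 < A) (hAB : A < B) (hBA : B - A < 1 / 4) (hσ : A < σ)
    (hη2 : η < 1 / 2) (hη3 : η < 1 / 2 - B + σ) :
    ∃ l e : ℝ, 0 < l ∧ l < 1 ∧ 0 < e ∧ 0 ≤ 1 / 2 - (B - A) - e ∧
      0 < (1 - l) * (A - 1 / 2 + e) + l * (B - 1 / 2 + e) ∧
      (1 - l) * (A - 1 / 2 + e) + l * (B - 1 / 2 + e) < σ - 1 / 2 ∧
      η ≤ (1 - l) * (1 / 2 - (B - A) - e) + l * (1 / 2) := by
  obtain ⟨x, hx1, hx2⟩ := exists_between
    (show max A (η - 1 / 2 + B) < min σ B from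
      max_lt (lt_min hσ hAB) (lt_min (by linarith) (by linarith)))
  rw [max_lt_iff] at hx1
  rw [lt_min_iff] at hx2
  obtain ⟨ha, hb⟩ := hx1
  obtain ⟨hc, hd⟩ := hx2
  have hD : 0 < B - A := by linarith
  obtain ⟨e, he0, he1⟩ := exists_between
    (show (0 : ℝ) < min (1 / 4) (min (σ - x) (x + 1 / 2 - B - η)) from
      lt_min (by norm_num) (lt_min (by linarith) (by linarith)))
  rw [lt_min_iff, lt_min_iff] at he1
  obtain ⟨he1, he2, he3⟩ := he1
  have hl : (x - A) / (B - A) * (B - A) = x - A := div_mul_cancel₀ _ hD.ne'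
  have hl0 : 0 < (x - A) / (B - A) := div_pos (by linarith) hD
  have hl1 : (x - A) / (B - A) < 1 := by
    rw [div_lt_one hD]
    linarith
  obtain ⟨l, hl'⟩ : ∃ l, l = (x - A) / (B - A) := ⟨_, rfl⟩
  rw [← hl'] at hl hl0 hl1
  have e1 : (1 - l) * (A - 1 / 2 + e) + l * (B - 1 / 2 + e) = x - 1 / 2 + e := by
    linear_combination hl
  have e2 : (1 - l) * (1 / 2 - (B - A) - e) + l * (1 / 2) =
      x + 1 / 2 - B - (1 - l) * e := by
    linear_combination hl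
  have e3 : (1 - l) * e ≤ e := by nlinarith
  refine ⟨l, e, hl0, hl1, he0, by linarith, ?_, ?_, ?_⟩
  · rw [e1]; linarith
  · rw [e1]; linarith
  · rw [e2]; linarith

/-- the geometric mean of two bounds -/
theorem geo {X G V P : ℝ≥0∞} {l x y z w η κ : ℝ} (h0 : 0 < l) (h1 : l < 1) (hx : 0 ≤ x)
    (hy : 0 ≤ y) (hz : 0 ≤ z) (hw : 0 ≤ w) (hV : V ≤ 1) (hη : η ≤ (1 - l) * x + l * y)
    (hκ : κ = (1 - l) * z + l * w)
    (hX : X ≤ G * (V ^ x * P ^ z)) (hY : X ≤ G * (V ^ y * P ^ w)) :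
    X ≤ G * (V ^ η * P ^ κ) := by
  have h2 : 0 ≤ 1 - l := by linarith
  have hsplit : ∀ Y : ℝ≥0∞, Y = Y ^ (1 - l) * Y ^ l := by
    intro Y
    rw [← ENNReal.rpow_add_of_nonneg _ _ h2 h0.le, sub_add_cancel, ENNReal.rpow_one]
  have e1 : ∀ (Y : ℝ≥0∞) {a b : ℝ}, 0 ≤ a → 0 ≤ b →
      (Y ^ a) ^ (1 - l) * (Y ^ b) ^ l = Y ^ ((1 - l) * a + l * b) := by
    intro Y a b ha hb
    rw [← ENNReal.rpow_mul, ← ENNReal.rpow_mul,
      ← ENNReal.rpow_add_of_nonneg _ _ (mul_nonneg ha h2) (mul_nonneg hb h0.le)]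
    congr 1
    ring
  calc X = X ^ (1 - l) * X ^ l := hsplit X
    _ ≤ (G * (V ^ x * P ^ z)) ^ (1 - l) * (G * (V ^ y * P ^ w)) ^ l :=
        mul_le_mul' (ENNReal.rpow_le_rpow hX h2) (ENNReal.rpow_le_rpow hY h0.le)
    _ = (G ^ (1 - l) * G ^ l) * (((V ^ x) ^ (1 - l) * (V ^ y) ^ l) *
          ((P ^ z) ^ (1 - l) * (P ^ w) ^ l)) := by
        rw [ENNReal.mul_rpow_of_nonneg _ _ h2, ENNReal.mul_rpow_of_nonneg _ _ h2,
          ENNReal.mul_rpow_of_nonneg _ _ h0.le, ENNReal.mul_rpow_of_nonneg _ _ h0.le]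
        ring
    _ = G * (V ^ ((1 - l) * x + l * y) * P ^ κ) := by
        rw [← hsplit, e1 V hx hy, e1 P hz hw, ← hκ]
    _ ≤ G * (V ^ η * P ^ κ) := by
        exact mul_le_mul' le_rfl
          (mul_le_mul' (ENNReal.rpow_le_rpow_of_exponent_ge hV hη) le_rfl)

theorem pw_eq (m : ℕ) {κ : ℝ} (hκ : 0 ≤ κ) : pw m κ = ENNReal.ofReal (m : ℝ) ^ κ := by
  unfold Wex.pw
  rw [ENNReal.ofReal_rpow_of_nonneg (Nat.cast_nonneg _) hκ]

theorem eLp_le {f : ℝ × ℝ → ℂ} (h1 : ∀ x, ‖f x‖ ≤ 1) :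
    eLpNorm f 2 volume ≤ vs f ^ (1 / 2 : ℝ) := by
  rw [Wex.LEV_.eLp2]
  refine ENNReal.rpow_le_rpow ?_ (by norm_num)
  calc ∫⁻ y, ‖f y‖ₑ ^ 2 = ∫⁻ y in Function.support f, ‖f y‖ₑ ^ 2 := by
        refine (setLIntegral_eq_of_support_subset ?_).symm
        intro y hy
        simpa using hy
    _ ≤ ∫⁻ _ in Function.support f, 1 := by
        refine lintegral_mono fun y => ?_
        have h2 : ‖f y‖ₑ ≤ 1 := by
          rw [← ofReal_norm, ← ENNReal.ofReal_one]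
          exact ENNReal.ofReal_le_ofReal (h1 y)
        exact pow_le_one' h2 2
    _ = vs f := by
        rw [lintegral_one, Measure.restrict_apply_univ, vs]

end LED_

open LED_ in
/-- **LED** -/
theorem p_LED (hSPB : T_SPB) (hSPC : T_SPC) : T_LED := by
  rintro ρ s η μ t θ ⟨⟨hρ, hρ2, hs, hsρ, hη0, hη1, hη2⟩, hμ, hμ2, ht, htμ, hθ0, hθ1, hθ2⟩
  have hs0 : 0 < s := by linarith
  have ht0 : 0 < t := by linarith
  have hρs : 1 / ρ < 1 / s := one_div_lt_one_div_of_lt hs0 hsρ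
  have hρ3 : 1 / 2 < 1 / ρ := one_div_lt_one_div_of_lt (by linarith) hρ2
  have hρ4 : 1 / ρ < 2 / 3 := by
    rw [one_div_lt (by linarith) (by norm_num)]
    linarith
  have hμ3 : 3 / 4 < 1 / μ := by
    rw [lt_one_div (by norm_num) (by linarith)]
    linarith
  have hμ4 : 1 / μ < 1 := by
    rw [div_lt_one (by linarith)]
    exact hμ
  have e2ρ : 2 / ρ = 2 * (1 / ρ) := by ring
  have e2μ : 2 / μ = 2 * (1 / μ) := by ring
  rw [e2ρ] at hη2
  rw [e2μ] at hθ2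
  obtain ⟨l, e, hl0, hl1, he, hx, hk0, hk1, hη⟩ := pick (A := 1 / ρ) (B := 2 * (1 / ρ) - 1 / 2)
    (σ := 1 / s) (η := η) hρ3 (by linarith) (by linarith) hρs hη1 (by linarith)
  obtain ⟨l', e', hl0', hl1', he', hx', hk0', hk1', hθ⟩ := pick (A := 1 / μ - 1 / 4)
    (B := 2 * (1 / μ) - 1) (σ := 1 / t) (η := θ) (by linarith) (by linarith) (by linarith) htμ
    hθ1 (by linarith)
  obtain ⟨C₁, hC₁⟩ := hSPB ρ (1 / ρ - 1 / 2 + e) (1 / 2 - (2 * (1 / ρ) - 1 / 2 - 1 / ρ) - e)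
    μ (1 / μ - 1 / 4 - 1 / 2 + e') (1 / 2 - (2 * (1 / μ) - 1 - (1 / μ - 1 / 4)) - e')
    hρ hρ2 (by linarith) hx (by linarith) hμ hμ2 (by linarith) hx' (by linarith)
  obtain ⟨C₂, hC₂⟩ := hSPC ρ (2 * (1 / ρ) - 1 / 2 - 1 / 2 + e) μ
    (2 * (1 / μ) - 1 - 1 / 2 + e') hρ hρ2 (by rw [e2ρ]; linarith) hμ hμ2
    (by rw [e2μ]; linarith)
  set κ : ℝ := (1 - l) * (1 / ρ - 1 / 2 + e) + l * (2 * (1 / ρ) - 1 / 2 - 1 / 2 + e) with hκ
  set ν : ℝ := (1 - l') * (1 / μ - 1 / 4 - 1 / 2 + e') + l' * (2 * (1 / μ) - 1 - 1 / 2 + e')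
    with hν
  have hsκ : s * (κ + 1 / 2) < 1 := by
    have h2 : κ + 1 / 2 < 1 / s := by linarith
    calc s * (κ + 1 / 2) < s * (1 / s) := by gcongr
      _ = 1 := mul_one_div_cancel hs0.ne'
  have htν : t * (ν + 1 / 2) < 1 := by
    have h2 : ν + 1 / 2 < 1 / t := by linarith
    calc t * (ν + 1 / 2) < t * (1 / t) := by gcongr
      _ = 1 := mul_one_div_cancel ht0.ne'
  obtain ⟨C₃, hC₃⟩ := Wex.LEV_.assemble hs hk0 hsκ
  obtain ⟨C₄, hC₄⟩ := Wex.LEV_.assemble ht hk0' htν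
  refine ⟨(C₃ + C₄) * (C₁ + C₂), fun χ γ K S hχ hQ hm hi h2 h0 f hf hf1 => ⟨?_, fun g hg => ?_⟩⟩
  · have hV : vs f ≤ 1 := SPB_.vs_le_one hf
    have hF := eLp_le hf1
    have hn : n2 f < ∞ := by
      have h3 : eLpNorm f 2 volume ≤ 1 := hF.trans (ENNReal.rpow_le_one hV (by norm_num))
      rw [Wex.LEV_.eLp2] at h3
      by_contra h4
      have h5 : ∫⁻ y, ‖f y‖ₑ ^ 2 = ∞ := by
        rw [← n2]
        exact top_le_iff.1 (not_lt.1 h4)
      rw [h5, ENNReal.top_rpow_of_pos (by norm_num)] at h3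
      exact absurd h3 (by simp)
    refine (hC₃ χ γ K S (E f) (ENNReal.ofReal ρ) ((C₁ + C₂) * K * vs f ^ η) hχ hQ hm hi h2 h0
      (Pool.Agent.Restr.measurable_E hf.1) ?_ fun T δ hδm hδi hδ0 => ?_).trans ?_
    · exact ENNReal.one_le_ofReal.2 (by linarith)
    · have a1 := (hC₁ χ δ K T hχ hQ hδm hδi hδ0 f hf hf1).1
      have a2 := (hC₂ χ δ K T hχ hQ hδm hδi hδ0 f hf hn).1
      have b1 : eLpNorm (fun ξ => E f ξ * E (fun x => χ x * chk δ x) ξ)
          (ENNReal.ofReal ρ) volume ≤ ((C₁ + C₂) * K * eLpNorm δ 2 volume) *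
            (vs f ^ (1 / 2 - (2 * (1 / ρ) - 1 / 2 - 1 / ρ) - e) *
              ENNReal.ofReal (T.card : ℝ) ^ (1 / ρ - 1 / 2 + e)) := by
        refine a1.trans ?_
        rw [pw_eq _ (by linarith)]
        calc _ = (C₁ * K * eLpNorm δ 2 volume) *
            (vs f ^ (1 / 2 - (2 * (1 / ρ) - 1 / 2 - 1 / ρ) - e) *
              ENNReal.ofReal (T.card : ℝ) ^ (1 / ρ - 1 / 2 + e)) := by ring
          _ ≤ _ := by
              gcongr
              exact le_self_add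
      have b2 : eLpNorm (fun ξ => E f ξ * E (fun x => χ x * chk δ x) ξ)
          (ENNReal.ofReal ρ) volume ≤ ((C₁ + C₂) * K * eLpNorm δ 2 volume) *
            (vs f ^ (1 / 2 : ℝ) *
              ENNReal.ofReal (T.card : ℝ) ^ (2 * (1 / ρ) - 1 / 2 - 1 / 2 + e)) := by
        refine a2.trans ?_
        rw [pw_eq _ (by linarith)]
        calc _ = (C₂ * K * eLpNorm δ 2 volume) * (eLpNorm f 2 volume *
              ENNReal.ofReal (T.card : ℝ) ^ (2 * (1 / ρ) - 1 / 2 - 1 / 2 + e)) := by ring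
          _ ≤ _ := by
              gcongr
              exact le_add_self
      have b3 := geo hl0 hl1 hx (by norm_num) (by linarith) (by linarith) hV hη hκ b1 b2
      refine b3.trans (le_of_eq ?_)
      rw [pw_eq _ hk0.le]
      ring
    · calc (C₃ : ℝ≥0∞) * ((C₁ + C₂) * K * vs f ^ η) * amal s γ ≤
            (C₃ + C₄) * ((C₁ + C₂) * K * vs f ^ η) * amal s γ := by
            gcongr
            exact le_self_add
        _ = _ := by push_cast; ring
  · have hV : vs f ≤ 1 := SPB_.vs_le_one hf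
    have hF := eLp_le hf1
    have hn : n2 f < ∞ := by
      have h3 : eLpNorm f 2 volume ≤ 1 := hF.trans (ENNReal.rpow_le_one hV (by norm_num))
      rw [Wex.LEV_.eLp2] at h3
      by_contra h4
      have h5 : ∫⁻ y, ‖f y‖ₑ ^ 2 = ∞ := by
        rw [← n2]
        exact top_le_iff.1 (not_lt.1 h4)
      rw [h5, ENNReal.top_rpow_of_pos (by norm_num)] at h3
      exact absurd h3 (by simp)
    refine (hC₄ χ γ K S (fun ξ => E f ξ * E g ξ) (ENNReal.ofReal μ)
      ((C₁ + C₂) * K * vs f ^ θ * eLpNorm g 2 volume) hχ hQ hm hi h2 h0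
      ((Pool.Agent.Restr.measurable_E hf.1).mul (Pool.Agent.Restr.measurable_E hg.1)) ?_
      fun T δ hδm hδi hδ0 => ?_).trans ?_
    · exact ENNReal.one_le_ofReal.2 (by linarith)
    · have a1 := (hC₁ χ δ K T hχ hQ hδm hδi hδ0 f hf hf1).2 g hg
      have a2 := (hC₂ χ δ K T hχ hQ hδm hδi hδ0 f hf hn).2 g hg
      have b1 : eLpNorm (fun ξ => E f ξ * E g ξ * E (fun x => χ x * chk δ x) ξ)
          (ENNReal.ofReal μ) volume ≤
            ((C₁ + C₂) * K * eLpNorm δ 2 volume * eLpNorm g 2 volume) *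
            (vs f ^ (1 / 2 - (2 * (1 / μ) - 1 - (1 / μ - 1 / 4)) - e') *
              ENNReal.ofReal (T.card : ℝ) ^ (1 / μ - 1 / 4 - 1 / 2 + e')) := by
        refine a1.trans ?_
        rw [pw_eq _ (by linarith)]
        calc _ = (C₁ * K * eLpNorm δ 2 volume * eLpNorm g 2 volume) *
            (vs f ^ (1 / 2 - (2 * (1 / μ) - 1 - (1 / μ - 1 / 4)) - e') *
              ENNReal.ofReal (T.card : ℝ) ^ (1 / μ - 1 / 4 - 1 / 2 + e')) := by ring
          _ ≤ _ := by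
              gcongr
              exact le_self_add
      have b2 : eLpNorm (fun ξ => E f ξ * E g ξ * E (fun x => χ x * chk δ x) ξ)
          (ENNReal.ofReal μ) volume ≤
            ((C₁ + C₂) * K * eLpNorm δ 2 volume * eLpNorm g 2 volume) *
            (vs f ^ (1 / 2 : ℝ) *
              ENNReal.ofReal (T.card : ℝ) ^ (2 * (1 / μ) - 1 - 1 / 2 + e')) := by
        refine a2.trans ?_
        rw [pw_eq _ (by linarith)]
        calc _ = (C₂ * K * eLpNorm δ 2 volume * eLpNorm g 2 volume) * (eLpNorm f 2 volume *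
              ENNReal.ofReal (T.card : ℝ) ^ (2 * (1 / μ) - 1 - 1 / 2 + e')) := by ring
          _ ≤ _ := by
              gcongr
              exact le_add_self
      have b3 := geo hl0' hl1' hx' (by norm_num) (by linarith) (by linarith) hV hθ hν b1 b2
      refine b3.trans (le_of_eq ?_)
      rw [pw_eq _ hk0'.le]
      ring
    · calc (C₄ : ℝ≥0∞) * ((C₁ + C₂) * K * vs f ^ θ * eLpNorm g 2 volume) * amal t γ ≤
            (C₃ + C₄) * ((C₁ + C₂) * K * vs f ^ θ * eLpNorm g 2 volume) * amal t γ := by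
            gcongr
            exact le_add_self
        _ = _ := by push_cast; ring

end TSL
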