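import Pool.Agent.TSL.Targets

/-!
# MP_5ab805_an, time slices with the norm of Q1: the main term
-/

set_option autoImplicit false

namespace TSL

open MeasureTheory Set Filter
open scoped ENNReal NNReal Topology
open Pool.Agent.Restr (u E QQ)
open TriL (Sq n2)
open Wey (nq lam hat gup gdn blk Tk Sl Wi InD)
open Wex (Gs nu cf BB Ann Sep XX chk chp Par pw Cross sw del dm cell amal)

namespace MAI_

/-- summation over the fibres of `e` -/
theorem fiber (s : Finset ℤ) (e : ℤ → ℤ) (I : Finset ℤ) (hmem : ∀ n ∈ s, e n ∈ I) (c : ℤ → ℂ)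
    (p : ℤ → Prop) [DecidablePred p] :
    ∑ n ∈ s with p (e n), c n = ∑ k ∈ I with p k, ∑ n ∈ s with e n = k, c n := by
  classical
  rw [← Finset.sum_fiberwise_of_maps_to (s := s.filter fun n => p (e n))
    (t := I.filter fun k => p k) (g := e)]
  · refine Finset.sum_congr rfl fun k hk => ?_
    have hpk := (Finset.mem_filter.1 hk).2
    refine Finset.sum_congr ?_ fun _ _ => rfl
    ext n
    simp only [Finset.mem_filter]
    constructor
    · rintro ⟨⟨h1, _⟩, h3⟩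
      exact ⟨h1, h3⟩
    · rintro ⟨h1, h3⟩
      exact ⟨⟨h1, by rw [h3]; exact hpk⟩, h3⟩
  · intro n hn
    have h1 := Finset.mem_filter.1 hn
    exact Finset.mem_filter.2 ⟨hmem n h1.1, h1.2⟩

/-- the sum of the coefficients as a Fourier integral -/
theorem sum_cf (φ ψ : ℤ → ℝ) (s : Finset ℤ) (a : ℤ → ℂ) {F : ℝ × ℝ → ℂ}
    (hFi : Integrable F) (σ : ℝ × ℝ) :
    ∑ n ∈ s, cf φ ψ a F σ n = ∫ x : ℝ × ℝ, u (σ.1 * x.1 + σ.2 * x.2) *
      (F x * Gs φ ψ s a x) := by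
  have h1 : ∀ n : ℤ, cf φ ψ a F σ n = ∫ x : ℝ × ℝ,
      a n * (u ((σ.1 - φ n) * x.1 + (σ.2 - ψ n) * x.2) * F x) := by
    intro n
    unfold cf hat
    rw [integral_const_mul]
  simp only [h1]
  rw [← integral_finsetSum]
  · refine integral_congr_ae (Eventually.of_forall fun x => ?_)
    simp only
    unfold Gs
    rw [Finset.mul_sum, Finset.mul_sum]
    refine Finset.sum_congr rfl fun n _ => ?_
    have h2 : u ((σ.1 - φ n) * x.1 + (σ.2 - ψ n) * x.2) =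
        u (σ.1 * x.1 + σ.2 * x.2) * u (-(φ n * x.1 + ψ n * x.2)) := by
      rw [← Pool.Agent.Restr.u_add]
      congr 1
      ring
    rw [h2]
    ring
  · intro n _
    exact Wex.HAT_int hFi (a n) (by fun_prop)

/-- Plancherel for an arbitrary finite set -/
theorem planch (φ ψ : ℤ → ℝ) (s : Finset ℤ) (a : ℤ → ℂ) {F : ℝ × ℝ → ℂ} (hF : Measurable F)
    (hFi : Integrable F) :
    ∫⁻ σ : ℝ × ℝ, ‖∑ n ∈ s, cf φ ψ a F σ n‖ₑ ^ 2 ≤ ENNReal.ofReal (4 * Real.pi ^ 2) *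
      ∫⁻ x, ‖F x‖ₑ ^ 2 * ‖Gs φ ψ s a x‖ₑ ^ 2 := by
  have hm : Measurable fun x : ℝ × ℝ => F x * Gs φ ψ s a x := by
    refine hF.mul ?_
    unfold Gs
    refine Finset.measurable_fun_sum _ fun n _ => ?_
    exact measurable_const.mul (Pool.Agent.Restr.measurable_u.comp (by fun_prop))
  have hP := Pool.Agent.Restr.plancherel2 (μ := (volume : Measure (ℝ × ℝ))) (s := fun x => x)
    measurable_id (C := 1) (fun φ hφ => by rw [one_mul]) hm
  simp only [sum_cf φ ψ s a hFi]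
  refine hP.trans (le_of_eq ?_)
  rw [one_mul, ← ENNReal.ofReal_mul (by positivity)]
  congr 1
  · congr 1
    ring
  · refine lintegral_congr fun x => ?_
    rw [enorm_mul, mul_pow]

/-- bounded functions on the square are integrable -/
theorem sq_int {f : ℝ × ℝ → ℂ} (hf : Sq f) (h1 : ∀ x, ‖f x‖ ≤ 1) : Integrable f := by
  have hQ : MeasurableSet QQ := by
    unfold QQ
    exact measurableSet_Icc.prod measurableSet_Icc
  have hg : Integrable (QQ.indicator fun _ : ℝ × ℝ => (1 : ℝ)) := by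
    refine (integrable_indicator_iff hQ).2 ?_
    refine integrableOn_const ?_
    rw [Pool.Agent.Restr.vol_QQ]
    exact ENNReal.one_ne_top
  refine hg.mono' hf.1.aestronglyMeasurable (Eventually.of_forall fun x => ?_)
  by_cases hx : x ∈ QQ
  · rw [Set.indicator_of_mem hx]
    exact h1 x
  · rw [Set.indicator_of_notMem hx, hf.2 x hx, norm_zero]

/-- the square function of an arbitrary finite set of separated frequencies -/
theorem piece {C : ℝ≥0} (hC : ∀ (φ ψ : ℤ → ℝ) (s : Finset ℤ) (a : ℤ → ℂ), Sep φ ψ s →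
    ∫⁻ x in QQ, ‖Gs φ ψ s a x‖ₑ ^ 2 ≤ C * ∑ n ∈ s, ‖a n‖ₑ ^ 2)
    (φ ψ : ℤ → ℝ) (s : Finset ℤ) (a : ℤ → ℂ) (hs : Sep φ ψ s) {f : ℝ × ℝ → ℂ} (hf : Sq f)
    (h1 : ∀ x, ‖f x‖ ≤ 1) :
    ∫⁻ σ : ℝ × ℝ, ‖∑ n ∈ s, cf φ ψ a (gup f) σ n‖ₑ ^ 2 ≤
      ENNReal.ofReal (4 * Real.pi ^ 2 * Real.exp 1) * (C * ∑ n ∈ s, ‖a n‖ₑ ^ 2) := by
  have hQ : MeasurableSet QQ := by
    unfold QQ
    exact measurableSet_Icc.prod measurableSet_Icc
  refine (planch φ ψ s a (Wex.SLB_.gup_meas hf)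
    (Wex.SLB_.gup_int hf (sq_int hf h1))).trans ?_
  rw [ENNReal.ofReal_mul (p := 4 * Real.pi ^ 2) (by positivity), mul_assoc]
  refine mul_le_mul_right ?_ _
  refine le_trans ?_ (mul_le_mul_right (hC φ ψ s a hs) _)
  rw [← lintegral_const_mul' _ _ ENNReal.ofReal_ne_top, ← lintegral_indicator hQ]
  refine lintegral_mono fun x => ?_
  by_cases hx : x ∈ QQ
  · rw [Set.indicator_of_mem hx]
    refine mul_le_mul_left ((Wex.SLB_.gup_sq hf x).trans ?_) _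
    have h2 : ‖f x‖ₑ ^ 2 ≤ 1 := by
      have h3 : ‖f x‖ₑ ≤ 1 := by
        rw [← ofReal_norm, ← ENNReal.ofReal_one]
        exact ENNReal.ofReal_le_ofReal (h1 x)
      exact pow_le_one₀ bot_le h3
    calc ENNReal.ofReal (Real.exp 1) * ‖f x‖ₑ ^ 2 ≤ ENNReal.ofReal (Real.exp 1) * 1 :=
          mul_le_mul_right h2 _
      _ = ENNReal.ofReal (Real.exp 1) := mul_one _
  · rw [Set.indicator_of_notMem hx]
    unfold gup
    rw [hf.2 x hx]
    simp

end MAI_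

theorem p_MAI : T_MAI := by
  classical
  obtain ⟨C, hC⟩ := Wex.sqb
  refine ⟨(8 * (4 * Real.pi ^ 2 * Real.exp 1)).toNNReal * C, ?_⟩
  intro φ ψ s φ' ψ' e B m P hS hcl a f M T ℓ hf hf1 hT hM hℓ
  have hi : Integrable f := MAI_.sq_int hf hf1
  have hFm := Wex.SLB_.gup_meas hf
  set I : Finset ℤ := Finset.Ico 0 (B : ℤ) with hI
  -- measurability
  have hm : ∀ (i : ℕ) (j : ℤ), Measurable fun σ : ℝ × ℝ =>
      ‖∑ n ∈ s with e n / 2 ^ i = j, cf φ ψ a (gup f) σ n‖ₑ ^ 2 := by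
    intro i j
    refine Measurable.pow_const (Measurable.enorm ?_) _
    exact Finset.measurable_fun_sum _ fun n _ => Wex.SLB_.measurable_cf φ ψ a hFm n
  -- the inner integral
  have h1 : ∀ σ : ℝ × ℝ, ∫⁻ τ : ℝ, ‖∑ n ∈ s with (nu φ' ψ' σ (e n) ≤ M ∧
      τ - 8 * T < nu φ' ψ' σ (e n) ∧ nu φ' ψ' σ (e n) ≤ τ), cf φ ψ a (gup f) σ n‖ₑ ^ 2 ≤
      ENNReal.ofReal (8 * T * (m * (2 * ℓ + 2))) * ∑ i ∈ Finset.range (ℓ + 1), ∑' j : ℤ,
        ‖∑ n ∈ s with e n / 2 ^ i = j, cf φ ψ a (gup f) σ n‖ₑ ^ 2 := by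
    intro σ
    have h2 := Wex.p_DYA Wey.p_DEC m φ' ψ' 0 B hcl.sep hcl.ann
      (fun k => ∑ n ∈ s with e n = k, cf φ ψ a (gup f) σ n) σ M T ℓ hT hM hℓ
    have h3 : ∀ (i : ℕ) (j : ℤ), blk (Finset.Ico 0 (B : ℤ))
        (fun k => ∑ n ∈ s with e n = k, cf φ ψ a (gup f) σ n) i j =
        ∑ n ∈ s with e n / 2 ^ i = j, cf φ ψ a (gup f) σ n := by
      intro i j
      unfold blk
      exact (MAI_.fiber s e I hcl.mem _ (fun k => k / 2 ^ i = j)).symm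
    simp only [h3] at h2
    refine le_trans (le_of_eq ?_) h2
    refine lintegral_congr fun τ => ?_
    congr 2
    exact MAI_.fiber s e I hcl.mem _ (fun k => nu φ' ψ' σ k ≤ M ∧
      τ - 8 * T < nu φ' ψ' σ k ∧ nu φ' ψ' σ k ≤ τ)
  -- the square functions
  have h4 : ∀ i ∈ Finset.range (ℓ + 1), ∫⁻ σ : ℝ × ℝ, ∑' j : ℤ,
      ‖∑ n ∈ s with e n / 2 ^ i = j, cf φ ψ a (gup f) σ n‖ₑ ^ 2 ≤
      ENNReal.ofReal (4 * Real.pi ^ 2 * Real.exp 1) * (C * ∑ n ∈ s, ‖a n‖ₑ ^ 2) := by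
    intro i _
    rw [lintegral_tsum fun j => (hm i j).aemeasurable]
    calc ∑' j : ℤ, ∫⁻ σ : ℝ × ℝ, ‖∑ n ∈ s with e n / 2 ^ i = j, cf φ ψ a (gup f) σ n‖ₑ ^ 2
        ≤ ∑' j : ℤ, ENNReal.ofReal (4 * Real.pi ^ 2 * Real.exp 1) *
          (C * ∑ n ∈ s with e n / 2 ^ i = j, ‖a n‖ₑ ^ 2) := by
          refine ENNReal.tsum_le_tsum fun j => ?_
          refine MAI_.piece hC φ ψ _ a ?_ hf hf1
          intro n hn k hk hnk
          exact hS n (Finset.mem_filter.1 hn).1 k (Finset.mem_filter.1 hk).1 hnk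
      _ = ENNReal.ofReal (4 * Real.pi ^ 2 * Real.exp 1) * (C * ∑ n ∈ s, ‖a n‖ₑ ^ 2) := by
          rw [ENNReal.tsum_mul_left, ENNReal.tsum_mul_left]
          congr 2
          simp only [Finset.sum_filter]
          rw [Summable.tsum_finsetSum fun n _ => ENNReal.summable]
          refine Finset.sum_congr rfl fun n _ => ?_
          rw [tsum_eq_single (e n / 2 ^ i) fun j hj => if_neg fun h => hj h.symm]
          exact if_pos rfl
  calc ∫⁻ σ : ℝ × ℝ, ∫⁻ τ : ℝ, ‖∑ n ∈ s with (nu φ' ψ' σ (e n) ≤ M ∧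
      τ - 8 * T < nu φ' ψ' σ (e n) ∧ nu φ' ψ' σ (e n) ≤ τ), cf φ ψ a (gup f) σ n‖ₑ ^ 2
      ≤ ∫⁻ σ : ℝ × ℝ, ENNReal.ofReal (8 * T * (m * (2 * ℓ + 2))) *
        ∑ i ∈ Finset.range (ℓ + 1), ∑' j : ℤ,
        ‖∑ n ∈ s with e n / 2 ^ i = j, cf φ ψ a (gup f) σ n‖ₑ ^ 2 := lintegral_mono h1
    _ = ENNReal.ofReal (8 * T * (m * (2 * ℓ + 2))) * ∑ i ∈ Finset.range (ℓ + 1),
        ∫⁻ σ : ℝ × ℝ, ∑' j : ℤ,
        ‖∑ n ∈ s with e n / 2 ^ i = j, cf φ ψ a (gup f) σ n‖ₑ ^ 2 := by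
        rw [lintegral_const_mul' _ _ ENNReal.ofReal_ne_top,
          lintegral_finsetSum _ fun i _ => Measurable.tsum fun j => hm i j]
    _ ≤ ENNReal.ofReal (8 * T * (m * (2 * ℓ + 2))) * ∑ i ∈ Finset.range (ℓ + 1),
        (ENNReal.ofReal (4 * Real.pi ^ 2 * Real.exp 1) * (C * ∑ n ∈ s, ‖a n‖ₑ ^ 2)) :=
        mul_le_mul_right (Finset.sum_le_sum h4) _
    _ = ((8 * (4 * Real.pi ^ 2 * Real.exp 1)).toNNReal * C : ℝ≥0) * m *
        ENNReal.ofReal (T * ((2 * ℓ + 2) * (ℓ + 1))) * ∑ n ∈ s, ‖a n‖ₑ ^ 2 := by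
        rw [Finset.sum_const, Finset.card_range, nsmul_eq_mul,
          show (((ℓ + 1 : ℕ) : ℕ) : ℝ≥0∞) = ENNReal.ofReal (ℓ + 1) by
            rw [show ((ℓ : ℝ) + 1) = ((ℓ + 1 : ℕ) : ℝ) by push_cast; ring,
              ENNReal.ofReal_natCast]]
        have e1 : ENNReal.ofReal (8 * T * (m * (2 * ℓ + 2))) = 8 * ENNReal.ofReal T * m *
            ENNReal.ofReal (2 * ℓ + 2) := by
          rw [ENNReal.ofReal_mul (by positivity), ENNReal.ofReal_mul (by positivity),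
            ENNReal.ofReal_mul (by positivity), ENNReal.ofReal_natCast]
          simp only [ENNReal.ofReal_ofNat]
          ring
        have e2 : (((8 * (4 * Real.pi ^ 2 * Real.exp 1)).toNNReal * C : ℝ≥0) : ℝ≥0∞) =
            8 * ENNReal.ofReal (4 * Real.pi ^ 2 * Real.exp 1) * C := by
          rw [ENNReal.coe_mul]
          congr 1
          change ENNReal.ofReal (8 * (4 * Real.pi ^ 2 * Real.exp 1)) = _
          rw [ENNReal.ofReal_mul (by positivity)]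
          simp only [ENNReal.ofReal_ofNat]
        have e3 : ENNReal.ofReal (T * ((2 * ℓ + 2) * (ℓ + 1))) = ENNReal.ofReal T *
            (ENNReal.ofReal (2 * ℓ + 2) * ENNReal.ofReal (ℓ + 1)) := by
          rw [ENNReal.ofReal_mul hT.le, ENNReal.ofReal_mul (by positivity)]
        rw [e1, e2, e3]
        ring
  exact le_rfl

end TSL
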