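import Pool.Agent.TSL.Targets

set_option autoImplicit false

namespace TSL

open MeasureTheory Set Filter
open scoped ENNReal NNReal Topology
open Pool.Agent.Restr (u E QQ)
open TriL (Sq n2)
open Wey (nq lam hat gup gdn blk Tk Sl Wi InD)
open Wex (Gs nu cf BB Ann Sep XX chk chp Par pw Cross sw del dm cell amal)

namespace NRA_

open Classical in
/-- the window sum -/
noncomputable def ws (s : Finset ℤ) (w : ℤ → ℝ) (c : ℤ → ℂ) (M T τ : ℝ) : ℂ :=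
  ∑ n ∈ s with (w n ≤ M ∧ τ - 8 * T < w n ∧ w n ≤ τ), c n

lemma ws_meas (s : Finset ℤ) (φ ψ : ℤ → ℝ) (a : ℤ → ℂ) {F : ℝ × ℝ → ℂ} (hF : Measurable F)
    (w : ℝ × ℝ → ℤ → ℝ) (hw : ∀ n, Measurable fun σ => w σ n) (M T : ℝ) :
    Measurable fun p : (ℝ × ℝ) × ℝ => ‖ws s (w p.1) (cf φ ψ a F p.1) M T p.2‖ₑ ^ 2 := by
  classical
  refine Measurable.pow_const (Measurable.enorm ?_) _
  unfold ws
  simp only [Finset.sum_filter]
  refine Finset.measurable_fun_sum _ fun n _ => ?_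
  refine Measurable.ite ?_ ((Wex.SLB_.measurable_cf φ ψ a hF n).comp measurable_fst)
    measurable_const
  have h1 : Measurable fun p : (ℝ × ℝ) × ℝ => w p.1 n := (hw n).comp measurable_fst
  have h2 : Measurable fun p : (ℝ × ℝ) × ℝ => p.2 - 8 * T := measurable_snd.sub_const _
  exact (measurableSet_le h1 measurable_const).inter
    ((measurableSet_lt h2 h1).inter (measurableSet_le h1 measurable_snd))

lemma two_le (x y : ℝ × ℝ → ℝ → ℂ)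
    (hy : Measurable fun p : (ℝ × ℝ) × ℝ => ‖y p.1 p.2‖ₑ ^ 2) :
    ∫⁻ σ : ℝ × ℝ, ∫⁻ τ : ℝ, ‖x σ τ + y σ τ‖ₑ ^ 2 ≤
      2 * (∫⁻ σ : ℝ × ℝ, ∫⁻ τ : ℝ, ‖x σ τ‖ₑ ^ 2) +
      2 * ∫⁻ σ : ℝ × ℝ, ∫⁻ τ : ℝ, ‖y σ τ‖ₑ ^ 2 := by
  have h1 : ∀ σ, ∫⁻ τ : ℝ, ‖x σ τ + y σ τ‖ₑ ^ 2 ≤
      2 * (∫⁻ τ : ℝ, ‖x σ τ‖ₑ ^ 2) + 2 * ∫⁻ τ : ℝ, ‖y σ τ‖ₑ ^ 2 := by
    intro σ
    have hys : Measurable fun τ : ℝ => ‖y σ τ‖ₑ ^ 2 := hy.comp measurable_prodMk_left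
    rw [← lintegral_const_mul' _ _ (by simp), ← lintegral_const_mul' _ _ (by simp),
      ← lintegral_add_right _ (hys.const_mul _)]
    exact lintegral_mono fun τ => Wex.SLB_.sq_add_le _ _
  refine (lintegral_mono h1).trans ?_
  rw [lintegral_add_right _ (hy.lintegral_prod_right'.const_mul _),
    lintegral_const_mul' _ _ (by simp), lintegral_const_mul' _ _ (by simp)]

lemma vs_le {f : ℝ × ℝ → ℂ} (hf : Sq f) : vs f ≤ 1 := by
  unfold vs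
  rw [← Pool.Agent.Restr.vol_QQ]
  refine measure_mono fun x hx => ?_
  by_contra h
  exact hx (hf.2 x h)

lemma sq_le_vs {f : ℝ × ℝ → ℂ} (hf : Sq f) (h1 : ∀ x, ‖f x‖ ≤ 1) :
    ∫⁻ x, ‖f x‖ₑ ^ 2 ≤ vs f := by
  unfold vs
  rw [← lintegral_indicator_one (measurableSet_support hf.1)]
  refine lintegral_mono fun x => ?_
  by_cases hx : x ∈ Function.support f
  · rw [indicator_of_mem hx]
    have : ‖f x‖ₑ ≤ 1 := by
      rw [← ofReal_norm, ← ENNReal.ofReal_one]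
      exact ENNReal.ofReal_le_ofReal (h1 x)
    simpa using pow_le_pow_left' this 2
  · have : f x = 0 := by simpa using hx
    simp [this]

lemma int_of {f : ℝ × ℝ → ℂ} (hf : Sq f) (h1 : ∀ x, ‖f x‖ ≤ 1) : Integrable f := by
  have hQ : MeasurableSet QQ := measurableSet_Icc.prod measurableSet_Icc
  have h2 : IntegrableOn f QQ := by
    refine Measure.integrableOn_of_bounded (M := 1) ?_ hf.1.aestronglyMeasurable
      (Eventually.of_forall fun x => h1 x)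
    rw [Pool.Agent.Restr.vol_QQ]
    exact ENNReal.one_ne_top
  refine (integrableOn_iff_integrable_of_support_subset fun x hx => ?_).mp h2
  by_contra h
  exact hx (hf.2 x h)

/-- `N^(1/2+ε) v^(1/2)` -/
lemma w_eq {N v ε : ℝ} (hN : 0 < N) (hv : 0 ≤ v) :
    N ^ (1 / 2 + ε) * v ^ (1 / 2 : ℝ) = N ^ ε * √(N * v) := by
  rw [Real.sqrt_eq_rpow, Real.mul_rpow hN.le hv, Real.rpow_add hN]
  ring

/-- the numbers of the second case -/
lemma numbers {N L B : ℕ} {v ε C₁ : ℝ} (hε : 0 < ε) (hC : 0 < C₁) (hv0 : 0 < v)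
    (hNv : 1 < N * v) (hL1 : 1 ≤ L) (hLv : (L : ℝ) * v ≤ 1) (hLv2 : 1 ≤ 2 * v * L)
    (hN : 1 ≤ N) (hB1 : 1 ≤ B) (hB : B ≤ N / L + 1) :
    C₁ * (√(N * L) * (1 + Real.log N)) * v ≤
      C₁ * (1 + 1 / ε) * ((N : ℝ) ^ ε * √(N * v)) ∧
    C₁ * (√B * (1 + Real.log B)) ≤
      4 * C₁ * (1 + 1 / ε) * ((N : ℝ) ^ ε * √(N * v)) := by
  have hN' : (1 : ℝ) ≤ N := by exact_mod_cast hN
  have hN0 : (0 : ℝ) < N := by linarith
  have hL' : (1 : ℝ) ≤ L := by exact_mod_cast hL1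
  have hB' : (1 : ℝ) ≤ B := by exact_mod_cast hB1
  have hlogN : 0 ≤ Real.log N := Real.log_nonneg hN'
  have hlog : 1 + Real.log N ≤ (1 + 1 / ε) * (N : ℝ) ^ ε := by
    have h1 := Real.log_le_rpow_div hN0.le hε
    have h2 : 1 ≤ (N : ℝ) ^ ε := Real.one_le_rpow hN' hε.le
    calc 1 + Real.log N ≤ (N : ℝ) ^ ε + (N : ℝ) ^ ε / ε := by linarith
      _ = _ := by ring
  have hs : √(N * L) * v ≤ √(N * v) := by
    apply Real.le_sqrt_of_sq_le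
    rw [mul_pow, Real.sq_sqrt (by positivity)]
    calc (N : ℝ) * L * v ^ 2 = N * v * (L * v) := by ring
      _ ≤ N * v * 1 := by gcongr
      _ = _ := by ring
  constructor
  · calc C₁ * (√(N * L) * (1 + Real.log N)) * v
        = C₁ * ((√(N * L) * v) * (1 + Real.log N)) := by ring
      _ ≤ C₁ * (√(N * v) * ((1 + 1 / ε) * (N : ℝ) ^ ε)) := by gcongr
      _ = _ := by ring
  · have hdiv : ((N / L : ℕ) : ℝ) ≤ (N : ℝ) / L := Nat.cast_div_le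
    have hBr : (B : ℝ) ≤ (N : ℝ) / L + 1 := by
      have : (B : ℝ) ≤ ((N / L : ℕ) : ℝ) + 1 := by exact_mod_cast hB
      linarith
    have hB3 : (B : ℝ) ≤ 3 * (N * v) := by
      have h1 : (N : ℝ) / L ≤ 2 * (N * v) := by
        rw [div_le_iff₀ (by linarith)]
        calc (N : ℝ) = N * 1 := by ring
          _ ≤ N * (2 * v * L) := by gcongr
          _ = _ := by ring
      linarith
    have hB2 : (B : ℝ) ≤ 2 * N := by
      have h1 : (N : ℝ) / L ≤ N := div_le_self hN0.le hL'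
      linarith
    have h2 : √(B : ℝ) ≤ 2 * √(N * v) := by
      have : √(B : ℝ) ≤ √(2 ^ 2 * (N * v)) := by
        apply Real.sqrt_le_sqrt
        nlinarith
      rwa [Real.sqrt_mul (by positivity), Real.sqrt_sq (by norm_num)] at this
    have h3 : Real.log B ≤ 1 + Real.log N := by
      calc Real.log B ≤ Real.log (2 * N) := Real.log_le_log (by linarith) hB2
        _ = Real.log 2 + Real.log N := Real.log_mul (by norm_num) hN0.ne'
        _ ≤ 1 + Real.log N := by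
          have := Real.log_two_lt_d9
          linarith
    have hlogB : 0 ≤ Real.log B := Real.log_nonneg hB'
    have h4 : 1 + Real.log B ≤ 2 * ((1 + 1 / ε) * (N : ℝ) ^ ε) := by linarith
    calc C₁ * (√B * (1 + Real.log B))
        ≤ C₁ * ((2 * √(N * v)) * (2 * ((1 + 1 / ε) * (N : ℝ) ^ ε))) := by gcongr
      _ = _ := by ring

lemma goal_conv {K y S W : ℝ} {X A Z : ℝ≥0∞} (hK : 0 ≤ K) (hS : 0 ≤ S)
    (hZ : Z = ENNReal.ofReal W * A) (hX : X ≤ ENNReal.ofReal y * A) (hy : y ≤ K * S * W) :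
    X ≤ (Real.toNNReal K : ℝ≥0∞) * ENNReal.ofReal S * Z := by
  refine hX.trans ?_
  rw [hZ, ← mul_assoc, ← ENNReal.ofReal, ← ENNReal.ofReal_mul hK,
    ← ENNReal.ofReal_mul (mul_nonneg hK hS)]
  exact mul_le_mul_left (ENNReal.ofReal_le_ofReal hy) _

lemma mul_I {y z : ℝ} {A I : ℝ≥0∞} (hy : 0 ≤ y) (hI : I ≤ ENNReal.ofReal z) :
    ENNReal.ofReal y * (A * I) ≤ ENNReal.ofReal (y * z) * A := by
  rw [ENNReal.ofReal_mul hy, mul_assoc, mul_comm A]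
  gcongr

lemma two_ofReal {y : ℝ} {A X : ℝ≥0∞} (hX : X ≤ ENNReal.ofReal y * A) :
    2 * X ≤ ENNReal.ofReal (2 * y) * A := by
  rw [ENNReal.ofReal_mul (by norm_num : (0 : ℝ) ≤ 2), mul_assoc]
  have h2 : ENNReal.ofReal 2 = 2 := by norm_num
  rw [h2]
  gcongr

lemma main_conv (C₃ : ℝ≥0) (m : ℕ) (S : ℝ) :
    (C₃ : ℝ≥0∞) * m * ENNReal.ofReal S = ENNReal.ofReal (C₃ * m * S) := by
  rw [ENNReal.ofReal_mul (by positivity), ENNReal.ofReal_mul (by positivity),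
    ENNReal.ofReal_coe_nnreal, ENNReal.ofReal_natCast]

lemma numA {T N v Λ ε KB KC : ℝ} (hT : 0 < T) (hN : 1 ≤ N) (hv : 0 ≤ v) (hc : N * v ≤ 1)
    (hε : 0 < ε) (hΛ : 1 ≤ Λ) (hKB : 0 ≤ KB) (hKC : 0 ≤ KC) :
    8 * T * N * (4 * Real.pi ^ 2) * (Real.exp 1 * v) ≤
      (8 * (4 * Real.pi ^ 2) * Real.exp 1 + KB + KC) * (T * Λ) * (N ^ ε * √(N * v)) := by
  have hNv : 0 ≤ N * v := by positivity
  have h5 : N * v ≤ N ^ ε * √(N * v) := by
    have h6 : N * v ≤ √(N * v) := by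
      apply Real.le_sqrt_of_sq_le
      nlinarith
    have h7 : 1 ≤ N ^ ε := Real.one_le_rpow hN hε.le
    have h8 : 0 ≤ √(N * v) := Real.sqrt_nonneg _
    calc N * v ≤ 1 * √(N * v) := by linarith
      _ ≤ _ := by gcongr
  calc 8 * T * N * (4 * Real.pi ^ 2) * (Real.exp 1 * v)
      = (8 * (4 * Real.pi ^ 2) * Real.exp 1) * (T * 1) * (N * v) := by ring
    _ ≤ (8 * (4 * Real.pi ^ 2) * Real.exp 1 + KB + KC) * (T * Λ) *
        (N ^ ε * √(N * v)) := by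
      gcongr
      linarith

lemma numB {T P v Λ W KA c C₃ m : ℝ} (hT : 0 < T) (hΛ : 1 ≤ Λ) (hKA : 0 ≤ KA) (hW : 0 ≤ W)
    (hc : 0 ≤ c) (hC₃ : 0 ≤ C₃) (h1 : P * v ≤ c * W) (h2 : m ≤ 4 * c * W)
    :
    2 * (16 * T * P * (4 * Real.pi ^ 2) * (Real.exp 1 * v)) + 2 * (C₃ * m * (T * Λ)) ≤
      (KA + 2 * (16 * (4 * Real.pi ^ 2) * Real.exp 1) * c + 2 * C₃ * (4 * c)) * (T * Λ) * W := by
  have hcW : 0 ≤ c * W := by positivity
  have h3 : T * (P * v) ≤ (T * Λ) * (c * W) := by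
    calc T * (P * v) ≤ T * (c * W) := by gcongr
      _ = (T * 1) * (c * W) := by ring
      _ ≤ (T * Λ) * (c * W) := by gcongr
  calc 2 * (16 * T * P * (4 * Real.pi ^ 2) * (Real.exp 1 * v)) + 2 * (C₃ * m * (T * Λ))
      = 2 * (16 * (4 * Real.pi ^ 2) * Real.exp 1) * (T * (P * v)) +
        2 * C₃ * (T * Λ) * m := by ring
    _ ≤ 2 * (16 * (4 * Real.pi ^ 2) * Real.exp 1) * ((T * Λ) * (c * W)) +
        2 * C₃ * (T * Λ) * (4 * c * W) := by gcongr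
    _ = (0 + 2 * (16 * (4 * Real.pi ^ 2) * Real.exp 1) * c + 2 * C₃ * (4 * c)) *
        (T * Λ) * W := by ring
    _ ≤ _ := by gcongr

lemma floor_facts {N : ℕ} {v : ℝ} (hv0 : 0 < v) (hv1 : v ≤ 1) (hc : 1 < (N : ℝ) * v) :
    1 ≤ ⌊1 / v⌋₊ ∧ (⌊1 / v⌋₊ : ℝ) * v ≤ 1 ∧ 1 ≤ 2 * v * (⌊1 / v⌋₊ : ℝ) ∧ ⌊1 / v⌋₊ ≤ N := by
  have hLle : (⌊1 / v⌋₊ : ℝ) ≤ 1 / v := Nat.floor_le (by positivity)
  have hL1 : 1 ≤ ⌊1 / v⌋₊ := by
    apply Nat.le_floor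
    rw [Nat.cast_one, le_div_iff₀ hv0]
    linarith
  have hL1' : (1 : ℝ) ≤ (⌊1 / v⌋₊ : ℝ) := by exact_mod_cast hL1
  refine ⟨hL1, ?_, ?_, ?_⟩
  · rwa [le_div_iff₀ hv0] at hLle
  · have h2 : 1 / v < (⌊1 / v⌋₊ : ℝ) + 1 := Nat.lt_floor_add_one _
    rw [div_lt_iff₀ hv0] at h2
    nlinarith
  · have : (⌊1 / v⌋₊ : ℝ) < N := by
      refine lt_of_le_of_lt hLle ?_
      rw [div_lt_iff₀ hv0]
      exact hc
    exact_mod_cast this.le

end NRA_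

open NRA_ in
open Classical in
theorem p_NRA (hORD : T_ORD) (hERR : T_ERR) (hMAI : T_MAI) : T_NRA := by
  intro ε hε
  obtain ⟨C₁, hC₁, hORD⟩ := hORD
  obtain ⟨hE1, hE2⟩ := hERR
  obtain ⟨C₃, hMAI⟩ := hMAI
  have hc0 : 0 ≤ C₁ * (1 + 1 / ε) := by positivity
  have hKA0 : 0 ≤ 8 * (4 * Real.pi ^ 2) * Real.exp 1 := by positivity
  have hKB0 : 0 ≤ 2 * (16 * (4 * Real.pi ^ 2) * Real.exp 1) * (C₁ * (1 + 1 / ε)) := by
    positivity
  have hKC0 : 0 ≤ 2 * (C₃ : ℝ) * (4 * (C₁ * (1 + 1 / ε))) := by positivity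
  have hK0 := add_nonneg (add_nonneg hKA0 hKB0) hKC0
  refine ⟨Real.toNNReal (8 * (4 * Real.pi ^ 2) * Real.exp 1 +
    2 * (16 * (4 * Real.pi ^ 2) * Real.exp 1) * (C₁ * (1 + 1 / ε)) +
    2 * (C₃ : ℝ) * (4 * (C₁ * (1 + 1 / ε)))), ?_⟩
  intro φ ψ s a f M T ℓ hSep hne hf h1 hT hM hℓ
  have hFm := Wex.SLB_.gup_meas hf
  have hFi := Wex.SLB_.gup_int hf (int_of hf h1)
  have hNc : 1 ≤ s.card := Finset.card_pos.mpr hne
  have hN1 : (1 : ℝ) ≤ (s.card : ℝ) := by exact_mod_cast hNc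
  have hN0 : (0 : ℝ) < (s.card : ℝ) := lt_of_lt_of_le one_pos hN1
  have hlogN : 0 ≤ Real.log (s.card : ℝ) := Real.log_nonneg hN1
  obtain ⟨v, hv0, hv1, hvs⟩ : ∃ v : ℝ, 0 ≤ v ∧ v ≤ 1 ∧ vs f = ENNReal.ofReal v := by
    refine ⟨(vs f).toReal, ENNReal.toReal_nonneg, ?_,
      (ENNReal.ofReal_toReal (ne_top_of_le_ne_top ENNReal.one_ne_top (vs_le hf))).symm⟩
    rw [← ENNReal.toReal_one]
    exact ENNReal.toReal_mono ENNReal.one_ne_top (vs_le hf)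
  have hI : ∫⁻ x, ‖gup f x‖ₑ ^ 2 ≤ ENNReal.ofReal (Real.exp 1 * v) := by
    calc ∫⁻ x, ‖gup f x‖ₑ ^ 2 ≤ ∫⁻ x, ENNReal.ofReal (Real.exp 1) * ‖f x‖ₑ ^ 2 :=
          lintegral_mono fun x => Wex.SLB_.gup_sq hf x
      _ = ENNReal.ofReal (Real.exp 1) * ∫⁻ x, ‖f x‖ₑ ^ 2 :=
          lintegral_const_mul' _ _ ENNReal.ofReal_ne_top
      _ ≤ ENNReal.ofReal (Real.exp 1) * vs f := by
          gcongr
          exact sq_le_vs hf h1
      _ = _ := by rw [hvs, ← ENNReal.ofReal_mul (Real.exp_pos _).le]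
  have hNA : NA ε s a f =
      ENNReal.ofReal ((s.card : ℝ) ^ ε * √(s.card * v)) * ∑ n ∈ s, ‖a n‖ₑ ^ 2 := by
    unfold NA pw
    rw [hvs, ENNReal.ofReal_rpow_of_nonneg hv0 (by norm_num),
      ← ENNReal.ofReal_mul (Real.rpow_nonneg hN0.le _), w_eq hN0 hv0]
  have hΛ1 : 1 ≤ (2 * (ℓ : ℝ) + 2) * (ℓ + 1) := by
    have : (0 : ℝ) ≤ ℓ := Nat.cast_nonneg _
    nlinarith
  have hS0 : 0 ≤ T * ((2 * (ℓ : ℝ) + 2) * (ℓ + 1)) :=
    mul_nonneg hT.le (zero_le_one.trans hΛ1)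
  rcases le_or_gt ((s.card : ℝ) * v) 1 with hc | hc
  · -- few points or small support
    exact goal_conv hK0 hS0 hNA ((hE2 φ ψ s a (gup f) M T hFm hFi hT).trans
      (mul_I (by positivity) hI)) (numA hT hN1 hv0 hc hε hΛ1 hKB0 hKC0)
  · -- many points
    have hvpos : 0 < v := by
      rcases hv0.lt_or_eq with h | h
      · exact h
      · rw [← h] at hc
        norm_num at hc
    obtain ⟨hL1, hLv, hLv2, hLN⟩ := floor_facts hvpos hv1 hc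
    obtain ⟨φ', ψ', e, B, m, hm1, hB1, hBL, hmB, hCls⟩ := hORD φ ψ s _ hSep hL1 hLN
    obtain ⟨n1, n2'⟩ := numbers (ε := ε) (C₁ := C₁) hε hC₁ hvpos hc hL1 hLv hLv2 hNc hB1 hBL
    have e1 := hE1 φ ψ s φ' ψ' e B m _ hCls a (gup f) M T hFm hFi hT
    have e2 := hMAI φ ψ s φ' ψ' e B m _ hSep hCls a f M T ℓ hf h1 hT hM hℓ
    have hP0 : 0 ≤ C₁ * (√(s.card * (⌊1 / v⌋₊ : ℝ)) * (1 + Real.log s.card)) := by
      positivity
    generalize C₁ * (√(s.card * (⌊1 / v⌋₊ : ℝ)) * (1 + Real.log s.card)) = P at *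
    have hnum : ∀ n, Measurable fun σ : ℝ × ℝ => nu φ' ψ' σ (e n) := by
      intro n
      unfold nu
      fun_prop
    have hmeas := ws_meas s φ ψ a hFm (fun σ n => nu φ' ψ' σ (e n)) hnum M T
    have e3 := two_le
      (fun σ τ => ws s (nu φ ψ σ) (cf φ ψ a (gup f) σ) M T τ -
        ws s (fun n => nu φ' ψ' σ (e n)) (cf φ ψ a (gup f) σ) M T τ)
      (fun σ τ => ws s (fun n => nu φ' ψ' σ (e n)) (cf φ ψ a (gup f) σ) M T τ) hmeas
    simp only [sub_add_cancel] at e3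
    rw [main_conv] at e2
    have e4 := two_ofReal (e1.trans (mul_I (by positivity) hI))
    have e5 := two_ofReal e2
    refine goal_conv hK0 hS0 hNA (e3.trans ((add_le_add e4 e5).trans (le_of_eq ?_)))
      (numB (P := P) (v := v) (c := C₁ * (1 + 1 / ε)) (C₃ := C₃) (m := m) hT hΛ1 hKA0
        (by positivity) hc0 C₃.2 n1 (hmB.trans (n2'.trans (le_of_eq (by ring)))))
    rw [← add_mul, ← ENNReal.ofReal_add (by positivity) (by positivity)]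

end TSL
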