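import Pool.Agent.TSL.Targets

/-!
# TSL: classes for separated points
-/

set_option autoImplicit false

namespace TSL

open MeasureTheory Set Filter
open scoped ENNReal NNReal Topology
open Pool.Agent.Restr (u E QQ)
open TriL (Sq n2)
open Wey (nq lam hat gup gdn blk Tk Sl Wi InD)
open Wex (Gs nu cf BB Ann Sep XX chk chp Par pw Cross sw del dm cell amal)

namespace ORD_

open Classical in
theorem count {α : Type} (s : Finset ℤ) (z : ℤ → α) (hz : Set.InjOn z s) (P : α → Prop) :
    (s.filter (fun n => P (z n))).card = ((s.image z).filter P).card := by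
  rw [Finset.filter_image, Finset.card_image_of_injOn]
  intro x hx y hy hxy
  rw [Finset.mem_coe, Finset.mem_filter] at hx hy
  exact hz hx.1 hy.1 hxy

theorem inj (φ ψ : ℤ → ℝ) (s : Finset ℤ) (h : Sep φ ψ s) :
    Set.InjOn (fun n => (φ n, ψ n)) (s : Set ℤ) := by
  intro x hx y hy hxy
  by_contra hne
  have h1 := h x hx y hy hne
  have h2 : φ x = φ y := congrArg Prod.fst hxy
  have h3 : ψ x = ψ y := congrArg Prod.snd hxy
  rw [h2, h3] at h1
  norm_num at h1

theorem card_dec {α : Type} (s : Finset ℤ) (z : ℤ → α) (P : α → Prop) (d1 d2 : DecidablePred P)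
    (e1 e2 : DecidableEq α) : (@Finset.filter _ P d1 (@Finset.image _ _ e1 z s)).card =
      (@Finset.filter _ P d2 (@Finset.image _ _ e2 z s)).card := by
  rw [Subsingleton.elim d1 d2, Subsingleton.elim e1 e2]

end ORD_

open ORD_ in
open Classical in
theorem p_ORD (hSTA : T_STA) : T_ORD := by
  obtain ⟨C1, hC1, hS⟩ := hSTA
  obtain ⟨C2, hC2, hO⟩ := Wex.cro
  refine ⟨2 * C1 + C2, by positivity, ?_⟩
  intro φ ψ s L hsep hL1 hLs
  set z : ℤ → ℝ × ℝ := fun n => (φ n, ψ n) with hz
  have hzi : Set.InjOn z (s : Set ℤ) := inj φ ψ s hsep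
  set S : Finset (ℝ × ℝ) := s.image z with hSdef
  have hScard : S.card = s.card := Finset.card_image_of_injOn hzi
  obtain ⟨rep, hrep, hcard, hcross⟩ := hS S L hL1 (by rw [hScard]; exact hLs)
  have hSne : S.Nonempty := by
    rw [← Finset.card_pos, hScard]
    omega
  obtain ⟨φ', ψ', m, hm1, hm, hann, hinj, hmem⟩ := hO (S.image rep) (hSne.image rep)
  set B : ℕ := (S.image rep).card with hB
  have hBpos : 1 ≤ B := Finset.card_pos.mpr (hSne.image rep)
  have hex : ∀ n ∈ s, ∃ i ∈ Finset.Ico (0 : ℤ) (B : ℤ), rep (z n) = (φ' i, ψ' i) := by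
    intro n hn
    exact (hmem _).mp (Finset.mem_image_of_mem rep (Finset.mem_image_of_mem z hn))
  choose! e he1 he2 using hex
  have hlogB : 0 ≤ 1 + Real.log B := by
    have := Real.log_nonneg (show (1 : ℝ) ≤ B by exact_mod_cast hBpos)
    linarith
  have hs1 : 1 ≤ s.card := hL1.trans hLs
  have hlogs : 0 ≤ 1 + Real.log s.card := by
    have := Real.log_nonneg (show (1 : ℝ) ≤ s.card by exact_mod_cast hs1)
    linarith
  refine ⟨φ', ψ', e, B, m, hm1, hBpos, ?_, ?_, ?_⟩
  · rw [← hScard]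
    exact hcard
  · refine hm.trans ?_
    have h1 : 0 ≤ √(B : ℝ) * (1 + Real.log B) := by positivity
    nlinarith
  · refine ⟨he1, ?_, hann, ?_⟩
    · have hpt : ∀ i ∈ Finset.Ico (0 : ℤ) (B : ℤ), ∃ n ∈ s, (φ' i, ψ' i) = z n := by
        intro i hi
        have h1 : (φ' i, ψ' i) ∈ S.image rep := (hmem _).mpr ⟨i, hi, rfl⟩
        obtain ⟨x, hx, hxe⟩ := Finset.mem_image.mp h1
        have h2 : rep x ∈ S := hrep x hx
        obtain ⟨n, hn, hne⟩ := Finset.mem_image.mp h2
        exact ⟨n, hn, by rw [hne, hxe]⟩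
      intro i hi k hk hik
      obtain ⟨n, hn, hne⟩ := hpt i hi
      obtain ⟨n', hn', hne'⟩ := hpt k hk
      have h1 : φ' i = φ n := congrArg Prod.fst hne
      have h2 : ψ' i = ψ n := congrArg Prod.snd hne
      have h3 : φ' k = φ n' := congrArg Prod.fst hne'
      have h4 : ψ' k = ψ n' := congrArg Prod.snd hne'
      have hnn : n ≠ n' := by
        rintro rfl
        exact hik (hinj i hi k hk (h1.trans h3.symm) (h2.trans h4.symm))
      rw [h1, h2, h3, h4]
      exact hsep n hn n' hn' hnn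
    · intro c d a b
      have hcount : ∀ ρ : (ℝ × ℝ) × ℝ,
          ((s.filter (fun n => Cross dm ρ (z n) (rep (z n)))).card : ℝ) ≤
            C1 * (√(s.card * L) * (1 + Real.log s.card)) := by
        intro ρ
        have h1 := hcross ρ
        rw [hScard] at h1
        rw [count s z hzi (fun x => Cross dm ρ x (rep x))]
        refine le_trans (le_of_eq ?_) h1
        exact congrArg (Nat.cast : ℕ → ℝ) (card_dec s z _ _ _ _ _)
      have hsub : (s.filter fun n => ¬ (
          (a < (φ n - c) ^ 2 + (ψ n - d) ^ 2 ∧ (φ n - c) ^ 2 + (ψ n - d) ^ 2 ≤ b) ↔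
          (a < (φ' (e n) - c) ^ 2 + (ψ' (e n) - d) ^ 2 ∧
            (φ' (e n) - c) ^ 2 + (ψ' (e n) - d) ^ 2 ≤ b))) ⊆
          (s.filter (fun n => Cross dm ((c, d), a) (z n) (rep (z n)))) ∪
            (s.filter (fun n => Cross dm ((c, d), b) (z n) (rep (z n)))) := by
        intro n hn
        rw [Finset.mem_filter] at hn
        obtain ⟨hns, hne⟩ := hn
        rw [Finset.mem_union, Finset.mem_filter, Finset.mem_filter]
        by_contra hcon
        rw [not_or] at hcon
        obtain ⟨h1, h2⟩ := hcon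
        have h1' : ¬ Cross dm ((c, d), a) (z n) (rep (z n)) := fun h => h1 ⟨hns, h⟩
        have h2' : ¬ Cross dm ((c, d), b) (z n) (rep (z n)) := fun h => h2 ⟨hns, h⟩
        unfold Cross at h1' h2'
        rw [not_not, he2 n hns] at h1' h2'
        have h3 : ((φ n - c) ^ 2 + (ψ n - d) ^ 2 ≤ a ↔
            (φ' (e n) - c) ^ 2 + (ψ' (e n) - d) ^ 2 ≤ a) := h1'
        have h4 : ((φ n - c) ^ 2 + (ψ n - d) ^ 2 ≤ b ↔
            (φ' (e n) - c) ^ 2 + (ψ' (e n) - d) ^ 2 ≤ b) := h2'
        apply hne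
        rw [← not_le, ← not_le, h3, h4]
      have hc1 := hcount ((c, d), a)
      have hc2 := hcount ((c, d), b)
      have h5 : 0 ≤ √((s.card : ℝ) * L) * (1 + Real.log s.card) := by positivity
      calc ((s.filter fun n => ¬ (
          (a < (φ n - c) ^ 2 + (ψ n - d) ^ 2 ∧ (φ n - c) ^ 2 + (ψ n - d) ^ 2 ≤ b) ↔
          (a < (φ' (e n) - c) ^ 2 + (ψ' (e n) - d) ^ 2 ∧
            (φ' (e n) - c) ^ 2 + (ψ' (e n) - d) ^ 2 ≤ b))).card : ℝ)
          ≤ (((s.filter (fun n => Cross dm ((c, d), a) (z n) (rep (z n)))) ∪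
            (s.filter (fun n => Cross dm ((c, d), b) (z n) (rep (z n))))).card : ℝ) := by
            exact_mod_cast Finset.card_le_card hsub
        _ ≤ ((s.filter (fun n => Cross dm ((c, d), a) (z n) (rep (z n)))).card : ℝ) +
            ((s.filter (fun n => Cross dm ((c, d), b) (z n) (rep (z n)))).card : ℝ) := by
            exact_mod_cast Finset.card_union_le _ _
        _ ≤ 2 * C1 * (√((s.card : ℝ) * L) * (1 + Real.log s.card)) := by linarith
        _ ≤ (2 * C1 + C2) * (√((s.card : ℝ) * L) * (1 + Real.log s.card)) :=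
            mul_le_mul_of_nonneg_right (by linarith) h5

end TSL
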