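import Pool.Agent.TSL.Targets

/-!
# MP_5ab805_an, TSL: partition in stars by reweighting (helper99)
-/

set_option autoImplicit false

namespace TSL

open MeasureTheory Set Filter
open scoped ENNReal NNReal Topology
open Pool.Agent.Restr (u E QQ)
open TriL (Sq n2)
open Wey (nq lam hat gup gdn blk Tk Sl Wi InD)
open Wex (Gs nu cf BB Ann Sep XX chk chp Par pw Cross sw del dm cell amal)

namespace PAR_

lemma del_nonneg (n : ℕ) : 0 ≤ del n := by
  unfold del
  rcases Nat.eq_zero_or_pos n with h | h
  · subst h
    simp
  · have h1 : (1 : ℝ) ≤ n := by exact_mod_cast h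
    have h2 : 0 ≤ Real.log n := Real.log_nonneg h1
    positivity

lemma two_rpow_le {y : ℝ} (h0 : 0 ≤ y) (h1 : y ≤ 1) : (2 : ℝ) ^ y ≤ 1 + y := by
  have h := rpow_one_add_le_one_add_mul_self (s := 1) (by norm_num) h0 h1
  rwa [mul_one, one_add_one_eq_two] at h

lemma prod_pos (M L K : ℕ) :
    0 ≤ ∏ j ∈ Finset.range K, (1 + √(L : ℝ) * del (M - j * L)) :=
  Finset.prod_nonneg fun j _ => by
    have h1 := del_nonneg (M - j * L)
    positivity

open Classical in
lemma main {α ι : Type} (mem : ι → α → Prop) (X : Finset α) (R : Finset ι) (L : ℕ) (hL : 1 ≤ L)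
    (hyp : ∀ Y ⊆ X, ∀ w : ι → ℝ, (∀ r ∈ R, 0 ≤ w r) → L ≤ Y.card →
      ∃ D ⊆ Y, D.card = L ∧ ∃ z ∈ D, ∀ x ∈ D, sw mem R w x z ≤ √L * del Y.card * ∑ r ∈ R, w r)
    (n : ℕ) : ∀ Y ⊆ X, Y.card ≤ n → ∀ w : ι → ℝ, (∀ r ∈ R, 0 ≤ w r) →
      ∃ rep : α → α, (∀ x ∈ Y, rep x ∈ Y) ∧ (Y.image rep).card ≤ Y.card / L + 1 ∧
        ∑ r ∈ R, w r * (2 : ℝ) ^ (((Y.filter (fun x => Cross mem r x (rep x))).card : ℝ) / L) ≤
          2 * (∑ r ∈ R, w r) *
            ∏ j ∈ Finset.range (Y.card / L), (1 + √L * del (Y.card - j * L)) := by
  have hL0 : (0 : ℝ) < L := by exact_mod_cast hL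
  induction n with
  | zero =>
    intro Y _ hYc w hw
    have hY0 : Y = ∅ := Finset.card_eq_zero.mp (Nat.le_zero.mp hYc)
    subst hY0
    refine ⟨id, fun x hx => hx, by simp, ?_⟩
    simp only [Finset.filter_empty, Finset.card_empty, Nat.cast_zero, zero_div, Real.rpow_zero,
      mul_one, Nat.zero_div, Finset.range_zero, Finset.prod_empty]
    have := Finset.sum_nonneg hw
    linarith
  | succ n ih =>
    intro Y hY hYc w hw
    have hS := Finset.sum_nonneg hw
    by_cases hYL : Y.card < L
    · have hdiv : Y.card / L = 0 := Nat.div_eq_of_lt hYL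
      rcases Y.eq_empty_or_nonempty with hY0 | ⟨z, hz⟩
      · subst hY0
        refine ⟨id, fun x hx => hx, by simp, ?_⟩
        simp only [Finset.filter_empty, Finset.card_empty, Nat.cast_zero, zero_div,
          Real.rpow_zero, mul_one, Nat.zero_div, Finset.range_zero, Finset.prod_empty]
        linarith
      · refine ⟨fun _ => z, fun _ _ => hz, ?_, ?_⟩
        · rw [hdiv]
          have hsub : Y.image (fun _ => z) ⊆ {z} :=
            Finset.image_subset_iff.mpr fun x _ => Finset.mem_singleton_self z
          exact (Finset.card_le_card hsub).trans (by simp)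
        · rw [hdiv, Finset.range_zero, Finset.prod_empty, mul_one, Finset.mul_sum]
          refine Finset.sum_le_sum fun r hr => ?_
          rw [mul_comm 2 (w r)]
          refine mul_le_mul_of_nonneg_left ?_ (hw r hr)
          have h1 : ((Y.filter (fun x => Cross mem r x z)).card : ℝ) / L ≤ 1 := by
            rw [div_le_one hL0]
            exact_mod_cast (Finset.card_filter_le _ _).trans hYL.le
          calc (2 : ℝ) ^ (((Y.filter (fun x => Cross mem r x z)).card : ℝ) / L)
              ≤ (2 : ℝ) ^ (1 : ℝ) := Real.rpow_le_rpow_of_exponent_le (by norm_num) h1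
            _ = 2 := Real.rpow_one 2
    · have hLY : L ≤ Y.card := not_lt.mp hYL
      obtain ⟨D, hDY, hDc, z, hz, hsw⟩ := hyp Y hY w hw hLY
      set y : ι → ℝ := fun r => ((D.filter (fun x => Cross mem r x z)).card : ℝ) / L with hy
      have hy0 : ∀ r, 0 ≤ y r := fun r => by
        rw [hy]
        positivity
      have hy1 : ∀ r, y r ≤ 1 := fun r => by
        rw [hy]
        simp only
        rw [div_le_one hL0, ← hDc]
        exact_mod_cast Finset.card_filter_le _ _
      have hw' : ∀ r ∈ R, 0 ≤ w r * (1 + y r) := fun r hr =>
        mul_nonneg (hw r hr) (by linarith [hy0 r])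
      have hcard : (Y \ D).card = Y.card - L := by
        rw [Finset.card_sdiff_of_subset hDY, hDc]
      obtain ⟨rep', hr1, hr2, hr3⟩ := ih (Y \ D) (Finset.sdiff_subset.trans hY)
        (by rw [hcard]; omega) (fun r => w r * (1 + y r)) hw'
      have hdiv : Y.card / L = (Y \ D).card / L + 1 := by
        rw [hcard, Nat.div_eq_sub_div (by omega) hLY]
      refine ⟨fun x => if x ∈ D then z else rep' x, ?_, ?_, ?_⟩
      · intro x hx
        by_cases h : x ∈ D
        · simp only [h, if_true]
          exact hDY hz
        · simp only [h, if_false]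
          exact Finset.sdiff_subset (hr1 x (Finset.mem_sdiff.mpr ⟨hx, h⟩))
      · have hsub : Y.image (fun x => if x ∈ D then z else rep' x) ⊆
            insert z ((Y \ D).image rep') := by
          intro x hx
          obtain ⟨t, ht, rfl⟩ := Finset.mem_image.mp hx
          by_cases h : t ∈ D
          · simp only [h, if_true]
            exact Finset.mem_insert_self _ _
          · simp only [h, if_false]
            exact Finset.mem_insert_of_mem
              (Finset.mem_image_of_mem _ (Finset.mem_sdiff.mpr ⟨ht, h⟩))
        have h1 := Finset.card_le_card hsub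
        have h2 := Finset.card_insert_le z ((Y \ D).image rep')
        rw [hdiv]
        omega
      · -- the terms
        have hcnt : ∀ r, ((Y.filter (fun x => Cross mem r x
            (if x ∈ D then z else rep' x))).card : ℝ) / L =
            (((Y \ D).filter (fun x => Cross mem r x (rep' x))).card : ℝ) / L + y r := by
          intro r
          have e1 : Y.filter (fun x => Cross mem r x (if x ∈ D then z else rep' x)) =
              (Y \ D).filter (fun x => Cross mem r x (rep' x)) ∪
                D.filter (fun x => Cross mem r x z) := by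
            ext t
            simp only [Finset.mem_filter, Finset.mem_union, Finset.mem_sdiff]
            by_cases h : t ∈ D
            · simp only [h, if_true, not_true, and_false, false_and, false_or, true_and]
              exact ⟨fun h1 => h1.2, fun h1 => ⟨hDY h, h1⟩⟩
            · simp only [h, if_false, not_false_iff, and_true, false_and, or_false]
          have e2 : Disjoint ((Y \ D).filter (fun x => Cross mem r x (rep' x)))
              (D.filter (fun x => Cross mem r x z)) := by
            refine Finset.disjoint_left.mpr fun t h1 h2 => ?_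
            exact (Finset.mem_sdiff.mp (Finset.mem_filter.mp h1).1).2 (Finset.mem_filter.mp h2).1
          rw [e1, Finset.card_union_of_disjoint e2, Nat.cast_add, add_div]
        have hterm : ∀ r ∈ R, w r * (2 : ℝ) ^ (((Y.filter (fun x => Cross mem r x
            (if x ∈ D then z else rep' x))).card : ℝ) / L) ≤
            w r * (1 + y r) *
              (2 : ℝ) ^ ((((Y \ D).filter (fun x => Cross mem r x (rep' x))).card : ℝ) / L) := by
          intro r hr
          rw [hcnt r, Real.rpow_add (by norm_num), mul_assoc, mul_comm (1 + y r)]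
          refine mul_le_mul_of_nonneg_left ?_ (hw r hr)
          exact mul_le_mul_of_nonneg_left (two_rpow_le (hy0 r) (hy1 r))
            (Real.rpow_nonneg (by norm_num) _)
        have hsumy : ∑ r ∈ R, w r * y r = (∑ x ∈ D, sw mem R w x z) / L := by
          have e1 : ∀ r, w r * y r =
              (∑ x ∈ D, if Cross mem r x z then w r else 0) / L := by
            intro r
            rw [← Finset.sum_filter, Finset.sum_const, nsmul_eq_mul, hy]
            simp only
            ring
          rw [Finset.sum_congr rfl (fun r _ => e1 r), ← Finset.sum_div, Finset.sum_comm]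
          congr 1
          refine Finset.sum_congr rfl fun x _ => ?_
          unfold sw
          rw [Finset.sum_filter]
        have hsumw : ∑ r ∈ R, w r * (1 + y r) ≤
            (1 + √L * del Y.card) * ∑ r ∈ R, w r := by
          have e1 : ∑ r ∈ R, w r * (1 + y r) = ∑ r ∈ R, w r + ∑ r ∈ R, w r * y r := by
            rw [← Finset.sum_add_distrib]
            exact Finset.sum_congr rfl fun r _ => by ring
          have e2 : ∑ x ∈ D, sw mem R w x z ≤
              ∑ _x ∈ D, √L * del Y.card * ∑ r ∈ R, w r := Finset.sum_le_sum hsw
          rw [Finset.sum_const, nsmul_eq_mul, hDc] at e2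
          have e3 : (∑ x ∈ D, sw mem R w x z) / L ≤ √L * del Y.card * ∑ r ∈ R, w r := by
            rw [div_le_iff₀ hL0]
            linarith
          rw [e1, hsumy]
          linarith
        have hprod : ∏ j ∈ Finset.range (Y.card / L), (1 + √L * del (Y.card - j * L)) =
            (∏ j ∈ Finset.range ((Y \ D).card / L),
              (1 + √L * del ((Y \ D).card - j * L))) * (1 + √L * del Y.card) := by
          rw [hdiv, Finset.prod_range_succ', Nat.zero_mul, Nat.sub_zero]
          congr 1
          refine Finset.prod_congr rfl fun j _ => ?_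
          rw [hcard]
          congr 3
          rw [Nat.succ_mul]
          omega
        have hP := prod_pos (Y \ D).card L ((Y \ D).card / L)
        calc ∑ r ∈ R, w r * (2 : ℝ) ^ (((Y.filter (fun x => Cross mem r x
                (if x ∈ D then z else rep' x))).card : ℝ) / L)
            ≤ ∑ r ∈ R, w r * (1 + y r) * (2 : ℝ) ^
                ((((Y \ D).filter (fun x => Cross mem r x (rep' x))).card : ℝ) / L) :=
              Finset.sum_le_sum hterm
          _ ≤ 2 * (∑ r ∈ R, w r * (1 + y r)) *
                ∏ j ∈ Finset.range ((Y \ D).card / L),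
                  (1 + √L * del ((Y \ D).card - j * L)) := hr3
          _ ≤ 2 * ((1 + √L * del Y.card) * ∑ r ∈ R, w r) *
                ∏ j ∈ Finset.range ((Y \ D).card / L),
                  (1 + √L * del ((Y \ D).card - j * L)) :=
              mul_le_mul_of_nonneg_right (mul_le_mul_of_nonneg_left hsumw (by norm_num)) hP
          _ = 2 * (∑ r ∈ R, w r) *
                ∏ j ∈ Finset.range (Y.card / L), (1 + √L * del (Y.card - j * L)) := by
              rw [hprod]
              ring

end PAR_

open PAR_ in
theorem p_PAR : T_PAR := by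
  intro α ι mem X R L hL hyp
  obtain ⟨rep, h1, h2, h3⟩ := main mem X R L hL hyp X.card X (Finset.Subset.refl X) le_rfl
    (fun _ => 1) (fun _ _ => zero_le_one)
  refine ⟨rep, h1, h2, fun r hr => ?_⟩
  classical
  simp only [one_mul, Finset.sum_const, nsmul_eq_mul, mul_one] at h3
  refine le_trans ?_ h3
  exact Finset.single_le_sum (f := fun r => (2 : ℝ) ^
    (((X.filter (fun x => Cross mem r x (rep x))).card : ℝ) / L))
    (fun _ _ => Real.rpow_nonneg (by norm_num) _) hr

end TSL
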