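import Pool.Agent.TSL.Targets

/-!
# TSL: SHL, the short star lemma (abstract)
-/

set_option autoImplicit false

namespace TSL

open MeasureTheory Set Filter
open scoped ENNReal NNReal Topology
open Pool.Agent.Restr (u E QQ)
open TriL (Sq n2)
open Wey (nq lam hat gup gdn blk Tk Sl Wi InD)
open Wex (Gs nu cf BB Ann Sep XX chk chp Par pw Cross sw del dm cell amal)

namespace SHL_

open Classical in
theorem comp {α ι : Type} (mem : ι → α → Prop) (R : Finset ι) (w : ι → ℝ) (x y : α) :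
    ∑ r ∈ R with ¬ Cross mem r x y, w r = ∑ r ∈ R, w r - sw mem R w x y := by
  unfold sw
  rw [← Finset.sum_filter_add_sum_filter_not R (fun r => Cross mem r x y)]
  ring

open Classical in
/-- double counting: if no tuple separates all pairs of `P` then `P` has large total weight -/
theorem count {α ι : Type} (mem : ι → α → Prop) (P : Finset (α × α)) (R : Finset ι) (w : ι → ℝ)
    (hw : ∀ r ∈ R, 0 ≤ w r) (s : ℕ)
    (h : ∀ f ∈ Fintype.piFinset (fun _ : Fin s => R), ∃ p ∈ P,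
      f ∈ Fintype.piFinset (fun _ : Fin s => R.filter (fun r => ¬ Cross mem r p.1 p.2))) :
    (∑ r ∈ R, w r) ^ s ≤ ∑ p ∈ P, (∑ r ∈ R, w r - sw mem R w p.1 p.2) ^ s := by
  set F := Fintype.piFinset (fun _ : Fin s => R) with hF
  have hsub : ∀ p : α × α,
      Fintype.piFinset (fun _ : Fin s => R.filter (fun r => ¬ Cross mem r p.1 p.2)) ⊆ F := by
    intro p f hf
    rw [Fintype.mem_piFinset] at hf ⊢
    intro i
    exact (Finset.mem_filter.1 (hf i)).1
  have hg : ∀ f ∈ F, 0 ≤ ∏ i, w (f i) := by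
    intro f hf
    exact Finset.prod_nonneg (fun i _ => hw _ (Fintype.mem_piFinset.1 hf i))
  have e1 : (∑ r ∈ R, w r) ^ s = ∑ f ∈ F, ∏ i, w (f i) := by
    rw [hF, ← Finset.prod_univ_sum (fun _ : Fin s => R) (fun _ r => w r)]
    simp
  have e2 : ∀ p : α × α, (∑ r ∈ R, w r - sw mem R w p.1 p.2) ^ s =
      ∑ f ∈ F, if f ∈ Fintype.piFinset (fun _ : Fin s =>
        R.filter (fun r => ¬ Cross mem r p.1 p.2)) then ∏ i, w (f i) else 0 := by
    intro p
    rw [Finset.sum_ite_mem, Finset.inter_eq_right.2 (hsub p), ← comp,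
      ← Finset.prod_univ_sum (fun _ : Fin s => R.filter (fun r => ¬ Cross mem r p.1 p.2))
        (fun _ r => w r)]
    simp
  rw [e1, Finset.sum_congr rfl (fun p _ => e2 p), Finset.sum_comm]
  refine Finset.sum_le_sum (fun f hf => ?_)
  obtain ⟨p, hp, hfp⟩ := h f hf
  refine le_trans ?_ (Finset.single_le_sum (f := fun p : α × α =>
    if f ∈ Fintype.piFinset (fun _ : Fin s =>
        R.filter (fun r => ¬ Cross mem r p.1 p.2)) then ∏ i, w (f i) else 0) ?_ hp)
  · rw [if_pos hfp]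
  · intro q _
    split_ifs
    · exact hg f hf
    · exact le_rfl

/-- some tuple separates all the bad pairs -/
theorem exists_sep {α ι : Type} (mem : ι → α → Prop) (X : Finset α) (R : Finset ι) (w : ι → ℝ)
    (hw : ∀ r ∈ R, 0 ≤ w r) (hX : 1 ≤ X.card) (d : ℝ) (hd1 : d < 1)
    (hW : 0 < ∑ r ∈ R, w r) (s : ℕ) (hsd : 2 * Real.log X.card ≤ d * s) :
    ∃ f : Fin s → ι, ∀ x ∈ X, ∀ y ∈ X, x ≠ y → d * ∑ r ∈ R, w r < sw mem R w x y →
      ∃ i, Cross mem (f i) x y := by
  classical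
  by_contra hcon
  push Not at hcon
  set W := ∑ r ∈ R, w r with hWdef
  have hn : (1 : ℝ) ≤ X.card := by exact_mod_cast hX
  set P := X.offDiag.filter (fun p => d * W < sw mem R w p.1 p.2) with hP
  have h1 := count mem P R w hw s (by
    intro f hf
    obtain ⟨x, hx, y, hy, hxy, hbad, hno⟩ := hcon f
    refine ⟨(x, y), Finset.mem_filter.2 ⟨Finset.mem_offDiag.2 ⟨hx, hy, hxy⟩, hbad⟩, ?_⟩
    rw [Fintype.mem_piFinset] at hf ⊢
    intro i
    exact Finset.mem_filter.2 ⟨hf i, hno i⟩)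
  have h2 : ∑ p ∈ P, (W - sw mem R w p.1 p.2) ^ s ≤ ∑ _p ∈ P, ((1 - d) * W) ^ s := by
    refine Finset.sum_le_sum (fun p hp => ?_)
    have hbad := (Finset.mem_filter.1 hp).2
    refine pow_le_pow_left₀ ?_ ?_ s
    · rw [hWdef, ← comp]
      exact Finset.sum_nonneg (fun r hr => hw r (Finset.mem_filter.1 hr).1)
    · linarith
  rw [Finset.sum_const, nsmul_eq_mul, mul_pow] at h2
  have hWs : 0 < W ^ s := pow_pos hW s
  have hPc : ((P.card : ℕ) : ℝ) ≤ ((X.offDiag.card : ℕ) : ℝ) := by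
    exact_mod_cast Finset.card_filter_le _ _
  have h3 : (1 - d) ^ s ≤ Real.exp (-(d * s)) := by
    have : (1 - d) ^ s ≤ (Real.exp (-d)) ^ s := by
      refine pow_le_pow_left₀ (by linarith) ?_ s
      have := Real.add_one_le_exp (-d)
      linarith
    rw [← Real.exp_nat_mul] at this
    refine this.trans (le_of_eq ?_)
    congr 1
    ring
  have h4 : Real.exp (-(d * s)) ≤ ((X.card : ℝ) ^ 2)⁻¹ := by
    have h5 : Real.exp (-(d * s)) ≤ Real.exp (-(2 * Real.log X.card)) := by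
      apply Real.exp_le_exp.2
      linarith
    refine h5.trans (le_of_eq ?_)
    rw [Real.exp_neg, mul_comm, Real.exp_mul, Real.exp_log (by linarith)]
    norm_cast
  have h6 : ((X.offDiag.card : ℕ) : ℝ) = (X.card : ℝ) * X.card - X.card := by
    rw [Finset.offDiag_card, Nat.cast_sub (Nat.le_mul_self _)]
    push_cast
    ring
  have h7 : ((P.card : ℕ) : ℝ) * (1 - d) ^ s < 1 := by
    have hc : (0 : ℝ) < (X.card : ℝ) ^ 2 := by positivity
    calc ((P.card : ℕ) : ℝ) * (1 - d) ^ s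
        ≤ ((X.offDiag.card : ℕ) : ℝ) * ((X.card : ℝ) ^ 2)⁻¹ :=
          mul_le_mul hPc (h3.trans h4) (pow_nonneg (by linarith) _) (Nat.cast_nonneg _)
      _ < (X.card : ℝ) ^ 2 * ((X.card : ℝ) ^ 2)⁻¹ := by
          apply mul_lt_mul_of_pos_right _ (inv_pos.2 hc)
          rw [h6]
          nlinarith
      _ = 1 := mul_inv_cancel₀ hc.ne'
  have h8 : W ^ s < W ^ s := by
    calc W ^ s ≤ _ := h1
      _ ≤ _ := h2
      _ = (((P.card : ℕ) : ℝ) * (1 - d) ^ s) * W ^ s := by ring
      _ < 1 * W ^ s := mul_lt_mul_of_pos_right h7 hWs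
      _ = W ^ s := one_mul _
  exact lt_irrefl _ h8

/-- a large class -/
theorem exists_class {α ι : Type} (mem : ι → α → Prop) (X : Finset α)
    (hsep : ∀ Y ⊆ X, ∀ (s : ℕ) (ρ : Fin s → ι),
      (∀ x ∈ Y, ∀ y ∈ Y, x ≠ y → ∃ i, Cross mem (ρ i) x y) → (Y.card : ℝ) ≤ 16 * (s + 1) ^ 2)
    (L : ℕ) (hL : 1 ≤ L) (hLX : L ≤ X.card) (s : ℕ) (f : Fin s → ι)
    (hs : 16 * ((s : ℝ) + 1) ^ 2 * L ≤ X.card) :
    ∃ D ⊆ X, D.card = L ∧ ∀ x ∈ D, ∀ y ∈ D, ∀ i, ¬ Cross mem (f i) x y := by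
  classical
  set c : α → Finset (Fin s) := fun x => Finset.univ.filter (fun i => mem (f i) x) with hc
  have hcc : ∀ x y, c x = c y ↔ ∀ i, ¬ Cross mem (f i) x y := by
    intro x y
    constructor
    · intro h i hcr
      apply hcr
      have h1 : i ∈ c x ↔ i ∈ c y := by rw [h]
      simpa [hc] using h1
    · intro h
      ext i
      have h1 := h i
      unfold Cross at h1
      rw [not_not] at h1
      simpa [hc] using h1
  have hXne : X.Nonempty := Finset.card_pos.1 (by omega)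
  have : Nonempty α := ⟨hXne.choose⟩
  set I := X.image c with hI
  have hch : ∀ b ∈ I, ∃ x ∈ X, c x = b := by
    intro b hb
    exact Finset.mem_image.1 hb
  choose! g hgX hgc using hch
  have hinj : Set.InjOn g (I : Set (Finset (Fin s))) := by
    intro b hb b' hb' h
    rw [← hgc b hb, ← hgc b' hb', h]
  have hYc : (I.image g).card = I.card := Finset.card_image_of_injOn hinj
  have hYX : I.image g ⊆ X := by
    intro x hx
    obtain ⟨b, hb, rfl⟩ := Finset.mem_image.1 hx
    exact hgX b hb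
  have h1 := hsep (I.image g) hYX s f (by
    intro x hx y hy hxy
    obtain ⟨b, hb, rfl⟩ := Finset.mem_image.1 hx
    obtain ⟨b', hb', rfl⟩ := Finset.mem_image.1 hy
    by_contra hcon
    push Not at hcon
    have h2 := (hcc _ _).2 hcon
    rw [hgc b hb, hgc b' hb'] at h2
    exact hxy (by rw [h2]))
  rw [hYc] at h1
  have hL0 : (0 : ℝ) ≤ L := Nat.cast_nonneg _
  have h2 : (I.card : ℝ) * L ≤ X.card :=
    (mul_le_mul_of_nonneg_right h1 hL0).trans hs
  have h3 : I.card * L ≤ X.card := by exact_mod_cast h2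
  have hI1 : 1 ≤ I.card := Finset.card_pos.2 (hXne.image c)
  have h4 : I.card * (L - 1) < X.card := by
    obtain ⟨l, rfl⟩ : ∃ l, L = l + 1 := ⟨L - 1, by omega⟩
    rw [Nat.add_sub_cancel]
    rw [Nat.mul_add, Nat.mul_one] at h3
    omega
  obtain ⟨b, hb, h5⟩ := Finset.exists_lt_card_fiber_of_mul_lt_card_of_maps_to
    (fun x hx => Finset.mem_image_of_mem c hx) h4
  obtain ⟨D, hD, hDc⟩ := Finset.exists_subset_card_eq
    (show L ≤ (X.filter (fun x => c x = b)).card by omega)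
  refine ⟨D, hD.trans (Finset.filter_subset _ _), hDc, ?_⟩
  intro x hx y hy
  have h6 := (Finset.mem_filter.1 (hD hx)).2
  have h7 := (Finset.mem_filter.1 (hD hy)).2
  exact (hcc x y).1 (h6.trans h7.symm)

end SHL_

theorem p_SHL : T_SHL := by
  intro α ι mem X R hsep w L hw hL hLX
  classical
  have hn : (1 : ℝ) ≤ X.card := by exact_mod_cast hL.trans hLX
  have hL1 : (1 : ℝ) ≤ L := by exact_mod_cast hL
  have hlog : 0 ≤ Real.log X.card := Real.log_nonneg hn
  have hsqX : 0 < √(X.card : ℝ) := Real.sqrt_pos.2 (by linarith)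
  have hsqL : 0 < √(L : ℝ) := Real.sqrt_pos.2 (by linarith)
  have hW0 : 0 ≤ ∑ r ∈ R, w r := Finset.sum_nonneg hw
  have hswW : ∀ x y, sw mem R w x y ≤ ∑ r ∈ R, w r := by
    intro x y
    unfold sw
    exact Finset.sum_le_sum_of_subset_of_nonneg (Finset.filter_subset _ _)
      (fun r hr _ => hw r hr)
  set d : ℝ := √L * del X.card with hd
  have hd0 : 0 < d := by
    rw [hd]
    unfold del
    positivity
  obtain ⟨D0, hD0, hD0c⟩ := Finset.exists_subset_card_eq hLX
  obtain ⟨z0, hz0⟩ : D0.Nonempty := Finset.card_pos.1 (by omega)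
  by_cases hd1 : 1 ≤ d
  · exact ⟨D0, hD0, hD0c, z0, hz0, fun x _ => (hswW _ _).trans (by nlinarith)⟩
  rw [not_le] at hd1
  rcases hW0.eq_or_lt with hW | hW
  · exact ⟨D0, hD0, hD0c, z0, hz0, fun x _ => (hswW _ _).trans (by rw [← hW]; simp)⟩
  set s : ℕ := ⌈2 * Real.log X.card / d⌉₊ with hs
  have hs1 : 2 * Real.log X.card ≤ d * s := by
    have := Nat.le_ceil (2 * Real.log X.card / d)
    rw [div_le_iff₀ hd0] at this
    rw [mul_comm d]
    exact this
  obtain ⟨f, hf⟩ := SHL_.exists_sep mem X R w hw (hL.trans hLX) d hd1 hW s hs1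
  set v : ℝ := √(X.card : ℝ) / √(L : ℝ) with hv
  have hv0 : 0 < v := by positivity
  have hdv : d = 16 * (1 + Real.log X.card) / v := by
    rw [hd, hv]
    unfold del
    field_simp
  have hv16 : 16 * (1 + Real.log X.card) < v := by
    rw [hdv, div_lt_one hv0] at hd1
    exact hd1
  have h2 : (s : ℝ) < 2 * Real.log X.card / d + 1 := Nat.ceil_lt_add_one (by positivity)
  have h5 : 2 * Real.log X.card / d ≤ v / 8 := by
    rw [hdv]
    have h6 : 2 * Real.log X.card / (16 * (1 + Real.log X.card) / v) =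
        v * Real.log X.card / (8 * (1 + Real.log X.card)) := by
      have : (1 + Real.log X.card : ℝ) ≠ 0 := by positivity
      field_simp
      ring
    rw [h6, div_le_div_iff₀ (by positivity) (by norm_num)]
    nlinarith
  have h3 : 4 * ((s : ℝ) + 1) ≤ v := by linarith
  have hv2 : v ^ 2 * L = X.card := by
    rw [hv, div_pow, Real.sq_sqrt (by linarith), Real.sq_sqrt (by linarith)]
    field_simp
  have h4 : 16 * ((s : ℝ) + 1) ^ 2 * L ≤ X.card := by
    rw [← hv2]
    apply mul_le_mul_of_nonneg_right _ (by linarith)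
    have h7 : (0 : ℝ) ≤ 4 * ((s : ℝ) + 1) := by positivity
    have h8 := pow_le_pow_left₀ h7 h3 2
    linarith [show (4 * ((s : ℝ) + 1)) ^ 2 = 16 * ((s : ℝ) + 1) ^ 2 by ring]
  obtain ⟨D, hDX, hDc, hD⟩ := SHL_.exists_class mem X hsep L hL hLX s f h4
  obtain ⟨z, hz⟩ : D.Nonempty := Finset.card_pos.1 (by omega)
  refine ⟨D, hDX, hDc, z, hz, fun x hx => ?_⟩
  by_contra hcon
  rw [not_le] at hcon
  have hxz : x ≠ z := by
    rintro rfl
    have h9 : sw mem R w x x = 0 := by
      unfold sw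
      rw [Finset.filter_false_of_mem, Finset.sum_empty]
      intro r _ h
      exact h Iff.rfl
    rw [h9] at hcon
    have : 0 < d * ∑ r ∈ R, w r := mul_pos hd0 hW
    linarith
  obtain ⟨i, hi⟩ := hf x (hDX hx) z (hDX hz) hxz hcon
  exact hD x hx z hz i hi

end TSL
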