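import Pool.Agent.TSL.Targets

/-!
# MP_5ab805_an: the estimate on a slab, with the measure of the support of `f` (helper23)

Variant of `Pool/Agent/Wex/SLB.lean`.
-/

set_option autoImplicit false

namespace TSL

open MeasureTheory Set Filter
open scoped ENNReal NNReal Topology
open Pool.Agent.Restr (u E QQ)
open TriL (Sq n2)
open Wey (nq lam hat gup gdn blk Tk Sl Wi InD)
open Wex (Gs nu cf BB Ann Sep XX chk chp Par pw Cross sw del dm cell amal)

namespace SLA_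

open Wex.SLB_ (gup_sq gup_meas gup_int pr measurable_pr sq_add_le poly_le vol_Tk Tk_succ
  measurableSet_Tk BB_split BB_all rootM expo numbers)

/-- bounded functions on the square are integrable -/
theorem integrable {f : ℝ × ℝ → ℂ} (hf : Sq f) (hb : ∀ x, ‖f x‖ ≤ 1) : Integrable f := by
  have h : IntegrableOn f QQ := by
    refine Measure.integrableOn_of_bounded (M := 1) ?_ hf.1.aestronglyMeasurable
      (Eventually.of_forall hb)
    rw [Pool.Agent.Restr.vol_QQ]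
    exact ENNReal.one_ne_top
  rwa [integrableOn_iff_integrable_of_support_subset] at h
  intro x hx
  by_contra h0
  exact hx (hf.2 x h0)

theorem vs_le {f : ℝ × ℝ → ℂ} (hf : Sq f) : vs f ≤ 1 := by
  unfold vs
  refine (measure_mono ?_).trans Pool.Agent.Restr.vol_QQ.le
  intro x hx
  by_contra h0
  exact hx (hf.2 x h0)

theorem n2_le {f : ℝ × ℝ → ℂ} (hf : Sq f) (hb : ∀ x, ‖f x‖ ≤ 1) : n2 f ≤ vs f := by
  unfold n2 vs
  calc ∫⁻ x, ‖f x‖ₑ ^ 2 ≤ ∫⁻ x, (Function.support f).indicator (1 : ℝ × ℝ → ℝ≥0∞) x := by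
        refine lintegral_mono fun x => ?_
        by_cases hx : x ∈ Function.support f
        · rw [indicator_of_mem hx]
          have h1 : ‖f x‖ₑ ≤ 1 := by
            rw [← ofReal_norm, ← ENNReal.ofReal_one]
            exact ENNReal.ofReal_le_ofReal (hb x)
          exact pow_le_one₀ zero_le h1
        · rw [indicator_of_notMem hx]
          have h1 : f x = 0 := by simpa using hx
          simp [h1]
    _ = _ := lintegral_indicator_one (measurableSet_support hf.1)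

/-- the norm of the coefficients -/
theorem coef {ε : ℝ} (hε : 0 < ε) {s : Finset ℤ} (a : ℤ → ℂ) {f : ℝ × ℝ → ℂ}
    (hs : s.Nonempty) (hf : Sq f) (hb : ∀ x, ‖f x‖ ≤ 1) :
    ∃ A : ℝ≥0, (∀ n ∈ s, ‖a n‖ₑ ≤ A) ∧ (A : ℝ≥0∞) ^ 2 * n2 f ≤ NA ε s a f := by
  refine ⟨s.sup fun n => ‖a n‖₊, fun n hn => ?_, ?_⟩
  · rw [enorm_eq_nnnorm]
    exact_mod_cast Finset.le_sup (f := fun n => ‖a n‖₊) hn
  · obtain ⟨n, hn, e⟩ := Finset.exists_mem_eq_sup s hs fun n => ‖a n‖₊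
    rw [e]
    have h1 : ((‖a n‖₊ : ℝ≥0) : ℝ≥0∞) ^ 2 ≤ ∑ n ∈ s, ‖a n‖ₑ ^ 2 :=
      Finset.single_le_sum (f := fun n => ‖a n‖ₑ ^ 2) (fun _ _ => zero_le) hn
    have h2 : n2 f ≤ vs f ^ (1 / 2 : ℝ) := by
      refine (n2_le hf hb).trans ?_
      calc vs f = vs f ^ (1 : ℝ) := (ENNReal.rpow_one _).symm
        _ ≤ vs f ^ (1 / 2 : ℝ) :=
          ENNReal.rpow_le_rpow_of_exponent_ge (vs_le hf) (by norm_num)
    have h3 : 1 ≤ pw s.card (1 / 2 + ε) := by
      unfold pw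
      rw [ENNReal.one_le_ofReal]
      exact Real.one_le_rpow (by exact_mod_cast hs.card_pos) (by linarith)
    unfold NA
    calc ((‖a n‖₊ : ℝ≥0) : ℝ≥0∞) ^ 2 * n2 f ≤ (∑ n ∈ s, ‖a n‖ₑ ^ 2) * vs f ^ (1 / 2 : ℝ) :=
          mul_le_mul' h1 h2
      _ = 1 * vs f ^ (1 / 2 : ℝ) * ∑ n ∈ s, ‖a n‖ₑ ^ 2 := by ring
      _ ≤ _ := by gcongr

/-- the near part -/
theorem near (h2 : Wey.T_NEA) (h3 : T_NRA) {ε : ℝ} (hε : 0 < ε) : ∃ C : ℝ≥0, ∀
    (φ ψ : ℤ → ℝ) (s : Finset ℤ) (a : ℤ → ℂ) (f : ℝ × ℝ → ℂ) (M T : ℝ) (ℓ : ℕ),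
    Sep φ ψ s → s.Nonempty → Sq f → (∀ x, ‖f x‖ ≤ 1) → 2 ≤ T → 0 ≤ M →
    (2 * √M + 3) ^ 2 ≤ 2 ^ ℓ →
    ∫⁻ t in {t : ℝ | T ≤ |t| ∧ |t| ≤ 2 * T}, ENNReal.ofReal (Real.pi ^ 2 / (1 + t ^ 2)) *
      ∫⁻ σ, ‖pr φ ψ s a (gup f) (Iic M) t σ‖ₑ ^ 2 ≤
    C * ENNReal.ofReal ((1 + M / T ^ 2) / T * ((2 * ℓ + 2) * ((ℓ + 1) * (ℓ + 3) ^ 2))) *
      NA ε s a f := by
  obtain ⟨C, hC⟩ := h2
  obtain ⟨B, hB⟩ := h3 ε hε
  refine ⟨C * B * (Real.pi ^ 2).toNNReal, ?_⟩
  intro φ ψ s a f M T ℓ hh hs hf hb hT hM hℓ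
  have hFm := gup_meas hf
  have hT0 : 0 < T := by linarith
  have hmeas : Measurable fun z : ℝ × (ℝ × ℝ) =>
      ‖pr φ ψ s a (gup f) (Iic M) z.1 z.2‖ₑ ^ 2 * ENNReal.ofReal (1 / (1 + z.1 ^ 2)) := by
    refine ((measurable_pr φ ψ s a hFm measurableSet_Iic).enorm.pow_const 2).mul ?_
    exact ENNReal.measurable_ofReal.comp (by fun_prop)
  calc ∫⁻ t in {t : ℝ | T ≤ |t| ∧ |t| ≤ 2 * T}, ENNReal.ofReal (Real.pi ^ 2 / (1 + t ^ 2)) *
      ∫⁻ σ, ‖pr φ ψ s a (gup f) (Iic M) t σ‖ₑ ^ 2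
      = ENNReal.ofReal (Real.pi ^ 2) * ∫⁻ t in {t : ℝ | T ≤ |t| ∧ |t| ≤ 2 * T},
        ∫⁻ σ, ‖pr φ ψ s a (gup f) (Iic M) t σ‖ₑ ^ 2 * ENNReal.ofReal (1 / (1 + t ^ 2)) := by
        rw [← lintegral_const_mul' _ _ ENNReal.ofReal_ne_top]
        refine lintegral_congr fun t => ?_
        rw [lintegral_mul_const' _ _ ENNReal.ofReal_ne_top, ← mul_assoc,
          mul_comm (ENNReal.ofReal (Real.pi ^ 2)), mul_assoc, mul_comm (_ : ℝ≥0∞) (_ * _)]
        congr 1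
        rw [← ENNReal.ofReal_mul (by positivity)]
        congr 1
        ring
    _ = ENNReal.ofReal (Real.pi ^ 2) * ∫⁻ σ, ∫⁻ t in {t : ℝ | T ≤ |t| ∧ |t| ≤ 2 * T},
        ‖pr φ ψ s a (gup f) (Iic M) t σ‖ₑ ^ 2 * ENNReal.ofReal (1 / (1 + t ^ 2)) := by
        rw [lintegral_lintegral_swap hmeas.aemeasurable]
    _ ≤ ENNReal.ofReal (Real.pi ^ 2) * ∫⁻ σ, C * ENNReal.ofReal ((1 + M / T ^ 2) / T ^ 2) *
        ∫⁻ τ : ℝ, ‖∑ n ∈ s with (nu φ ψ σ n ≤ M ∧ τ - 8 * T < nu φ ψ σ n ∧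
          nu φ ψ σ n ≤ τ), cf φ ψ a (gup f) σ n‖ₑ ^ 2 := by
        refine mul_le_mul_right (lintegral_mono fun σ => ?_) _
        refine (hC (s.filter fun n => nu φ ψ σ n ≤ M) (cf φ ψ a (gup f) σ) (nu φ ψ σ) M T hT hM
          fun n hn => ⟨by unfold nu; positivity, (Finset.mem_filter.1 hn).2⟩).trans ?_
        refine mul_le_mul_right (le_of_eq ?_) _
        refine lintegral_congr fun τ => ?_
        rw [Finset.filter_filter]
    _ = ENNReal.ofReal (Real.pi ^ 2) * (C * ENNReal.ofReal ((1 + M / T ^ 2) / T ^ 2) *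
        ∫⁻ σ, ∫⁻ τ : ℝ, ‖∑ n ∈ s with (nu φ ψ σ n ≤ M ∧ τ - 8 * T < nu φ ψ σ n ∧
          nu φ ψ σ n ≤ τ), cf φ ψ a (gup f) σ n‖ₑ ^ 2) := by
        rw [lintegral_const_mul' _ _ (by finiteness)]
    _ ≤ ENNReal.ofReal (Real.pi ^ 2) * (C * ENNReal.ofReal ((1 + M / T ^ 2) / T ^ 2) *
        (B * ENNReal.ofReal (T * ((2 * ℓ + 2) * (ℓ + 1))) * NA ε s a f)) := by
        refine mul_le_mul_right (mul_le_mul_right ?_ _) _
        exact hB φ ψ s a f M T ℓ hh hs hf hb hT0 hM hℓ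
    _ = C * B * ENNReal.ofReal (Real.pi ^ 2) *
        (ENNReal.ofReal ((1 + M / T ^ 2) / T ^ 2) *
          ENNReal.ofReal (T * ((2 * ℓ + 2) * (ℓ + 1)))) * NA ε s a f := by ring
    _ ≤ C * B * ENNReal.ofReal (Real.pi ^ 2) *
        ENNReal.ofReal ((1 + M / T ^ 2) / T * ((2 * ℓ + 2) * ((ℓ + 1) * (ℓ + 3) ^ 2))) *
          NA ε s a f := by
        refine mul_le_mul_left (mul_le_mul_right ?_ _) _
        rw [← ENNReal.ofReal_mul (by positivity)]
        refine ENNReal.ofReal_le_ofReal ?_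
        have e : (1 + M / T ^ 2) / T ^ 2 * (T * ((2 * (ℓ : ℝ) + 2) * (ℓ + 1))) =
            (1 + M / T ^ 2) / T * ((2 * ℓ + 2) * ((ℓ + 1) * 1)) := by
          field_simp
        rw [e]
        have h9 : (1 : ℝ) ≤ (ℓ + 3) ^ 2 := by
          have : (0 : ℝ) ≤ ℓ := by positivity
          nlinarith
        gcongr
    _ = _ := by
        push_cast
        rfl

/-- the far part -/
theorem far (h5 : Wex.T_FAR) {ε : ℝ} (hε : 0 < ε) : ∃ C : ℝ≥0, ∀ (φ ψ : ℤ → ℝ)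
    (s : Finset ℤ) (a : ℤ → ℂ) (f : ℝ × ℝ → ℂ) (M t : ℝ), Sep φ ψ s → s.Nonempty →
    Sq f → (∀ x, ‖f x‖ ≤ 1) →
    ENNReal.ofReal (Real.pi ^ 2 / (1 + t ^ 2)) *
      ∫⁻ σ, ‖pr φ ψ s a (gup f) (Ioi M) t σ‖ₑ ^ 2 ≤
    C * ENNReal.ofReal ((1 + t ^ 2) * Real.exp (-M / (8 * (1 + t ^ 2)))) * NA ε s a f := by
  obtain ⟨C, hC⟩ := h5
  refine ⟨C * (Real.pi ^ 2 * Real.exp 1).toNNReal, ?_⟩
  intro φ ψ s a f M t hh hs hf hb
  obtain ⟨A, hA, hAN⟩ := coef hε a hs hf hb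
  have h1 := hC φ ψ s a (gup f) A M t hh (gup_meas hf) (gup_int hf (integrable hf hb)) hA
  have h2 : ∫⁻ x, ‖gup f x‖ₑ ^ 2 ≤ ENNReal.ofReal (Real.exp 1) * n2 f := by
    unfold n2
    rw [← lintegral_const_mul' _ _ ENNReal.ofReal_ne_top]
    exact lintegral_mono fun x => gup_sq hf x
  calc ENNReal.ofReal (Real.pi ^ 2 / (1 + t ^ 2)) *
      ∫⁻ σ, ‖pr φ ψ s a (gup f) (Ioi M) t σ‖ₑ ^ 2
      ≤ ENNReal.ofReal (Real.pi ^ 2 / (1 + t ^ 2)) *
        (C * ENNReal.ofReal ((1 + t ^ 2) ^ 2 * Real.exp (-M / (8 * (1 + t ^ 2)))) *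
        ((A : ℝ≥0∞) ^ 2 * (ENNReal.ofReal (Real.exp 1) * n2 f))) := by
        refine mul_le_mul_right (h1.trans ?_) _
        exact mul_le_mul_right (mul_le_mul_right h2 _) _
    _ = C * (ENNReal.ofReal (Real.pi ^ 2 / (1 + t ^ 2)) * ENNReal.ofReal (Real.exp 1) *
        ENNReal.ofReal ((1 + t ^ 2) ^ 2 * Real.exp (-M / (8 * (1 + t ^ 2))))) *
        ((A : ℝ≥0∞) ^ 2 * n2 f) := by ring
    _ ≤ C * (ENNReal.ofReal (Real.pi ^ 2 / (1 + t ^ 2)) * ENNReal.ofReal (Real.exp 1) *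
        ENNReal.ofReal ((1 + t ^ 2) ^ 2 * Real.exp (-M / (8 * (1 + t ^ 2))))) * NA ε s a f :=
        mul_le_mul_right hAN _
    _ = C * (ENNReal.ofReal (Real.pi ^ 2 * Real.exp 1) *
        ENNReal.ofReal ((1 + t ^ 2) * Real.exp (-M / (8 * (1 + t ^ 2))))) * NA ε s a f := by
        congr 2
        rw [← ENNReal.ofReal_mul (by positivity), ← ENNReal.ofReal_mul (by positivity),
          ← ENNReal.ofReal_mul (by positivity)]
        congr 1
        have : (1 + t ^ 2 : ℝ) ≠ 0 := by positivity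
        field_simp
    _ = _ := by
        rw [ENNReal.coe_mul]
        change _ = C * ENNReal.ofReal (Real.pi ^ 2 * Real.exp 1) * _ * _
        ring

end SLA_

open SLA_ in
open Wex.SLB_ (gup_sq gup_meas gup_int pr measurable_pr sq_add_le poly_le vol_Tk Tk_succ
  measurableSet_Tk BB_split BB_all rootM expo numbers) in
/-- the estimate on a slab -/
theorem p_SLA (hNRA : T_NRA) : T_SLA := by
  intro ε hε
  obtain ⟨D, hD⟩ := poly_le hε
  obtain ⟨C₁, hC₁⟩ := near Wey.p_NEA hNRA hε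
  obtain ⟨C₂, hC₂⟩ := far (Wex.p_FAR Wex.p_GAU) hε
  refine ⟨51840 * C₁ * D + 60 * C₂, ?_⟩
  intro φ ψ s a f k hh hs hf hb
  have hFm := gup_meas hf
  have hi := integrable hf hb
  have hsli : ∫⁻ t in Tk k, ∫⁻ p : ℝ × ℝ, (‖E f (p.1, p.2, t)‖ₑ *
      ‖E (gdn (Gs φ ψ s a)) (p.1, p.2, t)‖ₑ) ^ 2 ≤
      ∫⁻ t in Tk k, ENNReal.ofReal (Real.pi ^ 2 / (1 + t ^ 2)) *
        ∫⁻ σ, ‖BB φ ψ s a (gup f) t σ‖ₑ ^ 2 :=
    lintegral_mono fun t => Wex.p_SLI Wey.p_REP Wey.p_CNV φ ψ s a f t hf hi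
  refine hsli.trans ?_
  set N : ℝ≥0∞ := NA ε s a f with hN
  rcases k with _ | k
  · have hT : volume (Tk 0) ≤ 4 := by
      have : Tk 0 = Icc (-2) 2 := by
        unfold Tk
        ext t
        simp [abs_le]
      rw [this, Real.volume_Icc]
      norm_num
    calc _ ≤ ∫⁻ t in Tk 0, C₂ * ENNReal.ofReal 15 * N := by
          refine setLIntegral_mono' (measurableSet_Tk 0) fun t ht => ?_
          simp only [BB_all]
          refine (hC₂ φ ψ s a f (-1) t hh hs hf hb).trans ?_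
          refine mul_le_mul_left (mul_le_mul_right (ENNReal.ofReal_le_ofReal ?_) _) _
          have ht2 : |t| ≤ 2 := by
            unfold Tk at ht
            simpa using ht
          have h3 : t ^ 2 ≤ 4 := by
            have := sq_le_sq' (by linarith [abs_nonneg t] : -2 ≤ |t|) ht2
            rw [sq_abs] at this
            linarith
          have h4 : Real.exp (- -1 / (8 * (1 + t ^ 2))) ≤ 3 := by
            refine (Real.exp_le_exp.2 (?_ : _ ≤ (1 : ℝ))).trans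
              (by linarith [Real.exp_one_lt_d9])
            rw [neg_neg, div_le_one (by positivity)]
            nlinarith [sq_nonneg t]
          calc (1 + t ^ 2) * Real.exp (- -1 / (8 * (1 + t ^ 2))) ≤ 5 * 3 := by
                gcongr
                linarith
            _ = 15 := by norm_num
      _ = C₂ * ENNReal.ofReal 15 * N * volume (Tk 0) := by
          rw [lintegral_const, Measure.restrict_apply_univ]
      _ ≤ C₂ * 15 * N * 4 := by
          refine mul_le_mul' (mul_le_mul_left (mul_le_mul_right ?_ _) _) hT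
          rw [show (15 : ℝ≥0∞) = ENNReal.ofReal 15 by simp]
      _ = 60 * C₂ * N := by ring
      _ ≤ _ := by
          push_cast
          simp only [mul_zero, Real.rpow_zero, ENNReal.ofReal_one, mul_one]
          gcongr
          exact le_add_self
  · rw [Tk_succ]
    set T : ℝ := 2 ^ (k + 1) with hT
    have hT2 : 2 ≤ T := by
      rw [hT, pow_succ]
      have : (1 : ℝ) ≤ 2 ^ k := one_le_pow₀ (by norm_num)
      linarith
    have hT0 : 0 < T := by linarith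
    set M : ℝ := 160 * T ^ 2 * Real.log T with hM
    have hM0 : 0 ≤ M := by
      have := Real.log_nonneg (by linarith : 1 ≤ T)
      positivity
    set S : Set ℝ := {t : ℝ | T ≤ |t| ∧ |t| ≤ 2 * T} with hSS
    have hSm : MeasurableSet S := by
      have := measurableSet_Tk (k + 1)
      rwa [Tk_succ] at this
    have hnear := hC₁ φ ψ s a f M T (3 * (k + 1) + 10) hh hs hf hb hT2 hM0 rootM
    have hfar : ∫⁻ t in S, ENNReal.ofReal (Real.pi ^ 2 / (1 + t ^ 2)) *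
        ∫⁻ σ, ‖pr φ ψ s a (gup f) (Ioi M) t σ‖ₑ ^ 2 ≤ 10 * C₂ * ENNReal.ofReal T⁻¹ * N := by
      calc _ ≤ ∫⁻ t in S, C₂ * ENNReal.ofReal (5 * (T ^ 2)⁻¹) * N := by
            refine setLIntegral_mono' hSm fun t ht => ?_
            refine (hC₂ φ ψ s a f M t hh hs hf hb).trans ?_
            refine mul_le_mul_left (mul_le_mul_right (ENNReal.ofReal_le_ofReal ?_) _) _
            exact expo hT2 ht.2
        _ = C₂ * ENNReal.ofReal (5 * (T ^ 2)⁻¹) * N * volume S := by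
            rw [lintegral_const, Measure.restrict_apply_univ]
        _ ≤ C₂ * ENNReal.ofReal (5 * (T ^ 2)⁻¹) * N * ENNReal.ofReal (2 * T) :=
            mul_le_mul_right (vol_Tk hT0) _
        _ = C₂ * (ENNReal.ofReal (5 * (T ^ 2)⁻¹) * ENNReal.ofReal (2 * T)) * N := by ring
        _ = C₂ * (10 * ENNReal.ofReal T⁻¹) * N := by
            rw [← ENNReal.ofReal_mul (by positivity),
              show (10 : ℝ≥0∞) = ENNReal.ofReal 10 by simp, ← ENNReal.ofReal_mul (by norm_num)]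
            congr 3
            field_simp
            norm_num
        _ = _ := by ring
    have hmn : Measurable fun t => ENNReal.ofReal (Real.pi ^ 2 / (1 + t ^ 2)) *
        ∫⁻ σ, ‖pr φ ψ s a (gup f) (Iic M) t σ‖ₑ ^ 2 := by
      refine (ENNReal.measurable_ofReal.comp (by fun_prop)).mul ?_
      exact ((measurable_pr φ ψ s a hFm measurableSet_Iic).enorm.pow_const 2).lintegral_prod_right'
    have hT1 : T⁻¹ ≤ (2 : ℝ) ^ ((-1 + ε) * ((k + 1 : ℕ) : ℝ)) := by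
      have h3 : T⁻¹ * (2 : ℝ) ^ (ε * ((k + 1 : ℕ) : ℝ)) =
          (2 : ℝ) ^ ((-1 + ε) * ((k + 1 : ℕ) : ℝ)) := by
        rw [add_mul, neg_one_mul, Real.rpow_add (by norm_num), Real.rpow_neg (by norm_num),
          Real.rpow_natCast, hT]
      rw [← h3]
      have h4 : (1 : ℝ) ≤ (2 : ℝ) ^ (ε * ((k + 1 : ℕ) : ℝ)) :=
        Real.one_le_rpow (by norm_num) (by positivity)
      have h5 : 0 < T⁻¹ := by positivity
      nlinarith
    calc ∫⁻ t in S, ENNReal.ofReal (Real.pi ^ 2 / (1 + t ^ 2)) *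
        ∫⁻ σ, ‖BB φ ψ s a (gup f) t σ‖ₑ ^ 2
        ≤ ∫⁻ t in S, (2 * (ENNReal.ofReal (Real.pi ^ 2 / (1 + t ^ 2)) *
          ∫⁻ σ, ‖pr φ ψ s a (gup f) (Iic M) t σ‖ₑ ^ 2) +
          2 * (ENNReal.ofReal (Real.pi ^ 2 / (1 + t ^ 2)) *
          ∫⁻ σ, ‖pr φ ψ s a (gup f) (Ioi M) t σ‖ₑ ^ 2)) := by
          refine lintegral_mono fun t => ?_
          have hmt : Measurable fun σ => ‖pr φ ψ s a (gup f) (Iic M) t σ‖ₑ ^ 2 :=
            ((measurable_pr φ ψ s a hFm measurableSet_Iic).comp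
              (measurable_const.prodMk measurable_id)).enorm.pow_const 2
          have h6 : ∫⁻ σ, ‖BB φ ψ s a (gup f) t σ‖ₑ ^ 2 ≤
              2 * (∫⁻ σ, ‖pr φ ψ s a (gup f) (Iic M) t σ‖ₑ ^ 2) +
              2 * ∫⁻ σ, ‖pr φ ψ s a (gup f) (Ioi M) t σ‖ₑ ^ 2 := by
            rw [← lintegral_const_mul' _ _ (by norm_num), ← lintegral_const_mul' _ _ (by norm_num),
              ← lintegral_add_left (hmt.const_mul 2)]
            refine lintegral_mono fun σ => ?_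
            rw [BB_split φ ψ s a (gup f) M t σ]
            exact sq_add_le _ _
          refine (mul_le_mul_right h6 _).trans (le_of_eq ?_)
          ring
      _ = 2 * (∫⁻ t in S, ENNReal.ofReal (Real.pi ^ 2 / (1 + t ^ 2)) *
          ∫⁻ σ, ‖pr φ ψ s a (gup f) (Iic M) t σ‖ₑ ^ 2) +
          2 * ∫⁻ t in S, ENNReal.ofReal (Real.pi ^ 2 / (1 + t ^ 2)) *
          ∫⁻ σ, ‖pr φ ψ s a (gup f) (Ioi M) t σ‖ₑ ^ 2 := by
          rw [lintegral_add_left (hmn.const_mul 2), lintegral_const_mul' _ _ (by norm_num),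
            lintegral_const_mul' _ _ (by norm_num)]
      _ ≤ 2 * (C₁ * ENNReal.ofReal (25920 * D *
          (2 : ℝ) ^ ((-1 + ε) * ((k + 1 : ℕ) : ℝ))) * N) +
          2 * (10 * C₂ * ENNReal.ofReal ((2 : ℝ) ^ ((-1 + ε) * ((k + 1 : ℕ) : ℝ))) * N) := by
          refine add_le_add (mul_le_mul_right (hnear.trans ?_) _)
            (mul_le_mul_right (hfar.trans ?_) _)
          · refine mul_le_mul_left (mul_le_mul_right (ENNReal.ofReal_le_ofReal ?_) _) _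
            exact numbers hT (hD (k + 1))
          · exact mul_le_mul_left (mul_le_mul_right (ENNReal.ofReal_le_ofReal hT1) _) _
      _ = (51840 * C₁ * D + 20 * C₂) *
          ENNReal.ofReal ((2 : ℝ) ^ ((-1 + ε) * ((k + 1 : ℕ) : ℝ))) * N := by
          rw [ENNReal.ofReal_mul (by positivity), ENNReal.ofReal_mul (by norm_num)]
          rw [show ENNReal.ofReal (D : ℝ) = D by simp, show ENNReal.ofReal 25920 = 25920 by simp]
          ring
      _ ≤ (51840 * C₁ * D + 60 * C₂) *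
          ENNReal.ofReal ((2 : ℝ) ^ ((-1 + ε) * ((k + 1 : ℕ) : ℝ))) * N := by
          gcongr
          norm_num
      _ = _ := by
          push_cast
          ring

end TSL
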