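import Pool.Agent.TSL.Targets2

/-!
# MP_5ab805_an, TSL: SPC (helper67)

Functions with spectrum in the union of finitely many unit cells, `f` in `L²`.
-/

set_option autoImplicit false

namespace TSL

open MeasureTheory Set Filter
open scoped ENNReal NNReal Topology
open Pool.Agent.Restr (u E QQ)
open TriL (Sq n2)
open Wey (nq lam hat gup gdn blk Tk Sl Wi InD)
open Wex (Gs nu cf BB Ann Sep XX chk chp Par pw Cross sw del dm cell amal)

namespace SPC_

open Pool.Agent.Restr (norm_u enorm_u)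

theorem pw_mono {m : ℕ} (hm : 1 ≤ m) {a b : ℝ} (h : a ≤ b) : pw m a ≤ pw m b := by
  unfold Wex.pw
  refine ENNReal.ofReal_le_ofReal (Real.rpow_le_rpow_of_exponent_le ?_ h)
  exact_mod_cast hm

theorem norm_shift (f : ℝ × ℝ → ℂ) (w : ℝ × ℝ) :
    eLpNorm (fun x : ℝ × ℝ => u (w.1 * x.1 + w.2 * x.2) * f x) 2 volume =
      eLpNorm f 2 volume := by
  refine eLpNorm_congr_norm_ae (Eventually.of_forall fun x => ?_)
  rw [norm_mul, norm_u, one_mul]

theorem n2_shift (f : ℝ × ℝ → ℂ) (w : ℝ × ℝ) :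
    n2 (fun x : ℝ × ℝ => u (w.1 * x.1 + w.2 * x.2) * f x) = n2 f := by
  unfold TriL.n2
  refine lintegral_congr fun x => ?_
  rw [enorm_mul, enorm_u, one_mul]

/-- the choice of the exponents -/
theorem expo (ρ κ μ ν : ℝ) (h1 : 3 / 2 < ρ) (h2 : ρ < 2) (h3 : 2 / ρ - 1 < κ)
    (h6 : 1 < μ) (h7 : μ < 4 / 3) (h8 : 2 / μ - 3 / 2 < ν) :
    ∃ κ₀ ν₀ : ℝ, Par ρ κ₀ μ ν₀ ∧ κ₀ / ρ ≤ κ ∧ ν₀ / μ ≤ ν := by
  have hρ0 : 0 < ρ := by linarith
  have hμ0 : 0 < μ := by linarith
  have hκ2 : 2 - ρ < κ * ρ := by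
    have h := mul_lt_mul_of_pos_left h3 hρ0
    have e : ρ * (2 / ρ - 1) = 2 - ρ := by field_simp
    linarith
  have hν2 : 2 - 3 * μ / 2 < ν * μ := by
    have h := mul_lt_mul_of_pos_left h8 hμ0
    have e : μ * (2 / μ - 3 / 2) = 2 - 3 * μ / 2 := by field_simp
    linarith
  obtain ⟨kp, hk1, hk2⟩ := exists_between
    (lt_min (show 2 - ρ < ρ - 1 by linarith) hκ2)
  obtain ⟨np, hn1, hn2⟩ := exists_between
    (lt_min (show 2 - 3 * μ / 2 < μ / 2 by linarith) hν2)
  rw [lt_min_iff] at hk2 hn2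
  refine ⟨kp, np, ⟨⟨h1, h2, hk1, hk2.1.le⟩, h6, h7, hn1, hn2.1.le⟩, ?_, ?_⟩
  · rw [div_le_iff₀ hρ0]
    exact hk2.2.le
  · rw [div_le_iff₀ hμ0]
    exact hn2.2.le

end SPC_

open SPC_ Pool.Agent.Restr in
theorem p_SPC (hASB : T_ASB) : T_SPC := by
  intro ρ κ μ ν h1 h2 h3 h6 h7 h8
  obtain ⟨κ₀, ν₀, hpar, hk, hn⟩ := expo ρ κ μ ν h1 h2 h3 h6 h7 h8
  obtain ⟨C1, hC1⟩ := hASB ρ κ₀ μ ν₀ hpar
  refine ⟨C1 * NNReal.sqrt (16 * 1), ?_⟩
  intro χ γ K S hW h0 hγm hγ hγS f hf hf2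
  rcases S.eq_empty_or_nonempty with hS | hS
  · subst hS
    have hγ0 : γ = 0 := by
      funext y
      exact hγS y (by simp)
    have hE : (fun x : ℝ × ℝ => χ x * chk γ x) = fun _ => 0 := by
      funext x
      simp [hγ0, Wex.chk]
    have hE0 : ∀ ξ, E (fun x : ℝ × ℝ => χ x * chk γ x) ξ = 0 := by
      intro ξ
      rw [hE]
      simp [E]
    refine ⟨?_, ?_⟩
    · simp [hE0]
    · intro g _
      simp [hE0]
  · obtain ⟨ι⟩ : Nonempty (ℤ × ℤ ≃ ℤ) := ⟨Denumerable.equiv₂ (ℤ × ℤ) ℤ⟩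
    set s : Finset ℤ := S.map ι.toEmbedding with hs
    set φ : ℤ → ℝ := fun n => ((ι.symm n).1 : ℝ) with hφ
    set ψ : ℤ → ℝ := fun n => ((ι.symm n).2 : ℝ) with hψ
    have hcard : s.card = S.card := Finset.card_map _
    have hSep : Sep φ ψ s := by
      intro n _ k _ hnk
      have hne : Wex.SPA_.zp (ι.symm n) ≠ Wex.SPA_.zp (ι.symm k) := fun h =>
        hnk (ι.symm.injective (Wex.SPA_.zp_inj h))
      exact Wex.SPA_.zp_sep hne
    have hsn : s.Nonempty := by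
      rw [hs, Finset.map_nonempty]
      exact hS
    have hs1 : 1 ≤ s.card := hsn.card_pos
    have hnear : ∀ y : ℝ × ℝ, (∀ n ∈ s, 4 < (y.1 - φ n) ^ 2 + (y.2 - ψ n) ^ 2) → γ y = 0 := by
      intro y hy
      refine hγS y fun k hk hyk => ?_
      have h := hy (ι k) (by
        rw [hs, Finset.mem_map]
        exact ⟨k, hk, rfl⟩)
      have h' := Wex.SPA_.cell_near hyk
      simp only [hφ, hψ, Equiv.symm_apply_apply] at h
      simp only [Wex.SPA_.zp] at h'
      exact absurd h (not_lt.2 h')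
    have hfw2 : ∀ w : ℝ × ℝ, n2 (fun x => u (w.1 * x.1 + w.2 * x.2) * f x) < ∞ := by
      intro w
      rw [n2_shift]
      exact hf2
    have key := fun w : ℝ × ℝ => hC1 φ ψ s (Wex.THK_.aw φ ψ s γ w) χ
      (fun x => u (w.1 * x.1 + w.2 * x.2) * f x) K hSep hsn hW h0
      (Wex.THK_.sq_shift hf w) (hfw2 w)
    simp only [norm_shift] at key
    obtain ⟨Bf, hBf, hBf'⟩ := Wex.THK_.E_bdd f
    have hρ1 : 1 < ρ := by linarith
    constructor
    · have hmain := Wex.THK_.main (r := ρ) hρ1 hW h0 hγm hγ hnear 1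
        (C1 * K * (pw s.card (κ₀ / ρ) * eLpNorm f 2 volume))
        (measurable_E hf.1) hBf hBf' (fun w => by
          simp only [Wex.THK_.shift, ENNReal.coe_one, one_mul]
          exact (key w).1)
      refine hmain.trans ?_
      calc (C1 : ℝ≥0∞) * K * (pw s.card (κ₀ / ρ) * eLpNorm f 2 volume) *
            ((NNReal.sqrt (16 * 1) : ℝ≥0∞) * eLpNorm γ 2 volume)
          ≤ (C1 : ℝ≥0∞) * K * (pw s.card κ * eLpNorm f 2 volume) *
            ((NNReal.sqrt (16 * 1) : ℝ≥0∞) * eLpNorm γ 2 volume) := by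
            have e1 := pw_mono hs1 hk
            exact mul_le_mul' (mul_le_mul' le_rfl (mul_le_mul' e1 le_rfl)) le_rfl
        _ = _ := by
            rw [hcard]
            push_cast
            ring
    · intro g hg
      obtain ⟨Bg, hBg, hBg'⟩ := Wex.THK_.E_bdd g
      have hmain := Wex.THK_.main (r := μ) h6 hW h0 hγm hγ hnear 1
        (C1 * K * (pw s.card (ν₀ / μ) * eLpNorm f 2 volume) *
          eLpNorm g 2 volume) (A := fun ξ => E f ξ * E g ξ)
        ((measurable_E hf.1).mul (measurable_E hg.1)) (ENNReal.mul_ne_top hBf hBg)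
        (fun ξ => by
          rw [enorm_mul]
          exact mul_le_mul' (hBf' ξ) (hBg' ξ)) (fun w => by
          simp only [Wex.THK_.shift, ENNReal.coe_one, one_mul]
          have h3 := (key w).2 (fun x => u (w.1 * x.1 + w.2 * x.2) * g x)
            (Wex.THK_.sq_shift hg w)
          rw [norm_shift g w] at h3
          refine h3.trans (le_of_eq ?_)
          ring)
      refine hmain.trans ?_
      calc (C1 : ℝ≥0∞) * K * (pw s.card (ν₀ / μ) * eLpNorm f 2 volume) * eLpNorm g 2 volume *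
            ((NNReal.sqrt (16 * 1) : ℝ≥0∞) * eLpNorm γ 2 volume)
          ≤ (C1 : ℝ≥0∞) * K * (pw s.card ν * eLpNorm f 2 volume) * eLpNorm g 2 volume *
            ((NNReal.sqrt (16 * 1) : ℝ≥0∞) * eLpNorm γ 2 volume) := by
            have e1 := pw_mono hs1 hn
            exact mul_le_mul' (mul_le_mul' (mul_le_mul' le_rfl (mul_le_mul' e1 le_rfl))
              le_rfl) le_rfl
        _ = _ := by
            rw [hcard]
            push_cast
            ring

end TSL
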