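import Pool.Agent.TSL.Targets

/-!
# TSL: star partitions of points in the plane with respect to discs (target STA)
-/

set_option autoImplicit false

namespace TSL

open MeasureTheory Set Filter
open scoped ENNReal NNReal Topology
open Pool.Agent.Restr (u E QQ)
open TriL (Sq n2)
open Wey (nq lam hat gup gdn blk Tk Sl Wi InD)
open Wex (Gs nu cf BB Ann Sep XX chk chp Par pw Cross sw del dm cell amal)

namespace STA_

lemma sum_inv_sqrt (K : ℕ) : ∑ k ∈ Finset.range K, 1 / √((k : ℝ) + 1) ≤ 2 * √(K : ℝ) := by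
  induction K with
  | zero => simp
  | succ K ih =>
    rw [Finset.sum_range_succ]
    have h0 : (0 : ℝ) ≤ K := Nat.cast_nonneg K
    have h1 : 0 < √((K : ℝ) + 1) := Real.sqrt_pos.mpr (by linarith)
    have h2 : √((K : ℝ) + 1) ^ 2 = K + 1 := Real.sq_sqrt (by linarith)
    have h3 : √(K : ℝ) ^ 2 = K := Real.sq_sqrt h0
    have h4 : 1 / √((K : ℝ) + 1) ≤ 2 * √((K : ℝ) + 1) - 2 * √(K : ℝ) := by
      rw [div_le_iff₀ h1]
      nlinarith [sq_nonneg (√((K : ℝ) + 1) - √(K : ℝ))]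
    push_cast
    linarith

lemma sum_refl (K : ℕ) : ∑ j ∈ Finset.range K, 1 / √(((K - j : ℕ) : ℝ)) ≤ 2 * √(K : ℝ) := by
  refine le_trans (le_of_eq ?_) (sum_inv_sqrt K)
  rw [← Finset.sum_range_reflect]
  refine Finset.sum_congr rfl (fun j hj => ?_)
  have hj' := Finset.mem_range.mp hj
  have h1 : K - (K - 1 - j) = j + 1 := by omega
  rw [h1]
  push_cast
  rfl

/-- The bound for one factor of the product. -/
lemma term {M L j : ℕ} (hL : 1 ≤ L) (hj : j < M / L) :
    √(L : ℝ) * del (M - j * L) ≤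
      16 * (1 + Real.log M) * (1 / √(((M / L - j : ℕ) : ℝ))) := by
  have h1 : (M / L - j) * L ≤ M - j * L := by
    have h2 : M / L * L ≤ M := Nat.div_mul_le_self M L
    rw [Nat.sub_mul]
    omega
  have hk : 1 ≤ M / L - j := by omega
  have hn : 1 ≤ M - j * L := le_trans (Nat.mul_le_mul hk hL) h1
  set n := M - j * L with hn'
  set k := M / L - j with hk'
  have hnM : n ≤ M := Nat.sub_le _ _
  have hLr : (0 : ℝ) < L := by exact_mod_cast hL
  have hkr : (0 : ℝ) < k := by exact_mod_cast hk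
  have hnr : (0 : ℝ) < n := by exact_mod_cast hn
  have hlog : Real.log n ≤ Real.log M := Real.log_le_log hnr (by exact_mod_cast hnM)
  have hlog0 : 0 ≤ Real.log n := Real.log_natCast_nonneg n
  have hsL : 0 < √(L : ℝ) := Real.sqrt_pos.mpr hLr
  have hsk : 0 < √(k : ℝ) := Real.sqrt_pos.mpr hkr
  have hsn : 0 < √(n : ℝ) := Real.sqrt_pos.mpr hnr
  have h3 : √(k : ℝ) * √(L : ℝ) ≤ √(n : ℝ) := by
    rw [← Real.sqrt_mul hkr.le]
    exact Real.sqrt_le_sqrt (by exact_mod_cast h1)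
  have h4 : √(L : ℝ) / √(n : ℝ) ≤ 1 / √(k : ℝ) := by
    rw [div_le_div_iff₀ hsn hsk]
    linarith
  have h5 : √(L : ℝ) * del n = 16 * (1 + Real.log n) * (√(L : ℝ) / √(n : ℝ)) := by
    unfold del
    ring
  rw [h5]
  have h6 : 0 ≤ √(L : ℝ) / √(n : ℝ) := by positivity
  have h7 : 0 ≤ 1 / √(k : ℝ) := by positivity
  exact mul_le_mul (by linarith) h4 h6 (by linarith)

/-- The numerical part. -/
lemma num {M L : ℕ} (hL : 1 ≤ L) (hLM : L ≤ M) {c r : ℝ} (hr1 : 0 < r)
    (hr : r ≤ ((M : ℝ) + 1) ^ 4)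
    (h : (2 : ℝ) ^ (c / L) ≤
      2 * r * ∏ j ∈ Finset.range (M / L), (1 + √(L : ℝ) * del (M - j * L))) :
    c ≤ 60 * (√((M : ℝ) * L) * (1 + Real.log M)) := by
  have hLr : (1 : ℝ) ≤ L := by exact_mod_cast hL
  have hM1 : (1 : ℝ) ≤ M := by exact_mod_cast hL.trans hLM
  have hLMr : (L : ℝ) ≤ M := by exact_mod_cast hLM
  have hdel : ∀ n : ℕ, 0 ≤ del n := by
    intro n
    unfold del
    have := Real.log_natCast_nonneg n
    positivity
  have hpos : ∀ j ∈ Finset.range (M / L), 0 < 1 + √(L : ℝ) * del (M - j * L) := by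
    intro j _
    have := hdel (M - j * L)
    positivity
  have hP : 0 < ∏ j ∈ Finset.range (M / L), (1 + √(L : ℝ) * del (M - j * L)) :=
    Finset.prod_pos hpos
  have h1 := Real.log_le_log (Real.rpow_pos_of_pos two_pos _) h
  rw [Real.log_rpow two_pos, Real.log_mul (by positivity) hP.ne',
    Real.log_mul two_ne_zero hr1.ne', Real.log_prod (fun j hj => (hpos j hj).ne')] at h1
  have hlogr : Real.log r ≤ 4 * (1 + Real.log M) := by
    have h2 : Real.log r ≤ Real.log (((M : ℝ) + 1) ^ 4) := Real.log_le_log hr1 hr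
    rw [Real.log_pow] at h2
    have h3 : Real.log ((M : ℝ) + 1) ≤ Real.log (2 * M) :=
      Real.log_le_log (by linarith) (by linarith)
    rw [Real.log_mul two_ne_zero (by linarith)] at h3
    have h4 := Real.log_two_lt_d9
    push_cast at h2
    linarith
  have hM0 : 0 ≤ Real.log M := Real.log_nonneg hM1
  have hsum : ∑ j ∈ Finset.range (M / L), Real.log (1 + √(L : ℝ) * del (M - j * L)) ≤
      16 * (1 + Real.log M) * (2 * √((M / L : ℕ) : ℝ)) := by
    have h2 : ∀ j ∈ Finset.range (M / L), Real.log (1 + √(L : ℝ) * del (M - j * L)) ≤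
        16 * (1 + Real.log M) * (1 / √(((M / L - j : ℕ) : ℝ))) := by
      intro j hj
      have h3 := Real.log_le_sub_one_of_pos (hpos j hj)
      have h4 := term hL (Finset.mem_range.mp hj)
      linarith
    refine (Finset.sum_le_sum h2).trans ?_
    rw [← Finset.mul_sum]
    exact mul_le_mul_of_nonneg_left (sum_refl _) (by positivity)
  have hK : √((M / L : ℕ) : ℝ) ≤ √((M : ℝ) / L) := Real.sqrt_le_sqrt Nat.cast_div_le
  have hq : 1 ≤ √((M : ℝ) / L) := by
    rw [Real.one_le_sqrt, one_le_div (by linarith)]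
    exact hLMr
  have hlog2 := Real.log_two_gt_d9
  have hlog2' := Real.log_two_lt_d9
  set Q := √((M : ℝ) / L) with hQ
  set A := 1 + Real.log M with hA
  have hA1 : 1 ≤ A := by linarith
  have h5 : 16 * A * (2 * √((M / L : ℕ) : ℝ)) ≤ 32 * A * Q := by
    have : 16 * A * (2 * √((M / L : ℕ) : ℝ)) = 32 * A * √((M / L : ℕ) : ℝ) := by ring
    rw [this]
    exact mul_le_mul_of_nonneg_left hK (by linarith)
  have hAQ : A ≤ A * Q := le_mul_of_one_le_right (by linarith) hq
  have h6 : c / L * Real.log 2 ≤ 37 * (A * Q) := by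
    have h7 : (1 : ℝ) ≤ A * Q := le_trans hA1 hAQ
    linarith
  have h8 : (L : ℝ) * Q = √((M : ℝ) * L) := by
    have h9 : (L : ℝ) = √((L : ℝ) ^ 2) := (Real.sqrt_sq (by linarith)).symm
    rw [hQ, h9, ← Real.sqrt_mul (by positivity), Real.sqrt_sq (by linarith)]
    congr 1
    field_simp
  have hAQ0 : 0 ≤ A * Q := by linarith
  have h10 : c / L ≤ 60 * (A * Q) := by
    by_contra hcon
    push Not at hcon
    have h11 : 60 * (A * Q) * Real.log 2 < c / L * Real.log 2 :=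
      mul_lt_mul_of_pos_right hcon (by linarith)
    nlinarith
  rw [div_le_iff₀ (by linarith)] at h10
  calc c ≤ 60 * (A * Q) * L := h10
    _ = 60 * ((L : ℝ) * Q * A) := by ring
    _ = 60 * (√((M : ℝ) * L) * A) := by rw [h8]

end STA_

theorem p_STA (hSHL : T_SHL) (hPAR : T_PAR) : T_STA := by
  classical
  refine ⟨60, by norm_num, fun S L hL hLS => ?_⟩
  obtain ⟨R, hR, hR2⟩ := Wex.p_VCD S
  have hDSH : Wex.T_DSH := Wex.p_DSH Wex.p_DGP Wex.p_DMI
  obtain ⟨rep, h1, h2, h3⟩ := hPAR (ℝ × ℝ) ((ℝ × ℝ) × ℝ) dm S R L hL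
    (fun Y _ w hw hLY => hSHL (ℝ × ℝ) ((ℝ × ℝ) × ℝ) dm Y R
      (fun Y' _ s ρ hs => hDSH s ρ Y' hs) w L hw hL hLY)
  have h2' : (S.image rep).card ≤ S.card / L + 1 :=
    (congrArg (fun d : DecidableEq (ℝ × ℝ) => (@Finset.image _ _ d rep S).card)
      (Subsingleton.elim _ _)).trans_le h2
  refine ⟨rep, h1, h2', fun ρ => ?_⟩
  obtain ⟨σ, hσR, hσ⟩ := hR2 ρ
  have h4 : S.filter (fun x => Cross dm ρ x (rep x)) =
      S.filter (fun x => Cross dm σ x (rep x)) := by
    refine Finset.filter_congr (fun x hx => ?_)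
    unfold Cross
    rw [hσ x hx, hσ (rep x) (h1 x hx)]
  rw [h4]
  have hR0 : (0 : ℝ) < R.card := by
    exact_mod_cast Finset.card_pos.mpr ⟨σ, hσR⟩
  exact STA_.num hL hLS hR0 hR (h3 σ hσR)

end TSL
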