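import Pool.Agent.TSL.Targets

/-!
# MP_5ab805_an, time slices with the norm of f: SUP, superposition of level sets
-/

set_option autoImplicit false

namespace TSL

open MeasureTheory Set Filter
open scoped ENNReal NNReal Topology
open Pool.Agent.Restr (u E QQ)
open TriL (Sq n2)
open Wey (nq lam hat gup gdn blk Tk Sl Wi InD)
open Wex (Gs nu cf BB Ann Sep XX chk chp Par pw Cross sw del dm cell amal)

namespace SUP_

theorem InD_indicator {f : ℝ × ℝ → ℂ} (hf : InD f) {A : Set (ℝ × ℝ)} (hA : MeasurableSet A) :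
    InD (A.indicator f) := by
  refine ⟨hf.1.indicator hA, fun x hx => ?_⟩
  by_cases h : x ∈ A
  · rw [indicator_of_mem h]
    exact hf.2 x hx
  · exact indicator_of_notMem h _

theorem support_sub {f : ℝ × ℝ → ℂ} (hf : InD f) : Function.support f ⊆ QQ := by
  intro x hx
  by_contra hcon
  refine hx (hf.2 x ?_)
  by_contra h
  push Not at h
  refine hcon ⟨⟨?_, ?_⟩, ?_, ?_⟩ <;> nlinarith [sq_nonneg x.1, sq_nonneg x.2]

theorem vol_QQ : volume QQ = 1 := by
  unfold QQ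
  rw [Measure.volume_eq_prod, Measure.prod_prod, Real.volume_Icc]
  norm_num

theorem vs_le_one {f : ℝ × ℝ → ℂ} (hf : InD f) : vs f ≤ 1 :=
  (measure_mono (support_sub hf)).trans vol_QQ.le

theorem integrable {p : ℝ} (hp : 1 ≤ p) {f : ℝ × ℝ → ℂ} (hf : InD f)
    (h : MemLp f (ENNReal.ofReal p) volume) : Integrable f := by
  have h1 : IntegrableOn f QQ := by
    have : IsFiniteMeasure (volume.restrict QQ) := ⟨by
      rw [Measure.restrict_apply_univ, vol_QQ]
      exact ENNReal.one_lt_top⟩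
    exact (h.restrict QQ).integrable (ENNReal.one_le_ofReal.mpr hp)
  exact (integrableOn_iff_integrable_of_support_subset (support_sub hf)).mp h1

theorem level {r η a : ℝ} {D V : ℝ≥0∞} {w : ℝ × ℝ × ℝ → ℂ} (ha : 0 < a) (hη : 0 < η)
    (H : ∀ f : ℝ × ℝ → ℂ, InD f → (∀ x, ‖f x‖ ≤ 1) →
      eLpNorm (fun ξ => E f ξ * w ξ) (ENNReal.ofReal r) volume ≤ D * vs f ^ η)
    {f : ℝ × ℝ → ℂ} (hf : InD f) (hfa : ∀ x, ‖f x‖ ≤ a) (hV : vs f ≤ V) :
    eLpNorm (fun ξ => E f ξ * w ξ) (ENNReal.ofReal r) volume ≤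
      ENNReal.ofReal a * (D * V ^ η) := by
  have h1 := H (fun x => ((a⁻¹ : ℝ) : ℂ) * f x) ⟨measurable_const.mul hf.1, fun x hx => by
      simp only [hf.2 x hx, mul_zero]⟩ (fun x => by
      rw [norm_mul, Complex.norm_real, Real.norm_eq_abs, abs_of_pos (inv_pos.mpr ha),
        inv_mul_le_iff₀ ha, mul_one]
      exact hfa x)
  have h2 : vs (fun x => ((a⁻¹ : ℝ) : ℂ) * f x) ≤ V := by
    refine (measure_mono ?_).trans hV
    intro x hx
    exact right_ne_zero_of_mul hx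
  have h3 : (fun ξ => E f ξ * w ξ) =
      (a : ℂ) • fun ξ => E (fun x => ((a⁻¹ : ℝ) : ℂ) * f x) ξ * w ξ := by
    funext ξ
    rw [Pi.smul_apply, Pool.Agent.H27.Fib.E_const_mul, smul_eq_mul]
    have : (a : ℂ) ≠ 0 := by exact_mod_cast ha.ne'
    push_cast
    field_simp
  have h4 : ‖(a : ℂ)‖ₑ = ENNReal.ofReal a := by
    rw [← ofReal_norm, Complex.norm_real, Real.norm_eq_abs, abs_of_pos ha]
  rw [h3, eLpNorm_const_smul, h4]
  refine mul_le_mul_right ?_ _
  refine h1.trans (mul_le_mul_right ?_ _)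
  exact ENNReal.rpow_le_rpow h2 hη.le

/-- the part of f below a level -/
noncomputable def G (f : ℝ × ℝ → ℂ) (b : ℝ) (J : ℕ) : ℝ × ℝ → ℂ :=
  {x | ‖f x‖ ≤ 2 ^ J * b}.indicator f

/-- the part of f between two levels -/
noncomputable def Lv (f : ℝ × ℝ → ℂ) (b : ℝ) (J : ℕ) : ℝ × ℝ → ℂ :=
  {x | 2 ^ J * b < ‖f x‖ ∧ ‖f x‖ ≤ 2 ^ (J + 1) * b}.indicator f

theorem meas_G {f : ℝ × ℝ → ℂ} (hf : Measurable f) (b : ℝ) (J : ℕ) :
    MeasurableSet {x | ‖f x‖ ≤ 2 ^ J * b} := measurableSet_le hf.norm measurable_const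

theorem meas_Lv {f : ℝ × ℝ → ℂ} (hf : Measurable f) (b : ℝ) (J : ℕ) :
    MeasurableSet {x | 2 ^ J * b < ‖f x‖ ∧ ‖f x‖ ≤ 2 ^ (J + 1) * b} :=
  (measurableSet_lt measurable_const hf.norm).inter (measurableSet_le hf.norm measurable_const)

theorem G_succ {f : ℝ × ℝ → ℂ} {b : ℝ} (hb : 0 < b) (J : ℕ) :
    G f b (J + 1) = fun x => G f b J x + Lv f b J x := by
  funext x
  unfold G Lv
  have h2 : (2 : ℝ) ^ J * b ≤ 2 ^ (J + 1) * b := by
    have : (0 : ℝ) < 2 ^ J * b := by positivity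
    rw [pow_succ]
    linarith
  by_cases h : ‖f x‖ ≤ 2 ^ J * b
  · rw [indicator_of_mem (by exact h.trans h2), indicator_of_mem (by exact h),
      indicator_of_notMem (fun hc => absurd h (not_le.mpr hc.1)), add_zero]
  · by_cases h' : ‖f x‖ ≤ 2 ^ (J + 1) * b
    · rw [indicator_of_mem (by exact h'), indicator_of_notMem (by exact h),
        indicator_of_mem (by exact ⟨not_le.mp h, h'⟩), zero_add]
    · rw [indicator_of_notMem (by exact h'), indicator_of_notMem (by exact h),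
        indicator_of_notMem (fun hc => h' hc.2), zero_add]

theorem G_norm {f : ℝ × ℝ → ℂ} {b : ℝ} (hb : 0 < b) (J : ℕ) (x : ℝ × ℝ) :
    ‖G f b J x‖ ≤ 2 ^ J * b := by
  unfold G
  by_cases h : ‖f x‖ ≤ 2 ^ J * b
  · rw [indicator_of_mem (by exact h)]
    exact h
  · rw [indicator_of_notMem (by exact h), norm_zero]
    positivity

theorem Lv_norm {f : ℝ × ℝ → ℂ} {b : ℝ} (hb : 0 < b) (J : ℕ) (x : ℝ × ℝ) :
    ‖Lv f b J x‖ ≤ 2 ^ (J + 1) * b := by
  unfold Lv
  by_cases h : 2 ^ J * b < ‖f x‖ ∧ ‖f x‖ ≤ 2 ^ (J + 1) * b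
  · rw [indicator_of_mem (by exact h)]
    exact h.2
  · rw [indicator_of_notMem (by exact h), norm_zero]
    positivity

/-- Chebyshev. -/
theorem vs_Lv {p : ℝ} (hp : 0 < p) {f : ℝ × ℝ → ℂ} (hf : Measurable f) {b : ℝ} (hb : 0 < b)
    (hN : eLpNorm f (ENNReal.ofReal p) volume = ENNReal.ofReal b) (J : ℕ) :
    vs (Lv f b J) ≤ (2 : ℝ≥0∞) ^ (-(J : ℝ) * p) := by
  have h1 : vs (Lv f b J) ≤ volume {x | ENNReal.ofReal (2 ^ J * b) ≤ ‖f x‖ₑ} := by
    refine measure_mono fun x hx => ?_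
    have h := (indicator_apply_ne_zero.mp hx).1
    change ENNReal.ofReal (2 ^ J * b) ≤ ‖f x‖ₑ
    rw [← ofReal_norm]
    exact ENNReal.ofReal_le_ofReal h.1.le
  have hpos : (0 : ℝ) < 2 ^ J * b := by positivity
  have h2 := meas_ge_le_mul_pow_eLpNorm_enorm (μ := volume) (p := ENNReal.ofReal p)
    (by simpa using hp) ENNReal.ofReal_ne_top hf.aestronglyMeasurable
    (ε := ENNReal.ofReal (2 ^ J * b)) (by simpa using hpos)
    (fun h => absurd h ENNReal.ofReal_ne_top)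
  refine h1.trans (h2.trans (le_of_eq ?_))
  have hb0 : ENNReal.ofReal b ≠ 0 := by simpa using hb
  rw [ENNReal.toReal_ofReal hp.le, hN, ← ENNReal.mul_rpow_of_nonneg _ _ hp.le,
    ENNReal.ofReal_mul (by positivity), ENNReal.mul_inv (Or.inr ENNReal.ofReal_ne_top)
    (Or.inl ENNReal.ofReal_ne_top), mul_assoc, ENNReal.inv_mul_cancel hb0 ENNReal.ofReal_ne_top,
    mul_one, ENNReal.ofReal_pow (by norm_num), ENNReal.ofReal_ofNat, ← ENNReal.rpow_natCast,
    ← ENNReal.rpow_neg, ← ENNReal.rpow_mul]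

theorem tend {f : ℝ × ℝ → ℂ} (hf : Integrable f) (hm : Measurable f) {b : ℝ} (hb : 0 < b)
    (ξ : ℝ × ℝ × ℝ) :
    Tendsto (fun J => E (G f b J) ξ) atTop (𝓝 (E f ξ)) := by
  unfold E
  refine tendsto_integral_of_dominated_convergence (fun x => ‖f x‖) (fun J => ?_) hf.norm
    (fun J => Eventually.of_forall fun x => ?_) (Eventually.of_forall fun x => ?_)
  · exact ((Pool.Agent.Restr.continuous_u.comp (by fun_prop)).aestronglyMeasurable).mul
      (hm.indicator (meas_G hm b J)).aestronglyMeasurable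
  · rw [norm_mul, Pool.Agent.Restr.norm_u, one_mul]
    exact norm_indicator_le_norm_self _ _
  · have h1 : Tendsto (fun J : ℕ => (2 : ℝ) ^ J * b) atTop atTop :=
      (tendsto_pow_atTop_atTop_of_one_lt (by norm_num)).atTop_mul_const hb
    refine tendsto_const_nhds.congr' ?_
    filter_upwards [h1.eventually_ge_atTop ‖f x‖] with J hJ
    unfold G
    rw [indicator_of_mem (by exact hJ)]

theorem sums {p η r b : ℝ} (hp : 1 ≤ p) (hη : 0 < η) (hr : 1 ≤ r) {D : ℝ≥0∞}
    {w : ℝ × ℝ × ℝ → ℂ} (hw : Measurable w)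
    (H : ∀ f : ℝ × ℝ → ℂ, InD f → (∀ x, ‖f x‖ ≤ 1) →
      eLpNorm (fun ξ => E f ξ * w ξ) (ENNReal.ofReal r) volume ≤ D * vs f ^ η)
    {f : ℝ × ℝ → ℂ} (hf : InD f) (hi : Integrable f) (hb : 0 < b)
    (hN : eLpNorm f (ENNReal.ofReal p) volume = ENNReal.ofReal b) (J : ℕ) :
    eLpNorm (fun ξ => E (G f b J) ξ * w ξ) (ENNReal.ofReal r) volume ≤
      ENNReal.ofReal b * (D * 2 ^ (p * η)) *
        ∑ j ∈ Finset.range (J + 1), ((2 : ℝ≥0∞) ^ (1 - p * η)) ^ j := by
  induction J with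
  | zero =>
    have h1 := level (V := 1) hb hη H (f := G f b 0) (InD_indicator hf (meas_G hf.1 b 0))
      (fun x => by simpa using G_norm hb 0 x)
      (vs_le_one (InD_indicator hf (meas_G hf.1 b 0)))
    refine h1.trans ?_
    have h0 : (1 : ℝ≥0∞) ≤ 2 ^ (p * η) := ENNReal.one_le_rpow (by norm_num) (by positivity)
    rw [ENNReal.one_rpow, zero_add, Finset.sum_range_one, pow_zero,
      mul_one (ENNReal.ofReal b * _)]
    gcongr
  | succ J ih =>
    have h1 := level (a := 2 ^ (J + 1) * b) (by positivity) hη H (f := Lv f b J)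
      (InD_indicator hf (meas_Lv hf.1 b J)) (Lv_norm hb J)
      (vs_Lv (by linarith) hf.1 hb hN J)
    have h2 : ENNReal.ofReal (2 ^ (J + 1) * b) * (D * ((2 : ℝ≥0∞) ^ (-(J : ℝ) * p)) ^ η) =
        ENNReal.ofReal b * (D * 2 ^ (p * η)) * ((2 : ℝ≥0∞) ^ (1 - p * η)) ^ (J + 1) := by
      rw [ENNReal.ofReal_mul (by positivity), ENNReal.ofReal_pow (by norm_num),
        ENNReal.ofReal_ofNat, ← ENNReal.rpow_natCast, ← ENNReal.rpow_natCast (2 ^ (1 - p * η)),
        ← ENNReal.rpow_mul, ← ENNReal.rpow_mul]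
      have e1 : (2 : ℝ≥0∞) ^ ((J + 1 : ℕ) : ℝ) * 2 ^ (-(J : ℝ) * p * η) =
          2 ^ (p * η) * 2 ^ ((1 - p * η) * ((J + 1 : ℕ) : ℝ)) := by
        rw [← ENNReal.rpow_add _ _ (by norm_num) (by norm_num),
          ← ENNReal.rpow_add _ _ (by norm_num) (by norm_num)]
        congr 1
        push_cast
        ring
      calc (2 : ℝ≥0∞) ^ ((J + 1 : ℕ) : ℝ) * ENNReal.ofReal b * (D * 2 ^ (-(J : ℝ) * p * η))
          = ENNReal.ofReal b * D * (2 ^ ((J + 1 : ℕ) : ℝ) * 2 ^ (-(J : ℝ) * p * η)) := by ring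
        _ = _ := by
          rw [e1]
          ring
    have h3 : (fun ξ => E (G f b (J + 1)) ξ * w ξ) =
        (fun ξ => E (G f b J) ξ * w ξ) + fun ξ => E (Lv f b J) ξ * w ξ := by
      funext ξ
      have i1 : Integrable (G f b J) := hi.indicator (meas_G hf.1 b J)
      have i2 : Integrable (Lv f b J) := hi.indicator (meas_Lv hf.1 b J)
      rw [G_succ hb J, Pi.add_apply, Pool.Agent.H27.Fib.E_add i1 i2]
      ring
    have hmG : Measurable (E (G f b J)) :=
      Pool.Agent.Restr.measurable_E (hf.1.indicator (meas_G hf.1 b J))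
    have hmL : Measurable (E (Lv f b J)) :=
      Pool.Agent.Restr.measurable_E (hf.1.indicator (meas_Lv hf.1 b J))
    rw [h3, Finset.sum_range_succ, mul_add]
    refine (eLpNorm_add_le (hmG.mul hw).aestronglyMeasurable (hmL.mul hw).aestronglyMeasurable
      (ENNReal.one_le_ofReal.mpr hr)).trans ?_
    exact add_le_add ih (h1.trans h2.le)

end SUP_

open SUP_ in
/-- superposition of level sets -/
theorem p_SUP : T_SUP := by
  intro p η hp hη hpη
  have hQ : (2 : ℝ≥0∞) ^ (1 - p * η) < 1 :=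
    ENNReal.rpow_lt_one_of_one_lt_of_neg (by norm_num) (by linarith)
  have hC : (2 : ℝ≥0∞) ^ (p * η) * (1 - 2 ^ (1 - p * η))⁻¹ ≠ ∞ := by
    refine ENNReal.mul_ne_top (ENNReal.rpow_ne_top_of_nonneg (by positivity) (by norm_num)) ?_
    exact ENNReal.inv_ne_top.mpr (tsub_pos_of_lt hQ).ne'
  refine ⟨((2 : ℝ≥0∞) ^ (p * η) * (1 - 2 ^ (1 - p * η))⁻¹).toNNReal,
    fun r D w hr hw H f hf hLp => ?_⟩
  rw [ENNReal.coe_toNNReal hC]
  have hi : Integrable f := SUP_.integrable hp hf hLp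
  have hpe : ENNReal.ofReal p ≠ 0 := by
    have : 0 < p := by linarith
    simpa using this
  by_cases hN0 : eLpNorm f (ENNReal.ofReal p) volume = 0
  · have h0 : f =ᵐ[volume] 0 := (eLpNorm_eq_zero_iff hLp.1 hpe).mp hN0
    have h1 : (fun ξ => E f ξ * w ξ) = fun _ => (0 : ℂ) := by
      funext ξ
      have : E f ξ = 0 := by
        unfold E
        refine (integral_congr_ae (g := fun _ => (0 : ℂ)) ?_).trans (by simp)
        filter_upwards [h0] with x hx
        rw [hx, Pi.zero_apply, mul_zero]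
      rw [this, zero_mul]
    rw [h1, eLpNorm_zero']
    exact zero_le
  · set b : ℝ := (eLpNorm f (ENNReal.ofReal p) volume).toReal with hbdef
    have hb : 0 < b := ENNReal.toReal_pos hN0 hLp.2.ne
    have hN : eLpNorm f (ENNReal.ofReal p) volume = ENNReal.ofReal b :=
      (ENNReal.ofReal_toReal hLp.2.ne).symm
    have key : eLpNorm (fun ξ => E f ξ * w ξ) (ENNReal.ofReal r) volume ≤
        ENNReal.ofReal b * (D * 2 ^ (p * η)) * (1 - 2 ^ (1 - p * η))⁻¹ := by
      refine Lp.eLpNorm_le_of_ae_tendsto (u := atTop)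
        (f := fun (J : ℕ) ξ => E (G f b J) ξ * w ξ)
        (Eventually.of_forall fun J => ?_)
        (fun J => ((Pool.Agent.Restr.measurable_E
          (hf.1.indicator (meas_G hf.1 b J))).mul hw).aestronglyMeasurable)
        (Eventually.of_forall fun ξ => (tend hi hf.1 hb ξ).mul_const _)
      refine (sums hp hη hr hw H hf hi hb hN J).trans ?_
      refine mul_le_mul_right ?_ _
      rw [← ENNReal.tsum_geometric]
      exact ENNReal.sum_le_tsum _
    refine key.trans (le_of_eq ?_)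
    rw [hN]
    ring

end TSL
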