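import Pool.Agent.TSL.Targets2

/-!
# TRS: the estimate on a slab from the triangle inequality (helper22)
-/

set_option autoImplicit false

namespace TSL

open MeasureTheory Set Filter
open scoped ENNReal NNReal Topology
open Pool.Agent.Restr (u E QQ)
open TriL (Sq n2)
open Wey (nq lam hat gup gdn blk Tk Sl Wi)
open Wex (Gs nu cf BB Ann Sep XX chk chp Par pw Cross sw del dm cell amal)

namespace TRS_

theorem sq_sum_le (s : Finset ℤ) (x : ℤ → ℝ≥0∞) :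
    (∑ n ∈ s, x n) ^ 2 ≤ (s.card : ℝ≥0∞) * ∑ n ∈ s, x n ^ 2 := by
  have h := ENNReal.rpow_sum_le_const_mul_sum_rpow s x (p := 2) (by norm_num)
  have h1 : (2 : ℝ) - 1 = 1 := by norm_num
  rw [h1, ENNReal.rpow_one] at h
  have h2 : ∀ y : ℝ≥0∞, y ^ (2 : ℝ) = y ^ 2 := fun y => by
    rw [← ENNReal.rpow_natCast]
    norm_num
  rw [h2] at h
  simp_rw [h2] at h
  exact h

variable {φ ψ : ℤ → ℝ} {a : ℤ → ℂ} {χ f : ℝ × ℝ → ℂ} {K : ℝ≥0}

theorem enorm_Gs_single (n : ℤ) (x : ℝ × ℝ) : ‖Gs φ ψ {n} a x‖ₑ = ‖a n‖ₑ := by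
  unfold Gs
  rw [Finset.sum_singleton, enorm_mul, Pool.Agent.Restr.enorm_u, mul_one]

theorem integrable_single (hW : Wi K χ) (h0 : ∀ x, x ∉ QQ → χ x = 0) (n : ℤ) :
    Integrable fun x => χ x * Gs φ ψ {n} a x := by
  refine Wex.THK_.integrable_sq (K := K * ‖a n‖₊)
    ((Wey.ASM_.wi_cont hW).measurable.mul (Wex.ASM_.Gs_meas _ _ _ _))
    (fun x hx => by rw [h0 x hx, zero_mul]) (fun x => ?_)
  rw [enorm_mul, enorm_Gs_single, ENNReal.coe_mul]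
  exact mul_le_mul' (Wey.ASM_.wi_le hW x) le_rfl

theorem E_sum (hW : Wi K χ) (h0 : ∀ x, x ∉ QQ → χ x = 0) (s : Finset ℤ) (ξ : ℝ × ℝ × ℝ) :
    E (fun x => χ x * Gs φ ψ s a x) ξ = ∑ n ∈ s, E (fun x => χ x * Gs φ ψ {n} a x) ξ ∧
      Integrable fun x => χ x * Gs φ ψ s a x := by
  classical
  induction s using Finset.induction_on with
  | empty => simp [E, Gs]
  | insert n s hn ih =>
    have h1 : (fun x => χ x * Gs φ ψ (insert n s) a x) =
        fun x => χ x * Gs φ ψ {n} a x + χ x * Gs φ ψ s a x := by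
      funext x
      unfold Gs
      rw [Finset.sum_insert hn, Finset.sum_singleton, mul_add]
    rw [h1, Finset.sum_insert hn, ← ih.1]
    exact ⟨Pool.Agent.H27.Fib.E_add (integrable_single hW h0 n) ih.2 ξ,
      (integrable_single hW h0 n).add ih.2⟩

theorem XX_le (hW : Wi K χ) (h0 : ∀ x, x ∉ QQ → χ x = 0) (s : Finset ℤ) (ξ : ℝ × ℝ × ℝ) :
    XX φ ψ s a χ f ξ ^ 2 ≤ (s.card : ℝ≥0∞) * ∑ n ∈ s, XX φ ψ {n} a χ f ξ ^ 2 := by
  refine le_trans ?_ (sq_sum_le s _)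
  gcongr
  unfold XX
  rw [← Finset.mul_sum, (E_sum hW h0 s ξ).1]
  gcongr
  exact enorm_sum_le _ _

theorem ico (n : ℤ) : Finset.Ico n (n + 1) = {n} := by
  ext k
  rw [Finset.mem_Ico, Finset.mem_singleton]
  omega

theorem sep_single (n : ℤ) : Sep φ ψ {n} := by
  intro k hk l hl hkl
  rw [Finset.mem_singleton] at hk hl
  exact absurd (hk.trans hl.symm) hkl

theorem ann_single (n : ℤ) : Ann 1 φ ψ {n} := by
  classical
  intro c d p q
  by_cases h : p < (φ n - c) ^ 2 + (ψ n - d) ^ 2 ∧ (φ n - c) ^ 2 + (ψ n - d) ^ 2 ≤ q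
  · refine ⟨fun _ => {n}, fun _ => ordConnected_singleton, fun i j hij => ?_, fun k hk => ?_⟩
    · exact absurd (Subsingleton.elim i j) hij
    · rw [Finset.mem_singleton] at hk
      subst hk
      exact ⟨fun _ => ⟨0, rfl⟩, fun _ => h⟩
  · refine ⟨fun _ => ∅, fun _ => ordConnected_empty, fun i j hij => ?_, fun k hk => ?_⟩
    · exact absurd (Subsingleton.elim i j) hij
    · rw [Finset.mem_singleton] at hk
      subst hk
      exact ⟨fun h' => absurd h' h, fun h' => absurd h'.choose_spec (notMem_empty _)⟩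

theorem SQ_single (hf : Sq f) (n : ℤ) : Wex.SQ φ ψ {n} a f (‖a n‖ₑ ^ 2 * n2 f) := by
  classical
  refine ⟨fun i => ?_, fun k hk => ?_⟩
  · have h1 : ∀ j : ℤ, j ≠ n / 2 ^ i → ∫⁻ x, ‖f x‖ₑ ^ 2 *
        ‖blk {n} (fun n => a n * u (-(φ n * x.1 + ψ n * x.2))) i j‖ₑ ^ 2 = 0 := by
      intro j hj
      have h2 : ∀ x : ℝ × ℝ, blk {n} (fun n => a n * u (-(φ n * x.1 + ψ n * x.2))) i j = 0 := by
        intro x
        unfold blk
        rw [Finset.filter_singleton, if_neg (fun h => hj h.symm), Finset.sum_empty]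
      simp only [h2, enorm_zero]
      simp
    rw [tsum_eq_single _ h1]
    have h3 : ∀ x : ℝ × ℝ, ‖f x‖ₑ ^ 2 *
        ‖blk {n} (fun n => a n * u (-(φ n * x.1 + ψ n * x.2))) i (n / 2 ^ i)‖ₑ ^ 2 =
          ‖f x‖ₑ ^ 2 * ‖a n‖ₑ ^ 2 := by
      intro x
      unfold blk
      rw [Finset.filter_singleton, if_pos rfl, Finset.sum_singleton, enorm_mul,
        Pool.Agent.Restr.enorm_u, mul_one]
    simp only [h3]
    rw [lintegral_mul_const _ (hf.1.enorm.pow_const 2)]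
    have h4 : (1 : ℝ≥0∞) ≤ ENNReal.ofReal ((i + 3) ^ 2) := by
      rw [← ENNReal.ofReal_one]
      apply ENNReal.ofReal_le_ofReal
      have : (0 : ℝ) ≤ i := Nat.cast_nonneg i
      nlinarith
    calc (∫⁻ x, ‖f x‖ₑ ^ 2) * ‖a n‖ₑ ^ 2 = 1 * (‖a n‖ₑ ^ 2 * n2 f) := by
          unfold n2
          ring
      _ ≤ _ := by gcongr
  · rw [Finset.mem_singleton] at hk
    rw [hk]

end TRS_

open TRS_ in
theorem p_TRS : T_TRS := by
  intro ε hε
  obtain ⟨C, hC⟩ := Wex.cut ε hε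
  refine ⟨C, fun φ ψ s a χ f K k hW h0 hf hi => ?_⟩
  have h1 : ∀ n : ℤ, ∫⁻ ξ in Sl k, XX φ ψ {n} a χ f ξ ^ 2 ≤
      C * (K : ℝ≥0∞) ^ 2 * ENNReal.ofReal (2 ^ ((-1 + ε) * k)) * (‖a n‖ₑ ^ 2 * n2 f) := by
    intro n
    have h := hC 1 φ ψ n (n + 1) a χ f K (‖a n‖ₑ ^ 2 * n2 f) k le_rfl
    rw [ico] at h
    have h2 := h (sep_single n) (ann_single n) hW h0 hf hi (SQ_single hf n)
    rwa [Nat.cast_one, mul_one] at h2
  calc ∫⁻ ξ in Sl k, XX φ ψ s a χ f ξ ^ 2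
      ≤ ∫⁻ ξ in Sl k, (s.card : ℝ≥0∞) * ∑ n ∈ s, XX φ ψ {n} a χ f ξ ^ 2 :=
        lintegral_mono fun ξ => XX_le hW h0 s ξ
    _ = (s.card : ℝ≥0∞) * ∑ n ∈ s, ∫⁻ ξ in Sl k, XX φ ψ {n} a χ f ξ ^ 2 := by
        rw [lintegral_const_mul' _ _ (ENNReal.natCast_ne_top _), lintegral_finsetSum]
        intro n _
        exact (Wex.ASM_.meas_XX hW h0 hf).pow_const 2
    _ ≤ (s.card : ℝ≥0∞) * ∑ n ∈ s,
        C * (K : ℝ≥0∞) ^ 2 * ENNReal.ofReal (2 ^ ((-1 + ε) * k)) * (‖a n‖ₑ ^ 2 * n2 f) := by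
        gcongr with n hn
        exact h1 n
    _ = _ := by
        rw [← Finset.mul_sum, ← Finset.sum_mul]
        ring

end TSL
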