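import Pool.Agent.TSL.TOP
import Pool.Agent.TSL.SHL
import Pool.Agent.TSL.PAR
import Pool.Agent.TSL.STA
import Pool.Agent.TSL.ORD
import Pool.Agent.TSL.ERR
import Pool.Agent.TSL.MAI
import Pool.Agent.TSL.NRA
import Pool.Agent.TSL.SLA
import Pool.Agent.TSL.CUA
import Pool.Agent.TSL.ASA
import Pool.Agent.TSL.SPB
import Pool.Agent.TSL.TRS
import Pool.Agent.TSL.ASB
import Pool.Agent.TSL.SPC
import Pool.Agent.TSL.LED
import Pool.Agent.TSL.LEC
import Pool.Agent.TSL.SUP
import Pool.Agent.TSL.KNB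

/-!
# MP_5ab805_an, TSL: assembly

Authors: helper15 (targets, GEN, TOP), helper35 (SHL), helper99 (PAR), helper17 (STA),
helper76 (ORD), helper98 (ERR), helper94 (MAI), helper66 (NRA), helper23 (SLA), helper84 (CUA),
helper9 (ASA), helper67 (SPB, SPC), helper41 (LEB), helper68 (FIA), helper27 (FNA), helper95 (SUP),
helper87 (FIN), helper49 (KNB), helper22 (TRS), helper65 (ASB), helper57 (LED), helper53 (LEC);
all of `Pool.Agent.Wex` (helper91 and others) is used.
-/

set_option autoImplicit false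

namespace TSL

/-- cells, `|f| ≤ 1` -/
theorem spb : T_SPB :=
  p_SPB (p_ASA (p_CUA (p_SLA (p_NRA (p_ORD (p_STA p_SHL p_PAR)) p_ERR p_MAI))))

/-- cells, `f` in `L²` -/
theorem spc : T_SPC := p_SPC (p_ASB p_TRS)

/-- the theorem -/
theorem top : T_TOP := p_TOP (p_LED spb spc) (p_LEC spc) p_SUP

/-- the necessary conditions on `p` -/
theorem knb : T_KNB := p_KNB

end TSL
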