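import Pool.Agent.TSL.Targets

/-!
# MP_5ab805_an, time slices with the `L^p` norm: FIA, functions on the small square, time zero
-/

set_option autoImplicit false

namespace TSL

open MeasureTheory Set Filter
open scoped ENNReal NNReal Topology
open Pool.Agent.Restr (u E QQ)
open TriL (Sq n2)
open Wey (nq lam hat gup gdn blk Tk Sl Wi InD)
open Wex (Gs nu cf BB Ann Sep XX chk chp Par pw Cross sw del dm cell amal)
open Wex.FI0_ (gR gR_meas gR_int gR_n2 gR_supp gR_enorm_le SS amal_mono)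

theorem p_FIA (hLEB : T_LEB) : T_FIA := by
  intro ρ s η μ t θ hρ hρ2 hs hsρ hη hη1 hμ hμ4 ht hμt hθ hθ1
  obtain ⟨C1, hC1⟩ := hLEB ρ s η μ t θ hρ hρ2 hs hsρ hη hη1 hμ hμ4 ht hμt hθ hθ1
  obtain ⟨C2, hC2⟩ := Wex.p_AMA s hs (by linarith)
  have ht2 : t ≤ 2 := by
    have e1 : 3 / 4 < 1 / μ := by
      rw [lt_div_iff₀ (by linarith)]
      linarith
    have e2 : 1 / 2 < 1 / t := by linarith
    rw [lt_div_iff₀ (by linarith)] at e2
    linarith
  obtain ⟨C3, hC3⟩ := Wex.p_AMA t ht ht2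
  obtain ⟨χ, K, hχ, hQ, hχ1, hlim⟩ := Wex.p_CHI
  refine ⟨C1 * K * (C2 + C3), fun f g hf hf1 hgm hgi hg0 => ?_⟩
  obtain ⟨Vs, hVs⟩ : ∃ V : ℝ≥0∞, V = vs f ^ η := ⟨_, rfl⟩
  obtain ⟨Vt, hVt⟩ : ∃ V : ℝ≥0∞, V = vs f ^ θ := ⟨_, rfl⟩
  rw [← hVs, ← hVt]
  have hgS : Sq g := by
    refine ⟨hgm, fun x hx => ?_⟩
    refine hg0 x ?_
    by_contra hcon
    push Not at hcon
    refine hx ?_
    have e1 := abs_le.mp hcon.1
    have e2 := abs_le.mp hcon.2
    exact ⟨⟨by linarith [e1.1], by linarith [e1.2]⟩, by linarith [e2.1], by linarith [e2.2]⟩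
  have hχg : (fun x => χ x * g x) = g := by
    funext x
    by_cases hx : 1 / 4 < |x.1| ∨ 1 / 4 < |x.2|
    · rw [hg0 x hx, mul_zero]
    · push Not at hx
      rw [hχ1 x hx.1 hx.2, one_mul]
  have hlim' : ∀ ξ : ℝ × ℝ × ℝ, Tendsto (fun R : ℕ => E (fun x => χ x * chk (gR g R) x) ξ) atTop
      (𝓝 (4 * Real.pi ^ 2 * E g ξ)) := by
    intro ξ
    have h := hlim g hgm hgi ξ
    rw [hχg] at h
    refine h.congr fun R => ?_
    congr 1
  have key : ∀ R : ℕ, eLpNorm (fun ξ => E f ξ * E (fun x => χ x * chk (gR g R) x) ξ)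
        (ENNReal.ofReal ρ) volume ≤ C1 * K * Vs * amal s (gR g R) ∧
      ∀ h : ℝ × ℝ → ℂ, Sq h →
      eLpNorm (fun ξ => E f ξ * E h ξ * E (fun x => χ x * chk (gR g R) x) ξ)
        (ENNReal.ofReal μ) volume ≤ C1 * K * Vt * amal t (gR g R) * eLpNorm h 2 volume := by
    intro R
    rw [hVs, hVt]
    exact hC1 χ (gR g R) K (SS R) hχ hQ (gR_meas hgm R) (gR_int hgm R) (gR_n2 R) (gR_supp g R)
      f hf hf1
  have ks : ∀ R : ℕ, amal s (gR g R) ≤ C2 * (∫⁻ y, ‖hat g y‖ₑ ^ s) ^ (1 / s) := fun R =>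
    (amal_mono (by linarith) (gR_enorm_le g R)).trans (hC2 g hgS hgi)
  have kt : ∀ R : ℕ, amal t (gR g R) ≤ C3 * (∫⁻ y, ‖hat g y‖ₑ ^ t) ^ (1 / t) := fun R =>
    (amal_mono (by linarith) (gR_enorm_le g R)).trans (hC3 g hgS hgi)
  have hmE : ∀ R : ℕ, Measurable (E (fun x => χ x * chk (gR g R) x)) := by
    intro R
    have hc : Continuous (chk (gR g R)) := by
      unfold chk
      refine continuous_of_dominated (bound := fun w => ‖gR g R w‖) (fun x => ?_)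
        (fun x => Eventually.of_forall fun w => ?_) (gR_int hgm R).norm
        (Eventually.of_forall fun w => ?_)
      · exact ((Pool.Agent.Restr.continuous_u.comp (by fun_prop)).aestronglyMeasurable).mul
          (gR_int hgm R).1
      · rw [norm_mul, Pool.Agent.Restr.norm_u, one_mul]
      · exact (Pool.Agent.Restr.continuous_u.comp (by fun_prop)).mul continuous_const
    exact Pool.Agent.Restr.measurable_E ((Wey.ASM_.wi_cont hχ).measurable.mul hc.measurable)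
  have hmf : Measurable (E f) := Pool.Agent.Restr.measurable_E hf.1
  have hpi : (1 : ℝ) ≤ ‖(4 * Real.pi ^ 2 : ℂ)‖ := by
    have e1 : ‖(4 * Real.pi ^ 2 : ℂ)‖ = 4 * Real.pi ^ 2 := by
      rw [norm_mul, norm_pow, Complex.norm_real, Real.norm_eq_abs, sq_abs]
      norm_num
    rw [e1]
    nlinarith [Real.pi_gt_three]
  refine ⟨?_, fun h hh => ?_⟩
  · have e1 : eLpNorm (fun ξ => E f ξ * (4 * Real.pi ^ 2 * E g ξ)) (ENNReal.ofReal ρ) volume ≤
        C1 * K * Vs * (C2 * (∫⁻ y, ‖hat g y‖ₑ ^ s) ^ (1 / s)) := by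
      refine Lp.eLpNorm_le_of_ae_tendsto (u := atTop)
        (f := fun (R : ℕ) ξ => E f ξ * E (fun x => χ x * chk (gR g R) x) ξ)
        (Eventually.of_forall fun R => ?_)
        (fun R => (hmf.mul (hmE R)).aestronglyMeasurable)
        (Eventually.of_forall fun ξ => (hlim' ξ).const_mul _)
      refine (key R).1.trans ?_
      gcongr
      exact ks R
    have e2 : eLpNorm (fun ξ => E f ξ * E g ξ) (ENNReal.ofReal ρ) volume ≤
        eLpNorm (fun ξ => E f ξ * (4 * Real.pi ^ 2 * E g ξ)) (ENNReal.ofReal ρ) volume := by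
      refine eLpNorm_mono fun ξ => ?_
      rw [norm_mul, norm_mul, norm_mul (4 * (Real.pi : ℂ) ^ 2)]
      refine mul_le_mul_of_nonneg_left ?_ (norm_nonneg _)
      exact le_mul_of_one_le_left (norm_nonneg _) hpi
    refine e2.trans (e1.trans ?_)
    push_cast
    calc (C1 : ℝ≥0∞) * K * Vs * (C2 * (∫⁻ y, ‖hat g y‖ₑ ^ s) ^ (1 / s))
        = C1 * K * C2 * Vs * (∫⁻ y, ‖hat g y‖ₑ ^ s) ^ (1 / s) := by ring
      _ ≤ C1 * K * (C2 + C3) * Vs * (∫⁻ y, ‖hat g y‖ₑ ^ s) ^ (1 / s) := by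
          gcongr
          exact le_self_add
  · have hmh : Measurable (E h) := Pool.Agent.Restr.measurable_E hh.1
    have e1 : eLpNorm (fun ξ => E f ξ * E h ξ * (4 * Real.pi ^ 2 * E g ξ)) (ENNReal.ofReal μ)
        volume ≤ C1 * K * Vt * (C3 * (∫⁻ y, ‖hat g y‖ₑ ^ t) ^ (1 / t)) * eLpNorm h 2 volume := by
      refine Lp.eLpNorm_le_of_ae_tendsto (u := atTop)
        (f := fun (R : ℕ) ξ => E f ξ * E h ξ * E (fun x => χ x * chk (gR g R) x) ξ)
        (Eventually.of_forall fun R => ?_)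
        (fun R => ((hmf.mul hmh).mul (hmE R)).aestronglyMeasurable)
        (Eventually.of_forall fun ξ => (hlim' ξ).const_mul _)
      refine ((key R).2 h hh).trans ?_
      gcongr
      exact kt R
    have e2 : eLpNorm (fun ξ => E f ξ * E h ξ * E g ξ) (ENNReal.ofReal μ) volume ≤
        eLpNorm (fun ξ => E f ξ * E h ξ * (4 * Real.pi ^ 2 * E g ξ)) (ENNReal.ofReal μ) volume := by
      refine eLpNorm_mono fun ξ => ?_
      rw [norm_mul, norm_mul (E f ξ * E h ξ), norm_mul (4 * (Real.pi : ℂ) ^ 2)]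
      refine mul_le_mul_of_nonneg_left ?_ (norm_nonneg _)
      exact le_mul_of_one_le_left (norm_nonneg _) hpi
    refine e2.trans (e1.trans ?_)
    push_cast
    calc (C1 : ℝ≥0∞) * K * Vt * (C3 * (∫⁻ y, ‖hat g y‖ₑ ^ t) ^ (1 / t)) * eLpNorm h 2 volume
        = C1 * K * C3 * Vt * (∫⁻ y, ‖hat g y‖ₑ ^ t) ^ (1 / t) * eLpNorm h 2 volume := by ring
      _ ≤ C1 * K * (C2 + C3) * Vt * (∫⁻ y, ‖hat g y‖ₑ ^ t) ^ (1 / t) * eLpNorm h 2 volume := by
          gcongr
          exact le_add_self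

end TSL
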