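import Pool.Agent.TSL.Targets

/-!
# TSL, FIN: the theorem, final choice of the exponents
-/

set_option autoImplicit false

namespace TSL

open MeasureTheory Set Filter
open scoped ENNReal NNReal Topology
open Pool.Agent.Restr (u E QQ)
open TriL (Sq n2)
open Wey (nq lam hat gup gdn blk Tk Sl Wi InD)
open Wex (Gs nu cf BB Ann Sep XX chk chp Par pw Cross sw del dm cell amal)

namespace FIN_

/-- an exponent between `1 / p` and `b < 1 / 2` -/
theorem mid {p b : ℝ} (hp : 0 < p) (hb : b < 1 / 2) (h : 1 / p < b) :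
    1 ≤ p ∧ 0 < (1 / p + b) / 2 ∧ 1 < p * ((1 / p + b) / 2) ∧ (1 / p + b) / 2 < b := by
  have h0 : 0 < 1 / p := by positivity
  have h1 : 1 / p < 1 / 2 := h.trans hb
  have h2 : 2 < p := by
    rw [div_lt_div_iff₀ hp two_pos] at h1
    linarith
  have h3 : p * (1 / p) = 1 := by field_simp
  have h4 : p * (1 / p) < p * b := mul_lt_mul_of_pos_left h hp
  refine ⟨by linarith, by linarith, ?_, by linarith⟩
  have h5 : p * ((1 / p + b) / 2) = (p * (1 / p) + p * b) / 2 := by ring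
  rw [h5]
  linarith

theorem le_max (a b : ℝ≥0) (x : ℝ≥0∞) : (a : ℝ≥0∞) * x ≤ ((a + b : ℝ≥0) : ℝ≥0∞) * x := by
  gcongr
  exact le_self_add

theorem le_max' (a b : ℝ≥0) (x : ℝ≥0∞) : (b : ℝ≥0∞) * x ≤ ((a + b : ℝ≥0) : ℝ≥0∞) * x := by
  gcongr
  exact le_add_self

end FIN_

theorem p_FIN (hFNA : T_FNA) (hSUP : T_SUP) : T_FIN := by
  intro ρ s p μ t p' h1 h2 h3 h4 h5 h6 h7 h8 h9 h10 h11 h12
  have hb : 1 - 1 / ρ < 1 / 2 := by
    have : 1 / 2 < 1 / ρ := one_div_lt_one_div_of_lt (by linarith) h2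
    linarith
  have hb' : 5 / 4 - 1 / μ < 1 / 2 := by
    have : 1 / (4 / 3) < 1 / μ := one_div_lt_one_div_of_lt (by linarith) h8
    norm_num at this
    have h13 : 1 / μ = μ⁻¹ := one_div μ
    rw [h13]
    linarith
  obtain ⟨hp1, hη0, hη1, hη2⟩ := FIN_.mid h5 hb h6
  obtain ⟨hp1', hθ0, hθ1, hθ2⟩ := FIN_.mid h11 hb' h12
  set η := (1 / p + (1 - 1 / ρ)) / 2 with hη
  set θ := (1 / p' + (5 / 4 - 1 / μ)) / 2 with hθ
  obtain ⟨C₁, hC₁⟩ := hFNA ρ s η μ t θ h1 h2 h3 h4 hη0.le hη2 h7 h8 h9 h10 hθ0.le hθ2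
  obtain ⟨C₂, hC₂⟩ := hSUP p η hp1 hη0 hη1
  obtain ⟨C₃, hC₃⟩ := hSUP p' θ hp1' hθ0 hθ1
  refine ⟨C₂ * C₁ + C₃ * C₁, fun c f g hf hg => ⟨fun hfp => ?_, fun h hh hfp => ?_⟩⟩
  · have k1 := hC₂ ρ (C₁ * eLpNorm (fun y : ℝ × ℝ => E g (y.1, y.2, c)) (ENNReal.ofReal s) volume)
      (E g) (by linarith) (Pool.Agent.Restr.measurable_E hg.1) (fun f' hf' hf1 => by
        refine ((hC₁ c f' g hf' hf1 hg).1).trans (le_of_eq ?_)
        ring) f hf hfp
    refine k1.trans ?_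
    refine le_trans (le_of_eq ?_) ((FIN_.le_max (C₂ * C₁) (C₃ * C₁)
      (eLpNorm f (ENNReal.ofReal p) volume *
        eLpNorm (fun y : ℝ × ℝ => E g (y.1, y.2, c)) (ENNReal.ofReal s) volume)).trans
          (le_of_eq ?_))
    · rw [ENNReal.coe_mul]
      ring
    · ring
  · have k1 := hC₃ μ (C₁ * eLpNorm (fun y : ℝ × ℝ => E g (y.1, y.2, c)) (ENNReal.ofReal t) volume
      * eLpNorm h 2 volume) (fun ξ => E h ξ * E g ξ) h7.le
      ((Pool.Agent.Restr.measurable_E hh.1).mul (Pool.Agent.Restr.measurable_E hg.1))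
      (fun f' hf' hf1 => by
        have e : (fun ξ => E f' ξ * (E h ξ * E g ξ)) = fun ξ => E f' ξ * E h ξ * E g ξ := by
          funext ξ
          ring
        rw [e]
        refine (((hC₁ c f' g hf' hf1 hg).2) h hh).trans (le_of_eq ?_)
        ring) f hf hfp
    have e : (fun ξ => E f ξ * (E h ξ * E g ξ)) = fun ξ => E f ξ * E h ξ * E g ξ := by
      funext ξ
      ring
    rw [e] at k1
    refine k1.trans ?_
    refine le_trans (le_of_eq ?_) ((FIN_.le_max' (C₂ * C₁) (C₃ * C₁)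
      (eLpNorm f (ENNReal.ofReal p') volume * eLpNorm h 2 volume *
        eLpNorm (fun y : ℝ × ℝ => E g (y.1, y.2, c)) (ENNReal.ofReal t) volume)).trans
          (le_of_eq ?_))
    · rw [ENNReal.coe_mul]
      ring
    · ring

end TSL
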