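import Pool.Agent.TSL.Targets

/-!
# MP_5ab805_an, TSL-FNA: from the small square to the disc, at every time, with the measure of the
set where `f` is not zero
-/

set_option autoImplicit false

namespace TSL

open MeasureTheory Set Filter
open scoped ENNReal NNReal Topology
open Pool.Agent.Restr (u E QQ)
open TriL (Sq n2)
open Wey (nq lam hat gup gdn blk Tk Sl Wi InD)
open Wex (Gs nu cf BB Ann Sep XX chk chp Par pw Cross sw del dm cell amal)

namespace FNA_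

theorem supp_eq (c : ℝ) (f : ℝ × ℝ → ℂ) : Function.support (Wex.FIN_.dl (chp c f)) =
    (fun x : ℝ × ℝ => (2 * x.1, 2 * x.2)) ⁻¹' Function.support f := by
  ext x
  rw [Function.mem_support, Set.mem_preimage, Function.mem_support]
  unfold Wex.FIN_.dl
  rw [← norm_ne_zero_iff, Wex.FIN_.norm_chp, norm_ne_zero_iff]

theorem vs_le (c : ℝ) {f : ℝ × ℝ → ℂ} (hf : Measurable f) :
    vs (Wex.FIN_.dl (chp c f)) ≤ vs f := by
  unfold vs
  rw [supp_eq]
  have hS : MeasurableSet (Function.support f) := measurableSet_support hf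
  have h1 : volume ((fun x : ℝ × ℝ => (2 * x.1, 2 * x.2)) ⁻¹' Function.support f) =
      Measure.map (fun x : ℝ × ℝ => (2 * x.1, 2 * x.2)) volume (Function.support f) := by
    rw [Measure.map_apply (by fun_prop) hS]
  rw [h1, Wex.FIN_.map2 two_pos two_pos]
  have h3 : ENNReal.ofReal (2 : ℝ)⁻¹ * ENNReal.ofReal (2 : ℝ)⁻¹ ≤ 1 := by
    rw [← ENNReal.ofReal_mul (by norm_num)]
    rw [← ENNReal.ofReal_one]
    exact ENNReal.ofReal_le_ofReal (by norm_num)
  rw [Measure.smul_apply, smul_eq_mul]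
  calc _ ≤ 1 * volume (Function.support f) := by gcongr
    _ = volume (Function.support f) := one_mul _

end FNA_

theorem p_FNA (hFIA : T_FIA) : T_FNA := by
  intro ρ s η μ t θ hρ hρ2 hs hsρ hη hη2 hμ hμ2 ht htμ hθ hθ2
  obtain ⟨C, hC⟩ := hFIA ρ s η μ t θ hρ hρ2 hs hsρ hη hη2 hμ hμ2 ht htμ hθ hθ2
  have h2 := Wex.p_SHI
  refine ⟨64 * C, fun c f g hf hf1 hg => ?_⟩
  by_cases hgi : Integrable g
  swap
  · have h0 : ∀ ξ, E g ξ = 0 := Wex.FIN_.E_zero hg.1 hgi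
    constructor
    · simp only [h0, mul_zero]
      rw [eLpNorm_zero']
      exact zero_le
    · intro h _
      simp only [h0, mul_zero]
      rw [eLpNorm_zero']
      exact zero_le
  have e1 : chp c (chp (-c) g) = g := Wex.FIN_.chp_chp c g
  have hf0 : InD (chp (-c) f) := Wex.FIN_.InD_chp _ hf
  have hg0 : InD (chp (-c) g) := Wex.FIN_.InD_chp _ hg
  obtain ⟨k1, k2⟩ := hC (Wex.FIN_.dl (chp (-c) f)) (Wex.FIN_.dl (chp (-c) g))
    (Wex.FIN_.Sq_dl hf0)
    (fun x => by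
      unfold Wex.FIN_.dl
      rw [Wex.FIN_.norm_chp]
      exact hf1 _)
    (Wex.FIN_.meas_dl hg0.1) (Wex.FIN_.int_dl (Wex.FIN_.int_chp _ hg.1 hgi))
    (Wex.FIN_.dl_zero hg0)
  have hv := FNA_.vs_le (-c) hf.1
  have hC64 : ((64 * C : ℝ≥0) : ℝ≥0∞) = 64 * (C : ℝ≥0∞) := by
    rw [ENNReal.coe_mul]
    norm_num
  rw [hC64]
  constructor
  · have a1 := (h2 c (ENNReal.ofReal ρ) f f (chp (-c) g)).1
    rw [e1] at a1
    rw [a1]
    calc eLpNorm (fun ξ => E (chp (-c) f) ξ * E (chp (-c) g) ξ) (ENNReal.ofReal ρ) volume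
        ≤ 16 * eLpNorm (fun ξ => E (Wex.FIN_.dl (chp (-c) f)) ξ *
          E (Wex.FIN_.dl (chp (-c) g)) ξ)
          (ENNReal.ofReal ρ) volume :=
          Wex.FIN_.two _ (Wex.FIN_.meas_dl hf0.1) (Wex.FIN_.meas_dl hg0.1)
      _ ≤ 16 * (C * vs (Wex.FIN_.dl (chp (-c) f)) ^ η *
          (∫⁻ y, ‖hat (Wex.FIN_.dl (chp (-c) g)) y‖ₑ ^ s) ^ (1 / s)) := by gcongr
      _ ≤ 64 * (C * vs f ^ η * (∫⁻ y, ‖hat (chp (-c) g) y‖ₑ ^ s) ^ (1 / s)) :=
          mul_le_mul' (by norm_num) (mul_le_mul'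
            (mul_le_mul' le_rfl (ENNReal.rpow_le_rpow hv hη)) (ENNReal.rpow_le_rpow
            (Wex.FIN_.hat_le hs (Wex.FIN_.meas_dl hg0.1)) (by positivity)))
      _ = 64 * C * vs f ^ η *
          eLpNorm (fun y : ℝ × ℝ => E g (y.1, y.2, c)) (ENNReal.ofReal s) volume := by
          rw [Wex.FIN_.norm_eq hs]
          ring
  · intro h hh
    have hh0 : InD (chp (-c) h) := Wex.FIN_.InD_chp _ hh
    have a1 := (h2 c (ENNReal.ofReal μ) f h (chp (-c) g)).2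
    rw [e1] at a1
    rw [a1]
    have k3 := k2 (Wex.FIN_.dl (chp (-c) h)) (Wex.FIN_.Sq_dl hh0)
    calc eLpNorm (fun ξ => E (chp (-c) f) ξ * E (chp (-c) h) ξ * E (chp (-c) g) ξ)
          (ENNReal.ofReal μ) volume
        ≤ 64 * eLpNorm (fun ξ => E (Wex.FIN_.dl (chp (-c) f)) ξ *
          E (Wex.FIN_.dl (chp (-c) h)) ξ *
          E (Wex.FIN_.dl (chp (-c) g)) ξ) (ENNReal.ofReal μ) volume :=
          Wex.FIN_.three _ (Wex.FIN_.meas_dl hf0.1) (Wex.FIN_.meas_dl hh0.1)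
            (Wex.FIN_.meas_dl hg0.1)
      _ ≤ 64 * (C * vs (Wex.FIN_.dl (chp (-c) f)) ^ θ *
          (∫⁻ y, ‖hat (Wex.FIN_.dl (chp (-c) g)) y‖ₑ ^ t) ^ (1 / t) *
          eLpNorm (Wex.FIN_.dl (chp (-c) h)) 2 volume) := by gcongr
      _ ≤ 64 * (C * vs f ^ θ * (∫⁻ y, ‖hat (chp (-c) g) y‖ₑ ^ t) ^ (1 / t) *
          eLpNorm h 2 volume) :=
          mul_le_mul' le_rfl (mul_le_mul' (mul_le_mul'
            (mul_le_mul' le_rfl (ENNReal.rpow_le_rpow hv hθ)) (ENNReal.rpow_le_rpow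
            (Wex.FIN_.hat_le ht (Wex.FIN_.meas_dl hg0.1)) (by positivity)))
            (Wex.FIN_.n2_le hh.1 (-c)))
      _ = 64 * C * vs f ^ θ *
          eLpNorm (fun y : ℝ × ℝ => E g (y.1, y.2, c)) (ENNReal.ofReal t) volume *
          eLpNorm h 2 volume := by
          rw [Wex.FIN_.norm_eq ht]
          ring

end TSL
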