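import Pool.Agent.TSL.Targets

/-!
# MP_5ab805_an, time slices with the `L^p` norm of `f`: targets, second part (helper15)

The optimal range of `p` for EVERY `s` resp. `t` (and `p = 2` included): besides the bounds of SPB
(`M^κ V^η` with `κ > 1/ρ - 1/2`, `η < 1 - 1/ρ`) there is the elementary bound `M^κ ‖f‖_2`,
`κ > 2/ρ - 1`, of SPC; the level set bound is at most the geometric means of both.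
-/

set_option autoImplicit false

namespace TSL

open MeasureTheory Set Filter
open scoped ENNReal NNReal Topology
open Pool.Agent.Restr (u E QQ)
open TriL (Sq n2)
open Wey (nq lam hat gup gdn blk Tk Sl Wi InD)
open Wex (Gs nu cf BB Ann Sep XX chk chp Par pw Cross sw del dm cell amal)

/-- TRS (with `Wex.cut : Wex.T_CUT`): the estimate on a slab from the triangle inequality, for all
`f` in `L²`.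

PROOF. `E (χ Gs s a) = ∑_(n ∈ s) E (χ Gs {n} a)` (`TriL.SUM_.E_sum`; `χ` is continuous and
bounded, `0` off `QQ`: `Wey.ASM_.wi_cont`, `wi_le`, `Wex.THK_.integrable_sq`), so
`XX s ≤ ∑_(n ∈ s) XX {n}` and by Cauchy-Schwarz `XX s ^ 2 ≤ #s ∑_(n ∈ s) XX {n} ^ 2`. For one `n` use
`Wex.cut` with `m = 1`, `α = n`, `β = n + 1` (`Finset.Ico n (n+1) = {n}`): `Sep` is trivial, `Ann 1`
with `P_0 = {n}` or `∅`, and `SQ φ ψ {n} a f (‖a n‖² n2 f)` holds: only the block `j = n / 2^i` is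
not zero, it is `∫ |f|² |a n|²` (`|u| = 1`), and `(i + 3)² ≥ 1`. -/
def T_TRS : Prop := ∀ ε : ℝ, 0 < ε → ∃ C : ℝ≥0, ∀ (φ ψ : ℤ → ℝ) (s : Finset ℤ) (a : ℤ → ℂ)
  (χ f : ℝ × ℝ → ℂ) (K : ℝ≥0) (k : ℕ), Wi K χ → (∀ x, x ∉ QQ → χ x = 0) → Sq f → Integrable f →
  ∫⁻ ξ in Sl k, XX φ ψ s a χ f ξ ^ 2 ≤
    C * (K : ℝ≥0∞) ^ 2 * ENNReal.ofReal (2 ^ ((-1 + ε) * k)) *
      (s.card * (n2 f * ∑ n ∈ s, ‖a n‖ₑ ^ 2))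

/-- ASB (from TRS): summation over the slabs. Variant of `Wex/ASM2.lean`.

PROOF. `m = #s ≥ 1`, `R² = n2 f * ∑ |a n|²` (`R : ℝ≥0`, finite). `Wex.p_INB`, `Wex.p_INT` with TRS;
the hypotheses are the lemmas `Wex.ASM2_.slab0`, `slab1`, `slab2` (stated for all finite `s`):
`n2 f * n2 (χ G) ≤ D K² R²` by `ASM_.n2_chi` and `Wex.sqb`. End: `ASM2_.fin1`, `ASM2_.fin2`.
`f` is integrable by `TriL.SUM_.integrable_of_Sq`. `eLpNorm f 2 = (n2 f)^(1/2)`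
(`Wex.LEV_.eLp2`). -/
def T_ASB : Prop := ∀ ρ κ μ ν : ℝ, Par ρ κ μ ν → ∃ C : ℝ≥0, ∀ (φ ψ : ℤ → ℝ)
  (s : Finset ℤ) (a : ℤ → ℂ) (χ f : ℝ × ℝ → ℂ) (K : ℝ≥0), Sep φ ψ s → s.Nonempty → Wi K χ →
  (∀ x, x ∉ QQ → χ x = 0) → Sq f → n2 f < ∞ →
    eLpNorm (fun ξ => E f ξ * E (fun x => χ x * Gs φ ψ s a x) ξ)
      (ENNReal.ofReal ρ) volume ≤ C * K * (pw s.card (κ / ρ) * eLpNorm f 2 volume) *
        (∑ n ∈ s, ‖a n‖ₑ ^ 2) ^ (1 / 2 : ℝ) ∧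
    ∀ g : ℝ × ℝ → ℂ, Sq g →
    eLpNorm (fun ξ => E f ξ * E g ξ * E (fun x => χ x * Gs φ ψ s a x) ξ)
      (ENNReal.ofReal μ) volume ≤ C * K * (pw s.card (ν / μ) * eLpNorm f 2 volume) *
        (∑ n ∈ s, ‖a n‖ₑ ^ 2) ^ (1 / 2 : ℝ) * eLpNorm g 2 volume

/-- SPC (from ASB): spectrum in the union of finitely many cells. As SPB in `Targets.lean`.

PROOF. As SPB: `S` empty is trivial; enumeration of `S` by integers; exponents: `κ₀` with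
`2 - ρ < κ₀ ≤ ρ - 1`, `κ₀/ρ ≤ κ` (`(2-ρ)/ρ = 2/ρ - 1`), `ν₀` with `2 - 3μ/2 < ν₀ ≤ μ/2`, `ν₀/μ ≤ ν`
(`(2-3μ/2)/μ = 2/μ - 3/2`). Then `Wex.THK_.main` with `A = E f` resp. `A = E f * E g`, `C = 1`:
`E f (ξ + w) = E f_w ξ` (`THK_.shift`), `|f_w| = |f|`, so the `L²` norms are the same. -/
def T_SPC : Prop := ∀ ρ κ μ ν : ℝ, 3 / 2 < ρ → ρ < 2 → 2 / ρ - 1 < κ → 1 < μ → μ < 4 / 3 →
  2 / μ - 3 / 2 < ν → ∃ C : ℝ≥0, ∀ (χ γ : ℝ × ℝ → ℂ) (K : ℝ≥0) (S : Finset (ℤ × ℤ)), Wi K χ →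
  (∀ x, x ∉ QQ → χ x = 0) → Measurable γ → Integrable γ →
  (∀ y : ℝ × ℝ, (∀ k ∈ S, y ∉ cell k) → γ y = 0) →
  ∀ f : ℝ × ℝ → ℂ, Sq f → n2 f < ∞ →
    eLpNorm (fun ξ => E f ξ * E (fun x => χ x * chk γ x) ξ)
      (ENNReal.ofReal ρ) volume ≤ C * K * eLpNorm f 2 volume * pw S.card κ * eLpNorm γ 2 volume ∧
    ∀ g : ℝ × ℝ → ℂ, Sq g →
    eLpNorm (fun ξ => E f ξ * E g ξ * E (fun x => χ x * chk γ x) ξ)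
      (ENNReal.ofReal μ) volume ≤
      C * K * eLpNorm f 2 volume * pw S.card ν * eLpNorm γ 2 volume * eLpNorm g 2 volume

/-- admissible `(ρ, s, η)` and `(μ, t, θ)` -/
def Adm (ρ s η μ t θ : ℝ) : Prop :=
  (3 / 2 < ρ ∧ ρ < 2 ∧ 1 ≤ s ∧ s < ρ ∧ 0 ≤ η ∧ η < 1 / 2 ∧ η < 1 - 2 / ρ + 1 / s) ∧
    1 < μ ∧ μ < 4 / 3 ∧ 1 ≤ t ∧ 1 / μ - 1 / 4 < 1 / t ∧ 0 ≤ θ ∧ θ < 1 / 2 ∧
      θ < 3 / 2 - 2 / μ + 1 / t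

/-- LED (from SPB, SPC): level sets of the transform of `g`, `|f| ≤ 1`, all admissible exponents.

PROOF. `V = vs f ≤ 1`, `‖f‖_2 ≤ V^(1/2)`. Bilinear: choose `x` with
`max(1/ρ, η - 1 + 2/ρ) < x < min(1/s, 2/ρ - 1/2)` and `λ ∈ (0,1)` with
`x = (1-λ)/ρ + λ (2/ρ - 1/2)`; then `(1-λ)(1 - 1/ρ) + λ/2 = x + 1 - 2/ρ > η`. Choose
`κ₁ > 1/ρ - 1/2`, `η₁ < 1 - 1/ρ`, `κ₂ > 2/ρ - 1` so close that `κ = (1-λ) κ₁ + λ κ₂ < 1/s - 1/2` and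
`(1-λ) η₁ + λ/2 ≥ η`. By SPB and SPC the norm is at most
`(C K V^η₁ M^κ₁ ‖γ‖)^(1-λ) (C K V^(1/2) M^κ₂ ‖γ‖)^λ ≤ C K V^η M^κ ‖γ‖`; then
`Wex.LEV_.assemble` as in `p_LEV`. Trilinear: the same with
`max(1/μ - 1/4, θ - 3/2 + 2/μ) < x < min(1/t, 2/μ - 1)`. -/
def T_LED : Prop := ∀ ρ s η μ t θ : ℝ, Adm ρ s η μ t θ → ∃ C : ℝ≥0,
  ∀ (χ γ : ℝ × ℝ → ℂ) (K : ℝ≥0) (S : Finset (ℤ × ℤ)),
  Wi K χ → (∀ x, x ∉ QQ → χ x = 0) → Measurable γ → Integrable γ →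
  ∫⁻ y, ‖γ y‖ₑ ^ 2 < ∞ → (∀ y : ℝ × ℝ, (∀ k ∈ S, y ∉ cell k) → γ y = 0) →
  ∀ f : ℝ × ℝ → ℂ, Sq f → (∀ x, ‖f x‖ ≤ 1) →
    eLpNorm (fun ξ => E f ξ * E (fun x => χ x * chk γ x) ξ)
      (ENNReal.ofReal ρ) volume ≤ C * K * vs f ^ η * amal s γ ∧
    ∀ g : ℝ × ℝ → ℂ, Sq g →
    eLpNorm (fun ξ => E f ξ * E g ξ * E (fun x => χ x * chk γ x) ξ)
      (ENNReal.ofReal μ) volume ≤ C * K * vs f ^ θ * amal t γ * eLpNorm g 2 volume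

/-- LEC (from SPC): level sets of the transform of `g`, `f` in `L²`. As `p_LEV`
(`Wex.LEV_.assemble`), with `κ` between `2/ρ - 1` and `1/s - 1/2`, `ν` between `2/μ - 3/2` and
`1/t - 1/2`. -/
def T_LEC : Prop := ∀ ρ s μ t : ℝ, 3 / 2 < ρ → ρ < 2 → 1 ≤ s → 2 / ρ - 1 / 2 < 1 / s → 1 < μ →
  μ < 4 / 3 → 1 ≤ t → 2 / μ - 1 < 1 / t → ∃ C : ℝ≥0,
  ∀ (χ γ : ℝ × ℝ → ℂ) (K : ℝ≥0) (S : Finset (ℤ × ℤ)),
  Wi K χ → (∀ x, x ∉ QQ → χ x = 0) → Measurable γ → Integrable γ →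
  ∫⁻ y, ‖γ y‖ₑ ^ 2 < ∞ → (∀ y : ℝ × ℝ, (∀ k ∈ S, y ∉ cell k) → γ y = 0) →
  ∀ f : ℝ × ℝ → ℂ, Sq f → n2 f < ∞ →
    eLpNorm (fun ξ => E f ξ * E (fun x => χ x * chk γ x) ξ)
      (ENNReal.ofReal ρ) volume ≤ C * K * eLpNorm f 2 volume * amal s γ ∧
    ∀ g : ℝ × ℝ → ℂ, Sq g →
    eLpNorm (fun ξ => E f ξ * E g ξ * E (fun x => χ x * chk γ x) ξ)
      (ENNReal.ofReal μ) volume ≤ C * K * eLpNorm f 2 volume * amal t γ * eLpNorm g 2 volume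

end TSL
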