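import Pool.Agent.TSL.FNA
import Pool.Agent.TSL.Targets2

/-!
# MP_5ab805_an, TSL-GEN: from level sets of the transform to the disc, general form (helper15)
-/

set_option autoImplicit false

namespace TSL

open MeasureTheory Set Filter
open scoped ENNReal NNReal Topology
open Pool.Agent.Restr (u E QQ)
open TriL (Sq n2)
open Wey (nq lam hat gup gdn blk Tk Sl Wi InD)
open Wex (Gs nu cf BB Ann Sep XX chk chp Par pw Cross sw del dm cell amal)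

namespace GEN_

open Wex.FI0_ in
/-- from level sets of the transform to functions on the small square, time zero -/
theorem small : ∃ (χ : ℝ × ℝ → ℂ) (K : ℝ≥0), Wi K χ ∧ (∀ x, x ∉ QQ → χ x = 0) ∧
    ∀ s : ℝ, 1 ≤ s → s ≤ 2 → ∃ C : ℝ≥0, ∀ (r D : ℝ≥0∞) (w : ℝ × ℝ × ℝ → ℂ), Measurable w →
      (∀ (γ : ℝ × ℝ → ℂ) (S : Finset (ℤ × ℤ)), Measurable γ → Integrable γ →
        ∫⁻ y, ‖γ y‖ₑ ^ 2 < ∞ → (∀ y : ℝ × ℝ, (∀ k ∈ S, y ∉ cell k) → γ y = 0) →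
        eLpNorm (fun ξ => w ξ * E (fun x => χ x * chk γ x) ξ) r volume ≤ D * amal s γ) →
      ∀ g : ℝ × ℝ → ℂ, Measurable g → Integrable g →
        (∀ x : ℝ × ℝ, (1 / 4 < |x.1| ∨ 1 / 4 < |x.2|) → g x = 0) →
        eLpNorm (fun ξ => w ξ * E g ξ) r volume ≤
          C * D * (∫⁻ y, ‖hat g y‖ₑ ^ s) ^ (1 / s) := by
  obtain ⟨χ, K, hχ, hQ, hχ1, hlim⟩ := Wex.p_CHI
  refine ⟨χ, K, hχ, hQ, fun s hs hs2 => ?_⟩
  obtain ⟨C2, hC2⟩ := Wex.p_AMA s hs hs2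
  refine ⟨C2, fun r D w hw hb g hgm hgi hg0 => ?_⟩
  have hgS : Sq g := by
    refine ⟨hgm, fun x hx => ?_⟩
    refine hg0 x ?_
    by_contra hcon
    push Not at hcon
    refine hx ?_
    have e1 := abs_le.mp hcon.1
    have e2 := abs_le.mp hcon.2
    exact ⟨⟨by linarith [e1.1], by linarith [e1.2]⟩, by linarith [e2.1], by linarith [e2.2]⟩
  have hχg : (fun x => χ x * g x) = g := by
    funext x
    by_cases hx : 1 / 4 < |x.1| ∨ 1 / 4 < |x.2|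
    · rw [hg0 x hx, mul_zero]
    · push Not at hx
      rw [hχ1 x hx.1 hx.2, one_mul]
  have hlim' : ∀ ξ : ℝ × ℝ × ℝ, Tendsto (fun R : ℕ => E (fun x => χ x * chk (gR g R) x) ξ) atTop
      (𝓝 (4 * Real.pi ^ 2 * E g ξ)) := by
    intro ξ
    have h := hlim g hgm hgi ξ
    rw [hχg] at h
    refine h.congr fun R => ?_
    congr 1
  have ks : ∀ R : ℕ, amal s (gR g R) ≤ C2 * (∫⁻ y, ‖hat g y‖ₑ ^ s) ^ (1 / s) := fun R =>
    (amal_mono (by linarith) (gR_enorm_le g R)).trans (hC2 g hgS hgi)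
  have hmE : ∀ R : ℕ, Measurable (E (fun x => χ x * chk (gR g R) x)) := fun R =>
    Pool.Agent.Restr.measurable_E ((Wey.ASM_.wi_cont hχ).measurable.mul
      (Wex.LIM_.cont_chk (gR_int hgm R)).measurable)
  have hpi : (1 : ℝ) ≤ ‖(4 * Real.pi ^ 2 : ℂ)‖ := by
    have e1 : ‖(4 * Real.pi ^ 2 : ℂ)‖ = 4 * Real.pi ^ 2 := by
      rw [norm_mul, norm_pow, Complex.norm_real, Real.norm_eq_abs, sq_abs]
      norm_num
    rw [e1]
    nlinarith [Real.pi_gt_three]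
  have e1 : eLpNorm (fun ξ => w ξ * (4 * Real.pi ^ 2 * E g ξ)) r volume ≤
      D * (C2 * (∫⁻ y, ‖hat g y‖ₑ ^ s) ^ (1 / s)) := by
    refine Lp.eLpNorm_le_of_ae_tendsto (u := atTop)
      (f := fun (R : ℕ) ξ => w ξ * E (fun x => χ x * chk (gR g R) x) ξ)
      (Eventually.of_forall fun R => ?_)
      (fun R => (hw.mul (hmE R)).aestronglyMeasurable)
      (Eventually.of_forall fun ξ => (hlim' ξ).const_mul _)
    refine (hb (gR g R) (SS R) (gR_meas hgm R) (gR_int hgm R) (gR_n2 R) (gR_supp g R)).trans ?_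
    gcongr
    exact ks R
  have e2 : eLpNorm (fun ξ => w ξ * E g ξ) r volume ≤
      eLpNorm (fun ξ => w ξ * (4 * Real.pi ^ 2 * E g ξ)) r volume := by
    refine eLpNorm_mono fun ξ => ?_
    rw [norm_mul, norm_mul, norm_mul (4 * (Real.pi : ℂ) ^ 2)]
    refine mul_le_mul_of_nonneg_left ?_ (norm_nonneg _)
    exact le_mul_of_one_le_left (norm_nonneg _) hpi
  refine e2.trans (e1.trans (le_of_eq ?_))
  ring

/-- from the small square to the disc, at every time: bilinear -/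
theorem disc {P : (ℝ × ℝ → ℂ) → Prop} {N : (ℝ × ℝ → ℂ) → ℝ≥0∞}
    (hP : ∀ (c : ℝ) (f : ℝ × ℝ → ℂ), InD f → P f → P (Wex.FIN_.dl (chp c f)) ∧
      N (Wex.FIN_.dl (chp c f)) ≤ N f) (C : ℝ≥0) {s : ℝ} (hs : 1 ≤ s) (r : ℝ≥0∞)
    (hC : ∀ f g : ℝ × ℝ → ℂ, Sq f → P f → Measurable g → Integrable g →
      (∀ x : ℝ × ℝ, (1 / 4 < |x.1| ∨ 1 / 4 < |x.2|) → g x = 0) →
      eLpNorm (fun ξ => E f ξ * E g ξ) r volume ≤
        C * N f * (∫⁻ y, ‖hat g y‖ₑ ^ s) ^ (1 / s)) (c : ℝ) (f g : ℝ × ℝ → ℂ) (hf : InD f)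
    (hf1 : P f) (hg : InD g) :
    eLpNorm (fun ξ => E f ξ * E g ξ) r volume ≤
      64 * C * N f * eLpNorm (fun y : ℝ × ℝ => E g (y.1, y.2, c)) (ENNReal.ofReal s) volume := by
  have h2 := Wex.p_SHI
  by_cases hgi : Integrable g
  swap
  · have h0 : ∀ ξ, E g ξ = 0 := Wex.FIN_.E_zero hg.1 hgi
    simp only [h0, mul_zero]
    rw [eLpNorm_zero']
    exact zero_le
  have e1 : chp c (chp (-c) g) = g := Wex.FIN_.chp_chp c g
  have hf0 : InD (chp (-c) f) := Wex.FIN_.InD_chp _ hf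
  have hg0 : InD (chp (-c) g) := Wex.FIN_.InD_chp _ hg
  obtain ⟨hP1, hP2⟩ := hP (-c) f hf hf1
  have k1 := hC (Wex.FIN_.dl (chp (-c) f)) (Wex.FIN_.dl (chp (-c) g))
    (Wex.FIN_.Sq_dl hf0) hP1
    (Wex.FIN_.meas_dl hg0.1) (Wex.FIN_.int_dl (Wex.FIN_.int_chp _ hg.1 hgi))
    (Wex.FIN_.dl_zero hg0)
  have a1 := (h2 c r f f (chp (-c) g)).1
  rw [e1] at a1
  rw [a1]
  calc eLpNorm (fun ξ => E (chp (-c) f) ξ * E (chp (-c) g) ξ) r volume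
      ≤ 16 * eLpNorm (fun ξ => E (Wex.FIN_.dl (chp (-c) f)) ξ *
        E (Wex.FIN_.dl (chp (-c) g)) ξ) r volume :=
        Wex.FIN_.two _ (Wex.FIN_.meas_dl hf0.1) (Wex.FIN_.meas_dl hg0.1)
    _ ≤ 16 * (C * N (Wex.FIN_.dl (chp (-c) f)) *
        (∫⁻ y, ‖hat (Wex.FIN_.dl (chp (-c) g)) y‖ₑ ^ s) ^ (1 / s)) := by gcongr
    _ ≤ 64 * (C * N f * (∫⁻ y, ‖hat (chp (-c) g) y‖ₑ ^ s) ^ (1 / s)) :=
        mul_le_mul' (by norm_num) (mul_le_mul'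
          (mul_le_mul' le_rfl hP2) (ENNReal.rpow_le_rpow
          (Wex.FIN_.hat_le hs (Wex.FIN_.meas_dl hg0.1)) (by positivity)))
    _ = 64 * C * N f *
        eLpNorm (fun y : ℝ × ℝ => E g (y.1, y.2, c)) (ENNReal.ofReal s) volume := by
        rw [Wex.FIN_.norm_eq hs]
        ring

/-- from the small square to the disc, at every time: trilinear -/
theorem disc3 {P : (ℝ × ℝ → ℂ) → Prop} {N : (ℝ × ℝ → ℂ) → ℝ≥0∞}
    (hP : ∀ (c : ℝ) (f : ℝ × ℝ → ℂ), InD f → P f → P (Wex.FIN_.dl (chp c f)) ∧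
      N (Wex.FIN_.dl (chp c f)) ≤ N f) (C : ℝ≥0) {t : ℝ} (ht : 1 ≤ t) (r : ℝ≥0∞)
    (hC : ∀ f g h : ℝ × ℝ → ℂ, Sq f → P f → Measurable g → Integrable g →
      (∀ x : ℝ × ℝ, (1 / 4 < |x.1| ∨ 1 / 4 < |x.2|) → g x = 0) → Sq h →
      eLpNorm (fun ξ => E f ξ * E h ξ * E g ξ) r volume ≤
        C * N f * (∫⁻ y, ‖hat g y‖ₑ ^ t) ^ (1 / t) * eLpNorm h 2 volume) (c : ℝ)
    (f g h : ℝ × ℝ → ℂ) (hf : InD f) (hf1 : P f) (hg : InD g) (hh : InD h) :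
    eLpNorm (fun ξ => E f ξ * E h ξ * E g ξ) r volume ≤
      64 * C * N f * eLpNorm (fun y : ℝ × ℝ => E g (y.1, y.2, c)) (ENNReal.ofReal t) volume *
        eLpNorm h 2 volume := by
  have h2 := Wex.p_SHI
  by_cases hgi : Integrable g
  swap
  · have h0 : ∀ ξ, E g ξ = 0 := Wex.FIN_.E_zero hg.1 hgi
    simp only [h0, mul_zero]
    rw [eLpNorm_zero']
    exact zero_le
  have e1 : chp c (chp (-c) g) = g := Wex.FIN_.chp_chp c g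
  have hf0 : InD (chp (-c) f) := Wex.FIN_.InD_chp _ hf
  have hg0 : InD (chp (-c) g) := Wex.FIN_.InD_chp _ hg
  have hh0 : InD (chp (-c) h) := Wex.FIN_.InD_chp _ hh
  obtain ⟨hP1, hP2⟩ := hP (-c) f hf hf1
  have k1 := hC (Wex.FIN_.dl (chp (-c) f)) (Wex.FIN_.dl (chp (-c) g))
    (Wex.FIN_.dl (chp (-c) h)) (Wex.FIN_.Sq_dl hf0) hP1
    (Wex.FIN_.meas_dl hg0.1) (Wex.FIN_.int_dl (Wex.FIN_.int_chp _ hg.1 hgi))
    (Wex.FIN_.dl_zero hg0) (Wex.FIN_.Sq_dl hh0)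
  have a1 := (h2 c r f h (chp (-c) g)).2
  rw [e1] at a1
  rw [a1]
  calc eLpNorm (fun ξ => E (chp (-c) f) ξ * E (chp (-c) h) ξ * E (chp (-c) g) ξ) r volume
      ≤ 64 * eLpNorm (fun ξ => E (Wex.FIN_.dl (chp (-c) f)) ξ *
        E (Wex.FIN_.dl (chp (-c) h)) ξ *
        E (Wex.FIN_.dl (chp (-c) g)) ξ) r volume :=
        Wex.FIN_.three _ (Wex.FIN_.meas_dl hf0.1) (Wex.FIN_.meas_dl hh0.1)
          (Wex.FIN_.meas_dl hg0.1)
    _ ≤ 64 * (C * N (Wex.FIN_.dl (chp (-c) f)) *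
        (∫⁻ y, ‖hat (Wex.FIN_.dl (chp (-c) g)) y‖ₑ ^ t) ^ (1 / t) *
        eLpNorm (Wex.FIN_.dl (chp (-c) h)) 2 volume) := by gcongr
    _ ≤ 64 * (C * N f * (∫⁻ y, ‖hat (chp (-c) g) y‖ₑ ^ t) ^ (1 / t) *
        eLpNorm h 2 volume) :=
        mul_le_mul' le_rfl (mul_le_mul' (mul_le_mul'
          (mul_le_mul' le_rfl hP2) (ENNReal.rpow_le_rpow
          (Wex.FIN_.hat_le ht (Wex.FIN_.meas_dl hg0.1)) (by positivity)))
          (Wex.FIN_.n2_le hh.1 (-c)))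
    _ = 64 * C * N f *
        eLpNorm (fun y : ℝ × ℝ => E g (y.1, y.2, c)) (ENNReal.ofReal t) volume *
        eLpNorm h 2 volume := by
        rw [Wex.FIN_.norm_eq ht]
        ring

theorem n2_lt {f : ℝ × ℝ → ℂ} : n2 f < ∞ ↔ eLpNorm f 2 volume < ∞ := by
  rw [Wex.LEV_.eLp2]
  unfold TriL.n2
  rw [ENNReal.rpow_lt_top_iff_of_pos (by norm_num)]

theorem P_one (η : ℝ) (hη : 0 ≤ η) (c : ℝ) (f : ℝ × ℝ → ℂ) (hf : InD f)
    (h : ∀ x, ‖f x‖ ≤ 1) : (∀ x, ‖Wex.FIN_.dl (chp c f) x‖ ≤ 1) ∧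
      vs (Wex.FIN_.dl (chp c f)) ^ η ≤ vs f ^ η := by
  refine ⟨fun x => ?_, ENNReal.rpow_le_rpow (FNA_.vs_le c hf.1) hη⟩
  unfold Wex.FIN_.dl
  rw [Wex.FIN_.norm_chp]
  exact h _

theorem P_two (c : ℝ) (f : ℝ × ℝ → ℂ) (hf : InD f)
    (h : n2 f < ∞) : n2 (Wex.FIN_.dl (chp c f)) < ∞ ∧
      eLpNorm (Wex.FIN_.dl (chp c f)) 2 volume ≤ eLpNorm f 2 volume := by
  have h1 := Wex.FIN_.n2_le hf.1 c
  exact ⟨n2_lt.2 (h1.trans_lt (n2_lt.1 h)), h1⟩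

end GEN_

end TSL
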