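import Pool.Agent.TSL.Targets

/-!
# MP_5ab805_an, TSL: KNB (helper49)

Necessary conditions on the exponent `p`.
-/

set_option autoImplicit false

namespace TSL

open MeasureTheory Set Filter
open scoped ENNReal NNReal Topology
open Pool.Agent.Restr (u E QQ)
open TriL (Sq n2)
open Wey (nq lam hat gup gdn blk Tk Sl Wi InD)
open Wex (Gs nu cf BB Ann Sep XX chk chp Par pw Cross sw del dm cell amal)

namespace KNB_

/-- the norm of the Knapp example -/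
theorem norm_p (J : ℕ) (hJ : 2 ≤ J) {p : ℝ} (hp : 1 ≤ p) :
    eLpNorm (fun x => (J : ℂ) ^ 2 * Wex.pyr (2 * J) x) (ENNReal.ofReal p) volume ≤
      ENNReal.ofReal ((J : ℝ) ^ (2 - 2 / p)) := by
  have hJ' : (2 : ℝ) ≤ J := by exact_mod_cast hJ
  have hJ0 : (0 : ℝ) < J := by linarith
  have hp0 : 0 < p := by linarith
  have h1 : ∀ x : ℝ × ℝ, ‖(J : ℂ) ^ 2 * Wex.pyr (2 * J) x‖ ≤
      ‖(Wex.KNA_.sqr (1 / (2 * (J : ℝ)))).indicator (fun _ => (J : ℝ) ^ 2) x‖ := by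
    intro x
    by_cases hx : x ∈ Wex.KNA_.sqr (1 / (2 * (J : ℝ)))
    · rw [indicator_of_mem hx, norm_mul]
      unfold Wex.pyr
      rw [Complex.norm_real, norm_pow, Complex.norm_natCast, Real.norm_eq_abs, Real.norm_eq_abs]
      have h2 : |Wex.tent (2 * J) x.1 * Wex.tent (2 * J) x.2| ≤ 1 := by
        rw [abs_of_nonneg (mul_nonneg (Wex.KNA_.tent_nonneg _ _) (Wex.KNA_.tent_nonneg _ _))]
        exact mul_le_one₀ (Wex.KNA_.tent_le _ _ (by positivity)) (Wex.KNA_.tent_nonneg _ _)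
          (Wex.KNA_.tent_le _ _ (by positivity))
      have h3 : |(J : ℝ) ^ 2| = (J : ℝ) ^ 2 := abs_of_nonneg (by positivity)
      rw [h3]
      calc (J : ℝ) ^ 2 * |Wex.tent (2 * J) x.1 * Wex.tent (2 * J) x.2| ≤ (J : ℝ) ^ 2 * 1 := by
            gcongr
        _ = (J : ℝ) ^ 2 := mul_one _
    · rw [indicator_of_notMem hx]
      unfold Wex.pyr
      rw [Wex.KNA_.pyr_zero J (by linarith) x hx]
      simp
  calc eLpNorm (fun x => (J : ℂ) ^ 2 * Wex.pyr (2 * J) x) (ENNReal.ofReal p) volume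
      ≤ eLpNorm ((Wex.KNA_.sqr (1 / (2 * (J : ℝ)))).indicator (fun _ => (J : ℝ) ^ 2))
          (ENNReal.ofReal p) volume := eLpNorm_mono h1
    _ ≤ ‖(J : ℝ) ^ 2‖ₑ * volume (Wex.KNA_.sqr (1 / (2 * (J : ℝ)))) ^
          (1 / (ENNReal.ofReal p).toReal) := eLpNorm_indicator_const_le _ _
    _ = ENNReal.ofReal ((J : ℝ) ^ (2 - 2 / p)) := by
        rw [Wex.KNA_.sqr_vol, show 2 * (1 / (2 * (J : ℝ))) = 1 / J by field_simp,
          ENNReal.toReal_ofReal hp0.le, ← ENNReal.ofReal_mul (by positivity),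
          ENNReal.ofReal_rpow_of_nonneg (by positivity) (by positivity),
          Real.enorm_eq_ofReal (by positivity), ← ENNReal.ofReal_mul (by positivity)]
        congr 1
        have e1 : (1 / (J : ℝ) * (1 / J)) = (J : ℝ) ^ (-2 : ℝ) := by
          rw [Real.rpow_neg hJ0.le]
          norm_num
          field_simp
        rw [e1, ← Real.rpow_mul hJ0.le, ← Real.rpow_natCast (J : ℝ) 2, ← Real.rpow_add hJ0]
        congr 1
        push_cast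
        ring

theorem memLp (J : ℕ) (hJ : 2 ≤ J) {p : ℝ} (hp : 1 ≤ p) :
    MemLp (fun x => (J : ℂ) ^ 2 * Wex.pyr (2 * J) x) (ENNReal.ofReal p) volume :=
  ⟨(measurable_const.mul (Wex.KNA_.pyr_cont _).measurable).aestronglyMeasurable,
    (norm_p J hJ hp).trans_lt ENNReal.ofReal_lt_top⟩

/-- lower bound of a norm by the values on `YY` -/
theorem low {J : ℕ} {ρ κ : ℝ} (hρ : 1 ≤ ρ) (hκ : 0 ≤ κ) (F : ℝ × ℝ × ℝ → ℂ)
    (h1 : ∀ ξ ∈ Wex.YY J, κ ≤ ‖F ξ‖) :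
    ENNReal.ofReal (κ * ((J : ℝ) ^ 4 / 512) ^ (1 / ρ)) ≤
      eLpNorm F (ENNReal.ofReal ρ) volume := by
  have hρ0 : 0 < ρ := by linarith
  have h2 : ∀ ξ, ‖(Wex.YY J).indicator (fun _ => κ) ξ‖ ≤ ‖F ξ‖ := by
    intro ξ
    by_cases hξ : ξ ∈ Wex.YY J
    · rw [indicator_of_mem hξ, Real.norm_of_nonneg hκ]
      exact h1 ξ hξ
    · rw [indicator_of_notMem hξ, norm_zero]
      exact norm_nonneg _
  refine le_trans (le_of_eq ?_) (eLpNorm_mono (p := ENNReal.ofReal ρ) (μ := volume) h2)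
  rw [eLpNorm_indicator_const (Wex.AVE_.measurableSet_YY J) (by simpa using hρ0)
    ENNReal.ofReal_ne_top, Wex.AVE_.vol_YY, ENNReal.toReal_ofReal hρ0.le,
    ENNReal.ofReal_rpow_of_nonneg (by positivity) (by positivity),
    Real.enorm_eq_ofReal hκ, ← ENNReal.ofReal_mul hκ]

theorem pow4 {P ρ : ℝ} (hP : 0 < P) :
    (P ^ 4 / 512) ^ (1 / ρ) = (1 / 512 : ℝ) ^ (1 / ρ) * P ^ (4 / ρ) := by
  have e1 : P ^ 4 / 512 = (1 / 512 : ℝ) * P ^ (4 : ℝ) := by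
    rw [show (4 : ℝ) = ((4 : ℕ) : ℝ) by norm_num, Real.rpow_natCast]
    ring
  rw [e1, Real.mul_rpow (by norm_num) (by positivity), ← Real.rpow_mul hP.le]
  congr 2
  ring

end KNB_

theorem p_KNB : T_KNB := by
  obtain ⟨c₁, hc₁, hK⟩ := Wex.p_KNA
  have hS : Wex.T_SLN := Wex.p_SLN Wex.p_TEN
  constructor
  · intro ρ s p hρ hs hp hyp
    obtain ⟨C, hC⟩ := hyp
    obtain ⟨C₂, hC₂⟩ := hS s hs
    have key : 4 / ρ ≤ 2 - 2 / p + 2 / s := by
      apply Wex.NEC_.exponents (A := c₁ * c₁ * (1 / 512 : ℝ) ^ (1 / ρ))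
        (K := (C : ℝ) * C₂) (b := 0) (n₀ := 1) (by positivity)
      intro n hn
      have hJ : 2 ≤ 2 ^ n := by
        calc 2 = 2 ^ 1 := rfl
          _ ≤ 2 ^ n := Nat.pow_le_pow_right (by norm_num) hn
      obtain ⟨k1, k2, k3, k4⟩ := hK (2 ^ n) hJ
      have hP : (0 : ℝ) < (2 : ℝ) ^ n := by positivity
      have hcast : (((2 ^ n : ℕ) : ℝ)) = (2 : ℝ) ^ n := by push_cast; ring
      have h5 := KNB_.low (J := 2 ^ n) (κ := c₁ * c₁) hρ (by positivity)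
        (fun ξ => E (fun x => ((2 ^ n : ℕ) : ℂ) ^ 2 * Wex.pyr (2 * ((2 ^ n : ℕ) : ℝ)) x) ξ *
          E (fun x => ((2 ^ n : ℕ) : ℂ) ^ 2 * Wex.pyr (2 * ((2 ^ n : ℕ) : ℝ)) x) ξ)
        (by
          intro ξ hξ
          rw [norm_mul]
          exact mul_le_mul (k4 ξ hξ).1 (k4 ξ hξ).1 hc₁.le (norm_nonneg _))
      have h6 := h5.trans (hC _ _ k1 (KNB_.memLp (2 ^ n) hJ hp) k1)
      have h7 := KNB_.norm_p (2 ^ n) hJ hp
      have h8 := hC₂ (2 ^ n) hJ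
      have h9 : ENNReal.ofReal (c₁ * c₁ * ((((2 ^ n : ℕ) : ℝ)) ^ 4 / 512) ^ (1 / ρ)) ≤
          ENNReal.ofReal ((C : ℝ) * ((((2 ^ n : ℕ) : ℝ)) ^ (2 - 2 / p)) *
            (C₂ * (((2 ^ n : ℕ) : ℝ)) ^ (2 / s))) := by
        refine h6.trans ?_
        rw [ENNReal.ofReal_mul (by positivity), ENNReal.ofReal_mul (by positivity),
          ENNReal.ofReal_mul (by positivity)]
        simp only [ENNReal.ofReal_coe_nnreal]
        gcongr
      rw [ENNReal.ofReal_le_ofReal_iff (by positivity), hcast, KNB_.pow4 hP] at h9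
      rw [neg_zero, Real.rpow_zero, mul_one, Real.rpow_add hP]
      calc c₁ * c₁ * (1 / 512 : ℝ) ^ (1 / ρ) * ((2 : ℝ) ^ n) ^ (4 / ρ)
          = c₁ * c₁ * ((1 / 512 : ℝ) ^ (1 / ρ) * ((2 : ℝ) ^ n) ^ (4 / ρ)) := by ring
        _ ≤ _ := h9
        _ = _ := by ring
    have e1 : 4 / ρ = 2 * (2 / ρ) := by ring
    have e2 : 2 / p = 2 * (1 / p) := by ring
    have e3 : 2 / s = 2 * (1 / s) := by ring
    rw [e1, e2, e3] at key
    linarith
  · intro μ t p hμ ht hp hyp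
    obtain ⟨C, hC⟩ := hyp
    obtain ⟨C₂, hC₂⟩ := hS t ht
    have key : 4 / μ - 1 ≤ 2 - 2 / p + 2 / t := by
      apply Wex.NEC_.exponents (A := c₁ * c₁ * c₁ * (1 / 512 : ℝ) ^ (1 / μ))
        (K := (C : ℝ) * C₂) (b := 0) (n₀ := 1) (by positivity)
      intro n hn
      have hJ : 2 ≤ 2 ^ n := by
        calc 2 = 2 ^ 1 := rfl
          _ ≤ 2 ^ n := Nat.pow_le_pow_right (by norm_num) hn
      obtain ⟨k1, k2, k3, k4⟩ := hK (2 ^ n) hJ
      have hP : (0 : ℝ) < (2 : ℝ) ^ n := by positivity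
      have hcast : (((2 ^ n : ℕ) : ℝ)) = (2 : ℝ) ^ n := by push_cast; ring
      have h5 := KNB_.low (J := 2 ^ n) (κ := c₁ * (c₁ / ((2 ^ n : ℕ) : ℝ)) * c₁) hμ
        (by positivity)
        (fun ξ => E (fun x => ((2 ^ n : ℕ) : ℂ) ^ 2 * Wex.pyr (2 * ((2 ^ n : ℕ) : ℝ)) x) ξ *
          E (fun x => ((2 ^ n : ℕ) : ℂ) * Wex.pyr (2 * ((2 ^ n : ℕ) : ℝ)) x) ξ *
          E (fun x => ((2 ^ n : ℕ) : ℂ) ^ 2 * Wex.pyr (2 * ((2 ^ n : ℕ) : ℝ)) x) ξ)
        (by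
          intro ξ hξ
          rw [norm_mul, norm_mul]
          have a0 : 0 ≤ c₁ / ((2 ^ n : ℕ) : ℝ) := by positivity
          exact mul_le_mul (mul_le_mul (k4 ξ hξ).1 (k4 ξ hξ).2 a0 (norm_nonneg _))
            (k4 ξ hξ).1 hc₁.le (mul_nonneg (norm_nonneg _) (norm_nonneg _)))
      have h6 := h5.trans (hC _ _ _ k1 (KNB_.memLp (2 ^ n) hJ hp) k2 k1)
      have h7 := KNB_.norm_p (2 ^ n) hJ hp
      have h8 := hC₂ (2 ^ n) hJ
      have h9 : ENNReal.ofReal (c₁ * (c₁ / ((2 ^ n : ℕ) : ℝ)) * c₁ *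
            ((((2 ^ n : ℕ) : ℝ)) ^ 4 / 512) ^ (1 / μ)) ≤
          ENNReal.ofReal ((C : ℝ) * ((((2 ^ n : ℕ) : ℝ)) ^ (2 - 2 / p)) *
            (C₂ * (((2 ^ n : ℕ) : ℝ)) ^ (2 / t))) := by
        refine h6.trans ?_
        rw [ENNReal.ofReal_mul (by positivity), ENNReal.ofReal_mul (by positivity),
          ENNReal.ofReal_mul (by positivity)]
        simp only [ENNReal.ofReal_coe_nnreal]
        calc _ ≤ (C : ℝ≥0∞) * ENNReal.ofReal ((((2 ^ n : ℕ) : ℝ)) ^ (2 - 2 / p)) * 1 *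
              (C₂ * ENNReal.ofReal ((((2 ^ n : ℕ) : ℝ)) ^ (2 / t))) := by gcongr
          _ = _ := by rw [mul_one]
      rw [ENNReal.ofReal_le_ofReal_iff (by positivity), hcast, KNB_.pow4 hP] at h9
      rw [neg_zero, Real.rpow_zero, mul_one, Real.rpow_add hP, Real.rpow_sub hP,
        Real.rpow_one]
      calc c₁ * c₁ * c₁ * (1 / 512 : ℝ) ^ (1 / μ) * (((2 : ℝ) ^ n) ^ (4 / μ) / (2 : ℝ) ^ n)
          = c₁ * (c₁ / (2 : ℝ) ^ n) * c₁ *
            ((1 / 512 : ℝ) ^ (1 / μ) * ((2 : ℝ) ^ n) ^ (4 / μ)) := by ring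
        _ ≤ _ := h9
        _ = _ := by ring
    have e1 : 4 / μ = 2 * (2 / μ) := by ring
    have e2 : 2 / p = 2 * (1 / p) := by ring
    have e3 : 2 / t = 2 * (1 / t) := by ring
    rw [e1, e2, e3] at key
    linarith

end TSL
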