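import Pool.Agent.TSL.Targets

/-!
# MP_5ab805_an, LEB: level sets of the transform of `g` (variant of `Wex/LEV.lean`)
-/

set_option autoImplicit false

namespace TSL

open MeasureTheory Set Filter
open scoped ENNReal NNReal Topology
open Pool.Agent.Restr (u E QQ)
open TriL (Sq n2)
open Wey (nq lam hat gup gdn blk Tk Sl Wi InD)
open Wex (Gs nu cf BB Ann Sep XX chk chp Par pw Cross sw del dm cell amal)

/-- LEB. -/
theorem p_LEB (hSPB : T_SPB) : T_LEB := by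
  intro ρ s η μ t θ hρ hρ2 hs hsρ hη hη1 hμ hμ2 ht htμ hθ hθ1
  have hs0 : 0 < s := by linarith
  have ht0 : 0 < t := by linarith
  have hρs : 1 / ρ < 1 / s := one_div_lt_one_div_of_lt hs0 hsρ
  have hρ3 : 1 / 2 < 1 / ρ := one_div_lt_one_div_of_lt (by linarith) hρ2
  have hμ3 : 3 / 4 < 1 / μ := by
    rw [lt_one_div (by norm_num) (by linarith)]
    linarith
  obtain ⟨κ, hκ1, hκ2⟩ : ∃ κ, 1 / ρ - 1 / 2 < κ ∧ κ < 1 / s - 1 / 2 :=
    exists_between (by linarith)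
  obtain ⟨ν, hν1, hν2⟩ : ∃ ν, 1 / μ - 3 / 4 < ν ∧ ν < 1 / t - 1 / 2 :=
    exists_between (by linarith)
  have hsκ : s * (κ + 1 / 2) < 1 := by
    have h2 : κ + 1 / 2 < 1 / s := by linarith
    calc s * (κ + 1 / 2) < s * (1 / s) := by gcongr
      _ = 1 := mul_one_div_cancel hs0.ne'
  have htν : t * (ν + 1 / 2) < 1 := by
    have h2 : ν + 1 / 2 < 1 / t := by linarith
    calc t * (ν + 1 / 2) < t * (1 / t) := by gcongr
      _ = 1 := mul_one_div_cancel ht0.ne'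
  obtain ⟨C₀, hC₀⟩ := hSPB ρ κ η μ ν θ hρ hρ2 hκ1 hη hη1 hμ hμ2 hν1 hθ hθ1
  obtain ⟨C₁, hC₁⟩ := Wex.LEV_.assemble hs (by linarith) hsκ
  obtain ⟨C₂, hC₂⟩ := Wex.LEV_.assemble ht (by linarith) htν
  refine ⟨(C₁ + C₂) * C₀, fun χ γ K S hχ hQ hm hi h2 h0 f hf hf1 => ⟨?_, fun g hg => ?_⟩⟩
  · refine (hC₁ χ γ K S (E f) (ENNReal.ofReal ρ) (C₀ * K * vs f ^ η) hχ hQ hm hi h2 h0
      (Pool.Agent.Restr.measurable_E hf.1) ?_ fun T δ hδm hδi hδ0 => ?_).trans ?_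
    · exact ENNReal.one_le_ofReal.2 (by linarith)
    · exact (hC₀ χ δ K T hχ hQ hδm hδi hδ0 f hf hf1).1
    · calc (C₁ : ℝ≥0∞) * (C₀ * K * vs f ^ η) * amal s γ ≤
            (C₁ + C₂) * (C₀ * K * vs f ^ η) * amal s γ := by
            gcongr
            exact le_self_add
        _ = _ := by push_cast; ring
  · refine (hC₂ χ γ K S (fun ξ => E f ξ * E g ξ) (ENNReal.ofReal μ)
      (C₀ * K * vs f ^ θ * eLpNorm g 2 volume) hχ hQ hm hi h2 h0
      ((Pool.Agent.Restr.measurable_E hf.1).mul (Pool.Agent.Restr.measurable_E hg.1)) ?_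
      fun T δ hδm hδi hδ0 => ?_).trans ?_
    · exact ENNReal.one_le_ofReal.2 (by linarith)
    · refine ((hC₀ χ δ K T hχ hQ hδm hδi hδ0 f hf hf1).2 g hg).trans (le_of_eq ?_)
      ring
    · calc (C₂ : ℝ≥0∞) * (C₀ * K * vs f ^ θ * eLpNorm g 2 volume) * amal t γ ≤
            (C₁ + C₂) * (C₀ * K * vs f ^ θ * eLpNorm g 2 volume) * amal t γ := by
            gcongr
            exact le_add_self
        _ = _ := by push_cast; ring

end TSL
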