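import Pool.Agent.TSL.GEN

/-!
# MP_5ab805_an, TSL-TOP: the theorem for all `f` in `L^p`, optimal range of `p` (helper15)
-/

set_option autoImplicit false

namespace TSL

open MeasureTheory Set Filter
open scoped ENNReal NNReal Topology
open Pool.Agent.Restr (u E QQ)
open TriL (Sq n2)
open Wey (nq lam hat gup gdn blk Tk Sl Wi InD)
open Wex (Gs nu cf BB Ann Sep XX chk chp Par pw Cross sw del dm cell amal)

/-- the theorem: all `f` in `L^p`, all `p ≥ 2` with `1/p < 1 - 2/ρ + 1/s`, resp.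
`1/p < 3/2 - 2/μ + 1/t` -/
def T_TOP : Prop :=
  (∀ ρ s p : ℝ, 3 / 2 < ρ → ρ < 2 → 1 ≤ s → s < ρ → 2 ≤ p → 1 / p < 1 - 2 / ρ + 1 / s →
    ∃ C : ℝ≥0, ∀ (c : ℝ) (f g : ℝ × ℝ → ℂ), InD f → MemLp f (ENNReal.ofReal p) volume → InD g →
      eLpNorm (fun ξ => E f ξ * E g ξ) (ENNReal.ofReal ρ) volume ≤
        C * eLpNorm f (ENNReal.ofReal p) volume *
          eLpNorm (fun y : ℝ × ℝ => E g (y.1, y.2, c)) (ENNReal.ofReal s) volume) ∧
  (∀ μ t p : ℝ, 1 < μ → μ < 4 / 3 → 1 ≤ t → 1 / μ - 1 / 4 < 1 / t → 2 ≤ p →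
    1 / p < 3 / 2 - 2 / μ + 1 / t → ∃ C : ℝ≥0, ∀ (c : ℝ) (f g h : ℝ × ℝ → ℂ), InD f →
      MemLp f (ENNReal.ofReal p) volume → InD g → InD h →
      eLpNorm (fun ξ => E f ξ * E h ξ * E g ξ) (ENNReal.ofReal μ) volume ≤
        C * eLpNorm f (ENNReal.ofReal p) volume * eLpNorm h 2 volume *
          eLpNorm (fun y : ℝ × ℝ => E g (y.1, y.2, c)) (ENNReal.ofReal t) volume)

namespace TOP_

theorem t_le {μ t : ℝ} (hμ : 1 < μ) (hμ2 : μ < 4 / 3) (ht : 1 ≤ t)
    (h : 1 / μ - 1 / 4 < 1 / t) : t ≤ 2 := by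
  have e1 : 3 / 4 < 1 / μ := by
    rw [lt_div_iff₀ (by linarith)]
    linarith
  have e2 : 1 / 2 < 1 / t := by linarith
  rw [lt_div_iff₀ (by linarith)] at e2
  linarith

/-- `|f| ≤ 1`: from level sets to the disc -/
theorem one (h : T_LED) (ρ s η μ t θ : ℝ) (hA : Adm ρ s η μ t θ) : ∃ C : ℝ≥0,
    ∀ (c : ℝ) (f g : ℝ × ℝ → ℂ), InD f → (∀ x, ‖f x‖ ≤ 1) → InD g →
      eLpNorm (fun ξ => E f ξ * E g ξ) (ENNReal.ofReal ρ) volume ≤
        C * vs f ^ η * eLpNorm (fun y : ℝ × ℝ => E g (y.1, y.2, c)) (ENNReal.ofReal s)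
          volume ∧
      ∀ h : ℝ × ℝ → ℂ, InD h →
      eLpNorm (fun ξ => E f ξ * E h ξ * E g ξ) (ENNReal.ofReal μ) volume ≤
        C * vs f ^ θ * eLpNorm (fun y : ℝ × ℝ => E g (y.1, y.2, c)) (ENNReal.ofReal t)
          volume * eLpNorm h 2 volume := by
  obtain ⟨C1, hC1⟩ := h ρ s η μ t θ hA
  obtain ⟨⟨a1, a2, a3, a4, a5, a6, a7⟩, a8, a9, a10, a11, a12, a13, a14⟩ := hA
  obtain ⟨χ, K, hχ, hQ, hsm⟩ := GEN_.small
  obtain ⟨C2, hC2⟩ := hsm s a3 (by linarith)
  obtain ⟨C3, hC3⟩ := hsm t a10 (t_le a8 a9 a10 a11)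
  refine ⟨64 * (C2 * C1 * K + C3 * C1 * K), fun c f g hf hf1 hg => ⟨?_, fun h hh => ?_⟩⟩
  · have k := GEN_.disc (P := fun f => ∀ x, ‖f x‖ ≤ 1) (N := fun f => vs f ^ η)
      (GEN_.P_one η a5) (C2 * C1 * K) a3 (ENNReal.ofReal ρ) (fun f g hf hf1 hgm hgi hg0 => by
        refine (hC2 (ENNReal.ofReal ρ) (C1 * K * vs f ^ η) (E f)
          (Pool.Agent.Restr.measurable_E hf.1) (fun γ S hm hi h2 h0 =>
          (hC1 χ γ K S hχ hQ hm hi h2 h0 f hf hf1).1) g hgm hgi hg0).trans (le_of_eq ?_)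
        push_cast
        ring) c f g hf hf1 hg
    refine k.trans ?_
    push_cast
    gcongr
    exact le_self_add
  · have k := GEN_.disc3 (P := fun f => ∀ x, ‖f x‖ ≤ 1) (N := fun f => vs f ^ θ)
      (GEN_.P_one θ a12) (C3 * C1 * K) a10 (ENNReal.ofReal μ)
      (fun f g h hf hf1 hgm hgi hg0 hh => by
        refine (hC3 (ENNReal.ofReal μ) (C1 * K * vs f ^ θ * eLpNorm h 2 volume)
          (fun ξ => E f ξ * E h ξ) ((Pool.Agent.Restr.measurable_E hf.1).mul
          (Pool.Agent.Restr.measurable_E hh.1)) (fun γ S hm hi h2 h0 => by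
            refine ((hC1 χ γ K S hχ hQ hm hi h2 h0 f hf hf1).2 h hh).trans (le_of_eq ?_)
            ring) g hgm hgi hg0).trans (le_of_eq ?_)
        push_cast
        ring) c f g h hf hf1 hg hh
    refine k.trans ?_
    push_cast
    gcongr
    exact le_add_self

/-- `f` in `L²`: from level sets to the disc -/
theorem two (h : T_LEC) (ρ s μ t : ℝ) (a1 : 3 / 2 < ρ) (a2 : ρ < 2) (a3 : 1 ≤ s)
    (a4 : 2 / ρ - 1 / 2 < 1 / s) (a8 : 1 < μ) (a9 : μ < 4 / 3) (a10 : 1 ≤ t)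
    (a11 : 2 / μ - 1 < 1 / t) : ∃ C : ℝ≥0,
    ∀ (c : ℝ) (f g : ℝ × ℝ → ℂ), InD f → n2 f < ∞ → InD g →
      eLpNorm (fun ξ => E f ξ * E g ξ) (ENNReal.ofReal ρ) volume ≤
        C * eLpNorm f 2 volume *
          eLpNorm (fun y : ℝ × ℝ => E g (y.1, y.2, c)) (ENNReal.ofReal s) volume ∧
      ∀ h : ℝ × ℝ → ℂ, InD h →
      eLpNorm (fun ξ => E f ξ * E h ξ * E g ξ) (ENNReal.ofReal μ) volume ≤
        C * eLpNorm f 2 volume *
          eLpNorm (fun y : ℝ × ℝ => E g (y.1, y.2, c)) (ENNReal.ofReal t)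
          volume * eLpNorm h 2 volume := by
  obtain ⟨C1, hC1⟩ := h ρ s μ t a1 a2 a3 a4 a8 a9 a10 a11
  obtain ⟨χ, K, hχ, hQ, hsm⟩ := GEN_.small
  have hs2 : s ≤ 2 := by
    have e1 : 1 / 2 < 1 / ρ := one_div_lt_one_div_of_lt (by linarith) a2
    have e2 : 1 / 2 < 1 / s := by
      have : 2 / ρ = 2 * (1 / ρ) := by ring
      linarith
    rw [lt_div_iff₀ (by linarith)] at e2
    linarith
  have ht2 : t ≤ 2 := by
    have e1 : 3 / 4 < 1 / μ := by
      rw [lt_div_iff₀ (by linarith)]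
      linarith
    have e2 : 1 / 2 < 1 / t := by
      have : 2 / μ = 2 * (1 / μ) := by ring
      linarith
    rw [lt_div_iff₀ (by linarith)] at e2
    linarith
  obtain ⟨C2, hC2⟩ := hsm s a3 hs2
  obtain ⟨C3, hC3⟩ := hsm t a10 ht2
  refine ⟨64 * (C2 * C1 * K + C3 * C1 * K), fun c f g hf hf1 hg => ⟨?_, fun h hh => ?_⟩⟩
  · have k := GEN_.disc (P := fun f => n2 f < ∞) (N := fun f => eLpNorm f 2 volume)
      GEN_.P_two (C2 * C1 * K) a3 (ENNReal.ofReal ρ) (fun f g hf hf1 hgm hgi hg0 => by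
        refine (hC2 (ENNReal.ofReal ρ) (C1 * K * eLpNorm f 2 volume) (E f)
          (Pool.Agent.Restr.measurable_E hf.1) (fun γ S hm hi h2 h0 =>
          (hC1 χ γ K S hχ hQ hm hi h2 h0 f hf hf1).1) g hgm hgi hg0).trans (le_of_eq ?_)
        push_cast
        ring) c f g hf hf1 hg
    refine k.trans ?_
    push_cast
    gcongr
    exact le_self_add
  · have k := GEN_.disc3 (P := fun f => n2 f < ∞) (N := fun f => eLpNorm f 2 volume)
      GEN_.P_two (C3 * C1 * K) a10 (ENNReal.ofReal μ)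
      (fun f g h hf hf1 hgm hgi hg0 hh => by
        refine (hC3 (ENNReal.ofReal μ) (C1 * K * eLpNorm f 2 volume * eLpNorm h 2 volume)
          (fun ξ => E f ξ * E h ξ) ((Pool.Agent.Restr.measurable_E hf.1).mul
          (Pool.Agent.Restr.measurable_E hh.1)) (fun γ S hm hi h2 h0 => by
            refine ((hC1 χ γ K S hχ hQ hm hi h2 h0 f hf hf1).2 h hh).trans (le_of_eq ?_)
            ring) g hgm hgi hg0).trans (le_of_eq ?_)
        push_cast
        ring) c f g h hf hf1 hg hh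
    refine k.trans ?_
    push_cast
    gcongr
    exact le_add_self

theorem n2_of {f : ℝ × ℝ → ℂ} (hf : MemLp f (ENNReal.ofReal 2) volume) : n2 f < ∞ := by
  rw [GEN_.n2_lt]
  have h : ENNReal.ofReal 2 = 2 := by simp
  rw [h] at hf
  exact hf.2

end TOP_

open TOP_ in
theorem p_TOP (hLED : T_LED) (hLEC : T_LEC) (hSUP : T_SUP) : T_TOP := by
  constructor
  · intro ρ s p a1 a2 a3 a4 hp hp1
    have hs0 : 0 < s := by linarith
    rcases hp.eq_or_lt with rfl | hp2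
    · obtain ⟨C, hC⟩ := two hLEC ρ s (7 / 6) 1 a1 a2 a3 (by linarith) (by norm_num) (by norm_num)
        le_rfl (by norm_num)
      refine ⟨C, fun c f g hf hfp hg => ?_⟩
      have h := (hC c f g hf (n2_of hfp) hg).1
      have h2 : ENNReal.ofReal 2 = 2 := by simp
      rw [h2]
      exact h
    · have hp0 : 0 < p := by linarith
      have hp3 : 1 / p < 1 / 2 := one_div_lt_one_div_of_lt (by norm_num) hp2
      obtain ⟨η, hη1, hη2⟩ := exists_between (lt_min hp3 hp1)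
      rw [lt_min_iff] at hη2
      have hη0 : 0 < η := lt_trans (by positivity) hη1
      have hpη : 1 < p * η := by
        rw [div_lt_iff₀ hp0] at hη1
        linarith
      obtain ⟨C, hC⟩ := one hLED ρ s η (7 / 6) 1 0
        ⟨⟨a1, a2, a3, a4, hη0.le, hη2.1, hη2.2⟩, by norm_num, by norm_num, le_rfl,
          by norm_num, le_rfl, by norm_num, by norm_num⟩
      obtain ⟨C', hC'⟩ := hSUP p η (by linarith) hη0 hpη
      refine ⟨C' * C, fun c f g hf hfp hg => ?_⟩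
      have h := hC' ρ (C * eLpNorm (fun y : ℝ × ℝ => E g (y.1, y.2, c)) (ENNReal.ofReal s)
        volume) (E g) (by linarith) (Pool.Agent.Restr.measurable_E hg.1) (fun f hf hf1 => by
          refine (hC c f g hf hf1 hg).1.trans (le_of_eq ?_)
          ring) f hf hfp
      refine h.trans (le_of_eq ?_)
      push_cast
      ring
  · intro μ t p a1 a2 a3 a4 hp hp1
    have ht0 : 0 < t := by linarith
    rcases hp.eq_or_lt with rfl | hp2
    · obtain ⟨C, hC⟩ := two hLEC (7 / 4) 1 μ t (by norm_num) (by norm_num) le_rfl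
        (by norm_num) a1 a2 a3 (by linarith)
      refine ⟨C, fun c f g h hf hfp hg hh => ?_⟩
      have h1 := (hC c f g hf (n2_of hfp) hg).2 h hh
      have h2 : ENNReal.ofReal 2 = 2 := by simp
      rw [h2]
      refine h1.trans (le_of_eq ?_)
      ring
    · have hp0 : 0 < p := by linarith
      have hp3 : 1 / p < 1 / 2 := one_div_lt_one_div_of_lt (by norm_num) hp2
      obtain ⟨θ, hθ1, hθ2⟩ := exists_between (lt_min hp3 hp1)
      rw [lt_min_iff] at hθ2
      have hθ0 : 0 < θ := lt_trans (by positivity) hθ1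
      have hpθ : 1 < p * θ := by
        rw [div_lt_iff₀ hp0] at hθ1
        linarith
      obtain ⟨C, hC⟩ := one hLED (7 / 4) 1 0 μ t θ
        ⟨⟨by norm_num, by norm_num, le_rfl, by norm_num, le_rfl, by norm_num, by norm_num⟩,
          a1, a2, a3, a4, hθ0.le, hθ2.1, hθ2.2⟩
      obtain ⟨C', hC'⟩ := hSUP p θ (by linarith) hθ0 hpθ
      refine ⟨C' * C, fun c f g h hf hfp hg hh => ?_⟩
      have h1 := hC' μ (C * eLpNorm (fun y : ℝ × ℝ => E g (y.1, y.2, c)) (ENNReal.ofReal t)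
        volume * eLpNorm h 2 volume) (fun ξ => E h ξ * E g ξ) (by linarith)
        ((Pool.Agent.Restr.measurable_E hh.1).mul (Pool.Agent.Restr.measurable_E hg.1))
        (fun f hf hf1 => by
          have h3 := (hC c f g hf hf1 hg).2 h hh
          simp only [← mul_assoc] at h3 ⊢
          refine h3.trans (le_of_eq ?_)
          ring) f hf hfp
      simp only [← mul_assoc] at h1
      refine h1.trans (le_of_eq ?_)
      push_cast
      ring

end TSL
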