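import Pool.Agent.Wex.All3

/-!
# MP_5ab805_an, time slices with the `L^p` norm of `f`: targets (helper15)

THEOREM.  Let `3 < q < 4`, `1 ≤ s < q/2`, `p > q/(q-2)` (for example `p = q`).  For every `f` in
`L^p` of the disc, every `g` on the disc and every real `c`
`‖Ef Eg‖_(q/2) ≤ C ‖f‖_p ‖Eg(·,c)‖_s`; trilinear form
`‖Ef Eh Eg‖_(q/3) ≤ C ‖f‖_p ‖h‖_2 ‖Eg(·,c)‖_t` for `t < 4q/(12-q)`, `p > 4q/(5q-12)`.
The landed version (`Wex.fin`, Results/MP_5ab805_an/TimeSlice) has `|f| ≤ 1` in place of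
`‖f‖_p ≤ 1`.

PLAN.  By level sets of `f` it suffices to treat `|f| ≤ 1` with a factor `V^η`, `V = vs f` the
measure of the set where `f` is not zero.  The new input is a partition of any `M` points of the
plane in about `M/L` classes, such that every disc separates at most `C sqrt(ML) log M` of the
points from the representative of their class (STA); `L ~ 1/V`.

EVERYTHING of `Pool/Agent/Wex` and `Pool/Agent/Wey` is available by the import (`Wex.sqb : T_SQB`,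
`Wex.cro : T_CRO`, `Wex.p_HAT`, `Wex.p_DYA Wey.p_DEC : T_DYA`, `Wex.p_INB`, `Wex.p_INT`,
`Wex.p_AMA`, `Wex.p_CHI`, `Wex.p_SHI`, `Wex.p_KNA`, `Wex.p_SLN Wex.p_TEN`,
`Wex.p_FAR Wex.p_GAU : T_FAR`, `Wex.p_SLI Wey.p_REP Wey.p_CNV : T_SLI`, `Wey.p_NEA`, `Wey.p_WIE`,
`Wex.p_DSH Wex.p_DGP Wex.p_DMI : T_DSH`, `Wex.p_VCD : T_VCD`) and all their helper lemmas.

One job = one target `T_X`, proved as `theorem p_X (hypotheses = other targets of THIS file) : T_X`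
in the NEW file `Pool/Agent/TSL/X.lean` (import this file), helper lemmas in the namespace `X_`.
-/

set_option autoImplicit false

namespace TSL

open MeasureTheory Set Filter
open scoped ENNReal NNReal Topology
open Pool.Agent.Restr (u E QQ)
open TriL (Sq n2)
open Wey (nq lam hat gup gdn blk Tk Sl Wi InD)
open Wex (Gs nu cf BB Ann Sep XX chk chp Par pw Cross sw del dm cell amal)

/-! ## Combinatorics -/

open Classical in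
/-- SHL: the short star lemma (abstract); compare `Wex.T_SHE` and `Wex/SHE.lean`.

PROOF. `n = #X`, `δ = √L * del n = 16 (1 + log n) √(L/n)`, `W = ∑ w`. If `δ ≥ 1` or `W = 0` take any
`D ⊆ X` with `L` elements and any `z ∈ D` (`0 ≤ sw ≤ W`). Let `δ < 1`, `W > 0`; put
`v = √(n/L)`, so `v > 16 (1 + log n) ≥ 16`, `n ≥ 2`, and `N = ⌈2 log n / δ⌉` (natural number).
Call `(x, y)` bad if `sw x y > δ W`. Sum over all `ρ : Fin N → R` of `∏ w (ρ i)` times the number of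
bad ordered pairs of `X` which no `ρ i` separates: this is
`∑ over bad pairs of (W - sw x y)^N ≤ n (n-1) (1-δ)^N W^N < n² exp(-δ N) W^N ≤ W^N`
(`1 - δ ≤ exp(-δ)`; a pair `x = y` is not bad), while `∑_ρ ∏ w (ρ i) = W^N`; so for some `ρ` with
values in `R` every bad pair is separated by some `ρ i` (exactly the computation in `Wex/SHE.lean`).
Let `x ~ y` iff no `ρ i` separates them (an equivalence relation: the set of `i` with `mem (ρ i) x`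
is the same). Let `Y ⊆ X` contain one element of every class; the hypothesis for `Y` gives
`#Y ≤ 16 (N+1)²`, and `N + 1 ≤ 2 log n / δ + 2 = v log n / (8 (1 + log n)) + 2 ≤ v/8 + v/8 = v/4`,
so `#Y ≤ v² = n/L`. Hence some class has at least `L` elements (otherwise `n ≤ #Y (L-1) < n`). Let
`D` be `L` elements of it and `z ∈ D`: all pairs in `D` are not separated by `ρ`, so not bad. -/
def T_SHL : Prop := ∀ (α ι : Type) (mem : ι → α → Prop) (X : Finset α) (R : Finset ι),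
  (∀ Y ⊆ X, ∀ (s : ℕ) (ρ : Fin s → ι), (∀ x ∈ Y, ∀ y ∈ Y, x ≠ y → ∃ i, Cross mem (ρ i) x y) →
    (Y.card : ℝ) ≤ 16 * (s + 1) ^ 2) →
  ∀ (w : ι → ℝ) (L : ℕ), (∀ r ∈ R, 0 ≤ w r) → 1 ≤ L → L ≤ X.card →
  ∃ D ⊆ X, D.card = L ∧ ∃ z ∈ D, ∀ x ∈ D, sw mem R w x z ≤ √L * del X.card * ∑ r ∈ R, w r

open Classical in
/-- PAR: partition in stars by reweighting (abstract); compare `Wex.T_PAT` and `Wex/PAT.lean`.

PROOF. `del n ≥ 0`. Claim, by strong induction on `#Y`: for all `Y ⊆ X` and `w ≥ 0` on `R` there is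
`rep` with `rep x ∈ Y` for `x ∈ Y`, `#(Y.image rep) ≤ #Y / L + 1` and
`∑_(r ∈ R) w r * 2^(cnt r / L) ≤ 2 (∑ w) ∏_(j < #Y / L) (1 + √L del(#Y - j L))`, where
`cnt r = #{x ∈ Y : r separates x and rep x}` (real exponent `cnt r / L`, natural division in the
range). `#Y < L`: `Y` empty: `rep = id`. `Y` nonempty: `rep` constant `= z ∈ Y`, `cnt r ≤ L`, so
`2^(cnt r / L) ≤ 2`. `#Y ≥ L`: take `D, z` from the hypothesis,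
`y r = #{x ∈ D : r separates x, z}/L` in `[0, 1]`, `w' r = w r (1 + y r)`. Then
`∑ w' = ∑ w + (1/L) ∑_(x ∈ D) sw x z ≤
(1 + √L del(#Y)) ∑ w`. Induction for `Y \ D` (`#Y - L` elements) and `w'`: `rep'`. Let `rep = z` on
`D`, `rep'` elsewhere: image `⊆ {z} ∪` image', `cnt r = cnt' r + L y r`, and `2^(y r) ≤ 1 + y r`
(convexity; e.g. `Real.rpow_one_add_le_one_add_mul_self` or
`(convexOn_exp...)`), so `w r 2^(cnt r/L) ≤ w' r 2^(cnt' r/L)`; the product splits off `j = 0`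
(`#Y / L = (#Y - L) / L + 1`). Finally `Y = X`, `w = 1`: every term is at most the sum. -/
def T_PAR : Prop := ∀ (α ι : Type) (mem : ι → α → Prop) (X : Finset α) (R : Finset ι) (L : ℕ),
  1 ≤ L →
  (∀ Y ⊆ X, ∀ w : ι → ℝ, (∀ r ∈ R, 0 ≤ w r) → L ≤ Y.card →
    ∃ D ⊆ Y, D.card = L ∧ ∃ z ∈ D, ∀ x ∈ D, sw mem R w x z ≤ √L * del Y.card * ∑ r ∈ R, w r) →
  ∃ rep : α → α, (∀ x ∈ X, rep x ∈ X) ∧ (X.image rep).card ≤ X.card / L + 1 ∧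
    ∀ r ∈ R, (2 : ℝ) ^ (((X.filter (fun x => Cross mem r x (rep x))).card : ℝ) / L) ≤
      2 * R.card * ∏ j ∈ Finset.range (X.card / L), (1 + √L * del (X.card - j * L))

open Classical in
/-- STA (from SHL, PAR): star partitions of points in the plane with respect to discs.

PROOF. `M = #S`. `Wex.p_VCD`: `R` with `#R ≤ (M+1)^4` such that every disc has the trace on `S` of
some member of `R` (so `R` is not empty). `Wex.p_DSH Wex.p_DGP Wex.p_DMI : T_DSH` is the hypothesis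
of SHL for all `Y ⊆ S`. PAR gives `rep`; for `r ∈ R`, `cnt = #{..}`, taking logarithms and using
`log(1+x) ≤ x`: `(cnt/L) log 2 ≤ log 2 + log #R + ∑_(j < K) √L del(M - j L)`, `K = M/L`. Here
`log #R ≤ 4 log(M+1) ≤ 4 (1 + log M)`. For `j < K`, `n = M - j L` satisfies `(K - j) L ≤ n ≤ M`, so
`√L del n = 16 (1 + log n) √L/√n ≤ 16 (1 + log M)/√(K-j)`, and `∑_(k=1..K) 1/√k ≤ 2 √K ≤ 2 √(M/L)`.
So `cnt ≤ (L/log 2) (log 2 + 4 (1 + log M) + 32 (1 + log M) √(M/L)) ≤ 60 (1 + log M) L √(M/L)` as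
`M/L ≥ 1`, and `L √(M/L) = √(M L)`. The count depends only on the trace of the disc. -/
def T_STA : Prop := ∃ C : ℝ, 0 < C ∧ ∀ (S : Finset (ℝ × ℝ)) (L : ℕ), 1 ≤ L → L ≤ S.card →
  ∃ rep : ℝ × ℝ → ℝ × ℝ, (∀ x ∈ S, rep x ∈ S) ∧ (S.image rep).card ≤ S.card / L + 1 ∧
    ∀ ρ : (ℝ × ℝ) × ℝ, ((S.filter (fun x => Cross dm ρ x (rep x))).card : ℝ) ≤
      C * (√(S.card * L) * (1 + Real.log S.card))

open Classical in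
/-- Classes of the points `z_n = (φ n, ψ n)`, `n ∈ s`: the class of `n` is `e n ∈ [0, B)`, its
representative is `z'_(e n) = (φ' (e n), ψ' (e n))`. The representatives are separated, in an
ordering of annular complexity `m`; every annulus contains exactly one of `z_n`, `z'_(e n)` for at
most `P` indices `n`. -/
structure Cls (φ ψ : ℤ → ℝ) (s : Finset ℤ) (φ' ψ' : ℤ → ℝ) (e : ℤ → ℤ) (B m : ℕ) (P : ℝ) :
    Prop where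
  mem : ∀ n ∈ s, e n ∈ Finset.Ico (0 : ℤ) B
  sep : Sep φ' ψ' (Finset.Ico 0 (B : ℤ))
  ann : Ann m φ' ψ' (Finset.Ico 0 (B : ℤ))
  few : ∀ c d a b : ℝ, ((s.filter fun n => ¬ (
    (a < (φ n - c) ^ 2 + (ψ n - d) ^ 2 ∧ (φ n - c) ^ 2 + (ψ n - d) ^ 2 ≤ b) ↔
    (a < (φ' (e n) - c) ^ 2 + (ψ' (e n) - d) ^ 2 ∧
      (φ' (e n) - c) ^ 2 + (ψ' (e n) - d) ^ 2 ≤ b))).card : ℝ) ≤ P

/-- ORD (from STA; with `Wex.cro : Wex.T_CRO`): classes for separated points.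

PROOF. `S` = image of `s` under `n ↦ z_n` (injective on `s` by `Sep`), `rep` from STA. `CRO` for
`S' = S.image rep` (nonempty, `#S' ≤ M/L + 1`): `φ', ψ', m`, `B = #S'`. `e n` = the index in
`[0, B)` with `z'_(e n) = rep z_n`. `Sep`: different indices give different points of `S' ⊆ S`.
`few`: if an annulus `a < |z - x|² ≤ b`, `x = (c, d)`, contains exactly one of `z_n`, `rep z_n`, then the disc
`(x, a)` or the disc `(x, b)` separates them (`dm (x, r) z` is `Wex.d2 z x ≤ r`); so `P = 2 C_STA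
√(M L)(1 + log M)`. Take the maximum of the constants. -/
def T_ORD : Prop := ∃ C : ℝ, 0 < C ∧ ∀ (φ ψ : ℤ → ℝ) (s : Finset ℤ) (L : ℕ), Sep φ ψ s →
  1 ≤ L → L ≤ s.card → ∃ (φ' ψ' : ℤ → ℝ) (e : ℤ → ℤ) (B m : ℕ), 1 ≤ m ∧ 1 ≤ B ∧
    B ≤ s.card / L + 1 ∧ (m : ℝ) ≤ C * (√B * (1 + Real.log B)) ∧
    Cls φ ψ s φ' ψ' e B m (C * (√(s.card * L) * (1 + Real.log s.card)))

/-! ## Analysis, `|f| ≤ 1` -/

/-- the measure of the set where `f` is not zero -/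
noncomputable def vs (f : ℝ × ℝ → ℂ) : ℝ≥0∞ := volume (Function.support f)

/-- `M^(1/2+ε) V^(1/2) ∑ |a_n|²`, `M = #s`, `V = vs f` -/
noncomputable def NA (ε : ℝ) (s : Finset ℤ) (a : ℤ → ℂ) (f : ℝ × ℝ → ℂ) : ℝ≥0∞ :=
  pw s.card (1 / 2 + ε) * vs f ^ (1 / 2 : ℝ) * ∑ n ∈ s, ‖a n‖ₑ ^ 2

open Classical in
/-- ERR: the error made by replacing the points by the representatives of their classes, and the
trivial bound.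

PROOF. (1) Fix `σ`, `τ`, `c n = cf φ ψ a F σ n`. `nu φ ψ σ n = 4 |z_n - σ/2|²`, so the first window
says that `z_n` is in the annulus `(τ - 8T)/4 < |z - σ/2|² ≤ min(M, τ)/4`, the second one that
`z'_(e n)` is in it. The difference is `∑ ± c n` over the `n` for which exactly one of the two
holds; there are at most `P` of them (`Cls.few` with `(c, d) = σ/2`), so by Cauchy-Schwarz
`|difference|² ≤ P ∑_n |c n|² (1[first window] + 1[second window])`. For fixed `n` the set of `τ` of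
each window is contained in `[ν, ν + 8T)`: integrate over `τ`: `≤ 16 T P ∑_n |c n|²`. Integrate over
`σ`: `∫ |cf φ ψ a F σ n|² = |a n|² ∫ |hat F|² = |a n|² 4π² ∫ |F|²` (translation and Plancherel as in
`Wex/HAT.lean`, or `Wex.p_HAT` with `s = {n}`). (`0 ≤ P` by `few`.)
(2) The same with at most `#s` terms: `|sum|² ≤ #s ∑_n |c n|² 1[window]`. -/
def T_ERR : Prop :=
  (∀ (φ ψ : ℤ → ℝ) (s : Finset ℤ) (φ' ψ' : ℤ → ℝ) (e : ℤ → ℤ) (B m : ℕ) (P : ℝ),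
    Cls φ ψ s φ' ψ' e B m P → ∀ (a : ℤ → ℂ) (F : ℝ × ℝ → ℂ) (M T : ℝ), Measurable F →
    Integrable F → 0 < T →
    ∫⁻ σ : ℝ × ℝ, ∫⁻ τ : ℝ, ‖(∑ n ∈ s with (nu φ ψ σ n ≤ M ∧ τ - 8 * T < nu φ ψ σ n ∧
        nu φ ψ σ n ≤ τ), cf φ ψ a F σ n) -
      ∑ n ∈ s with (nu φ' ψ' σ (e n) ≤ M ∧ τ - 8 * T < nu φ' ψ' σ (e n) ∧
        nu φ' ψ' σ (e n) ≤ τ), cf φ ψ a F σ n‖ₑ ^ 2 ≤
      ENNReal.ofReal (16 * T * P * (4 * Real.pi ^ 2)) *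
        ((∑ n ∈ s, ‖a n‖ₑ ^ 2) * ∫⁻ x, ‖F x‖ₑ ^ 2)) ∧
  ∀ (φ ψ : ℤ → ℝ) (s : Finset ℤ) (a : ℤ → ℂ) (F : ℝ × ℝ → ℂ) (M T : ℝ), Measurable F →
    Integrable F → 0 < T →
    ∫⁻ σ : ℝ × ℝ, ∫⁻ τ : ℝ, ‖∑ n ∈ s with (nu φ ψ σ n ≤ M ∧ τ - 8 * T < nu φ ψ σ n ∧
        nu φ ψ σ n ≤ τ), cf φ ψ a F σ n‖ₑ ^ 2 ≤
      ENNReal.ofReal (8 * T * s.card * (4 * Real.pi ^ 2)) *
        ((∑ n ∈ s, ‖a n‖ₑ ^ 2) * ∫⁻ x, ‖F x‖ₑ ^ 2)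

open Classical in
/-- MAI: the main term, `|f| ≤ 1`.

PROOF. For `i ∈ I = Ico 0 B` let `C i (σ) = ∑_(n ∈ s, e n = i) cf φ ψ a (gup f) σ n`. The inner sum
is `∑_(i ∈ I, window for z'_i) C i`. `Wex.p_DYA Wey.p_DEC : Wex.T_DYA` for `m, φ', ψ', 0, B` and the
coefficients `C · (σ)`: `∫ dτ ≤ 8 T m (2ℓ+2) ∑_(i ≤ ℓ) ∑'_j |blk I C i j|²`. Now
`blk I C i j = ∑_(n ∈ s_ij) cf_n`, `s_ij = {n ∈ s : e n / 2^i = j}`. Plancherel (proof of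
`Wex/HAT.lean` for an arbitrary finite set `s'` in place of the block):
`∫ |∑_(n ∈ s') cf φ ψ a F σ n|² dσ ≤ 4π² ∫ |F|² |Gs φ ψ s' a|²`; with `F = gup f`,
`|gup f|² ≤ e |f|² ≤ e` on `QQ` and `0` off `QQ` (`Wex.SLB_.gup_sq`, `gup_meas`, `gup_int`), and
`Wex.sqb : T_SQB` (`Sep` holds on subsets): `≤ 4π² e C_SQB ∑_(n ∈ s_ij) |a n|²`. For fixed `i` the
sets `s_ij`, `j ∈ ℤ`, partition `s`: the sum over `j` is `≤ 4π² e C_SQB ∑_(n ∈ s) |a n|²`; then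
`ℓ + 1` values of `i`. -/
def T_MAI : Prop := ∃ C : ℝ≥0, ∀ (φ ψ : ℤ → ℝ) (s : Finset ℤ) (φ' ψ' : ℤ → ℝ) (e : ℤ → ℤ)
  (B m : ℕ) (P : ℝ), Sep φ ψ s → Cls φ ψ s φ' ψ' e B m P →
  ∀ (a : ℤ → ℂ) (f : ℝ × ℝ → ℂ) (M T : ℝ) (ℓ : ℕ), Sq f → (∀ x, ‖f x‖ ≤ 1) → 0 < T → 0 ≤ M →
  (2 * √M + 3) ^ 2 ≤ 2 ^ ℓ →
  ∫⁻ σ : ℝ × ℝ, ∫⁻ τ : ℝ, ‖∑ n ∈ s with (nu φ' ψ' σ (e n) ≤ M ∧ τ - 8 * T < nu φ' ψ' σ (e n) ∧
      nu φ' ψ' σ (e n) ≤ τ), cf φ ψ a (gup f) σ n‖ₑ ^ 2 ≤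
    C * m * ENNReal.ofReal (T * ((2 * ℓ + 2) * (ℓ + 1))) * ∑ n ∈ s, ‖a n‖ₑ ^ 2

open Classical in
/-- NRA (from ORD, ERR, MAI): the near estimate.

PROOF. `M₁ = #s ≥ 1`, `v = (vs f).toReal ∈ [0, 1]` (`f = 0` off `QQ`, `vol QQ = 1`). `f` is
integrable, `∫ |gup f|² ≤ e v` (`Wex.SLB_.gup_sq`, `|f| ≤ 1`). If `v = 0`: `gup f = 0` a.e.,
`hat (gup f) = 0`, the left side is `0`. If `M₁ v ≤ 1`: ERR (2): `≤ 8 T M₁ 4π² e v ∑|a|²` and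
`M₁ v ≤ (M₁ v)^(1/2) ≤ M₁^(1/2+ε) v^(1/2)`. If `M₁ v > 1`: `L = ⌊1/v⌋`, so `1 ≤ L ≤ 1/v < M₁`,
`L ≥ 1/(2v)`. ORD: `φ', ψ', e, B, m`; `|x + y|² ≤ 2|x|² + 2|y|²` (`Wex.SLB_.sq_add_le`) with
`y` = main term, `x` = difference. ERR (1): `P = C √(M₁ L) (1 + log M₁) ≤ C √(M₁/v) (1 + log M₁)`,
so the error is `≤ 16 T 4π² e C √(M₁ v) (1 + log M₁) ∑|a|²`. MAI: `B ≤ M₁/L + 1 ≤ 3 M₁ v`,
`B ≤ 2 M₁`, `m ≤ C √(3 M₁ v) (1 + log (2 M₁))`. And `1 + log (2 M₁) ≤ C_ε M₁^ε` (`Real.log_le_rpow_div`); all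
factors `(2ℓ+2)(ℓ+1) ≥ 1`. (`√(M₁ v) M₁^ε = M₁^(1/2+ε) v^(1/2)`; ENNReal powers of `vs f` from real
powers: `ENNReal.ofReal_rpow_of_nonneg`.) -/
def T_NRA : Prop := ∀ ε : ℝ, 0 < ε → ∃ C : ℝ≥0, ∀ (φ ψ : ℤ → ℝ) (s : Finset ℤ) (a : ℤ → ℂ)
  (f : ℝ × ℝ → ℂ) (M T : ℝ) (ℓ : ℕ), Sep φ ψ s → s.Nonempty → Sq f → (∀ x, ‖f x‖ ≤ 1) → 0 < T →
  0 ≤ M → (2 * √M + 3) ^ 2 ≤ 2 ^ ℓ →
  ∫⁻ σ : ℝ × ℝ, ∫⁻ τ : ℝ, ‖∑ n ∈ s with (nu φ ψ σ n ≤ M ∧ τ - 8 * T < nu φ ψ σ n ∧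
      nu φ ψ σ n ≤ τ), cf φ ψ a (gup f) σ n‖ₑ ^ 2 ≤
    C * ENNReal.ofReal (T * ((2 * ℓ + 2) * (ℓ + 1))) * NA ε s a f

/-- SLA (from NRA): the estimate on a slab, Gaussian cut-off. Variant of `Wex/SLB.lean`.

PROOF. As `Wex/SLB.lean` (all its helper lemmas `Wex.SLB_.*` can be used), with
`h1 = Wex.p_SLI Wey.p_REP Wey.p_CNV`, `h2 = Wey.p_NEA`, `h5 = Wex.p_FAR Wex.p_GAU`. `near`: in the
proof of `SLB_.near` the inner integral over `σ` and `τ` is now bounded by NRA, which gives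
`C (1 + M/T²)/T² * T (2ℓ+2)(ℓ+1) NA`, at most the old expression (`(ℓ+3)² ≥ 1`), so
`SLB_.numbers` can be used unchanged. `far`: needs `A` with `|a n| ≤ A` on `s` and `A² n2 f ≤ NA`:
`A = max |a n|` (as in `SLB_.coef`), `|a n|² n2 f ≤ (∑|a|²) vs f ≤ NA` since `n2 f ≤ vs f ≤ 1`
(`|f| ≤ 1`, `f = 0` off `QQ`), `vs f ≤ (vs f)^(1/2)` and `pw #s (1/2+ε) ≥ 1` (`#s ≥ 1`). `f` is
integrable (bounded, zero off `QQ`). -/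
def T_SLA : Prop := ∀ ε : ℝ, 0 < ε → ∃ C : ℝ≥0, ∀ (φ ψ : ℤ → ℝ) (s : Finset ℤ) (a : ℤ → ℂ)
  (f : ℝ × ℝ → ℂ) (k : ℕ), Sep φ ψ s → s.Nonempty → Sq f → (∀ x, ‖f x‖ ≤ 1) →
  ∫⁻ t in Tk k, ∫⁻ p : ℝ × ℝ, (‖E f (p.1, p.2, t)‖ₑ *
      ‖E (gdn (Gs φ ψ s a)) (p.1, p.2, t)‖ₑ) ^ 2 ≤
    C * ENNReal.ofReal (2 ^ ((-1 + ε) * k)) * NA ε s a f

/-- CUA (from SLA): the estimate on a slab. Variant of `Wex/CUT.lean`.

PROOF. As `Wex/CUT.lean` (with its lemmas `Wex.CUT_*` and `Wey.p_WIE`): for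
`f_w x = u(w·x) f x` one has `Sq f_w`, `|f_w| = |f|`, the same support, so `NA ε s a f_w =
NA ε s a f`; SLA for `f_w`. -/
def T_CUA : Prop := ∀ ε : ℝ, 0 < ε → ∃ C : ℝ≥0, ∀ (φ ψ : ℤ → ℝ) (s : Finset ℤ) (a : ℤ → ℂ)
  (χ f : ℝ × ℝ → ℂ) (K : ℝ≥0) (k : ℕ), Sep φ ψ s → s.Nonempty → Wi K χ →
  (∀ x, x ∉ QQ → χ x = 0) → Sq f → (∀ x, ‖f x‖ ≤ 1) →
  ∫⁻ ξ in Sl k, XX φ ψ s a χ f ξ ^ 2 ≤
    C * (K : ℝ≥0∞) ^ 2 * ENNReal.ofReal (2 ^ ((-1 + ε) * k)) * NA ε s a f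

/-- ASA (from CUA): summation over the slabs. Variant of `Wex/ASM2.lean`.

PROOF. `M₁ = #s`, `V = vs f ≤ 1`. If `V = 0` then `f = 0` a.e., `E f = 0`. If `K = 0` then `χ = 0`
(`Wey.ASM_.wi_le`). Otherwise let `m₀ = ⌈M₁^(1/2+ε) V^(-1/2)⌉ ≥ 1` (natural number; `V` real) and
`R² = V ∑ |a n|²` (`R : ℝ≥0`). `Wex.p_INB`, `Wex.p_INT` give `ε₁`, `ε₂`; use CUA with
`min ε₁ (min ε₂ ε)`: `NA` and `2^((-1+ε')k)` are monotone in `ε'`. The hypotheses of INB, INT for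
`X = XX φ ψ s a χ f`, `m = m₀`, `N = cN ..` are the lemmas `Wex.ASM2_.slab0`, `slab1`, `slab2`
(stated for all finite `s`): `n2 f * n2 (χ G) ≤ V * K² D ∑|a|² = D K² R²` (`ASM_.n2_chi` and
`Wex.sqb`; `n2 f ≤ V`), and `NA ε s a f = M₁^(1/2+ε) V^(-1/2) * V ∑|a|² ≤ m₀ R²`. Conclusion with
`ASM2_.fin1`, `ASM2_.fin2`: the norms are `≤ C pw m₀ (κ/ρ) K R` and `pw m₀ (κ/ρ) ≤
(2 M₁^(1/2+ε) V^(-1/2))^(κ/ρ)`. The measurability of `XX` is `ASM_.meas_XX`. -/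
def T_ASA : Prop := ∀ ρ κ μ ν ε : ℝ, Par ρ κ μ ν → 0 < ε → ∃ C : ℝ≥0, ∀ (φ ψ : ℤ → ℝ)
  (s : Finset ℤ) (a : ℤ → ℂ) (χ f : ℝ × ℝ → ℂ) (K : ℝ≥0), Sep φ ψ s → s.Nonempty → Wi K χ →
  (∀ x, x ∉ QQ → χ x = 0) → Sq f → (∀ x, ‖f x‖ ≤ 1) →
    eLpNorm (fun ξ => E f ξ * E (fun x => χ x * Gs φ ψ s a x) ξ)
      (ENNReal.ofReal ρ) volume ≤ C * K * (pw s.card ((1 / 2 + ε) * (κ / ρ)) *
        vs f ^ (1 / 2 - κ / (2 * ρ))) * (∑ n ∈ s, ‖a n‖ₑ ^ 2) ^ (1 / 2 : ℝ) ∧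
    ∀ g : ℝ × ℝ → ℂ, Sq g →
    eLpNorm (fun ξ => E f ξ * E g ξ * E (fun x => χ x * Gs φ ψ s a x) ξ)
      (ENNReal.ofReal μ) volume ≤ C * K * (pw s.card ((1 / 2 + ε) * (ν / μ)) *
        vs f ^ (1 / 2 - ν / (2 * μ))) * (∑ n ∈ s, ‖a n‖ₑ ^ 2) ^ (1 / 2 : ℝ) * eLpNorm g 2 volume

/-- SPB (from ASA): spectrum in the union of finitely many cells. Variant of `Wex/THK.lean` and
`Wex/SPA.lean`.

PROOF. `S` empty: `γ = 0`, `chk γ = 0`. Let `ι : ℤ × ℤ ≃ ℤ` (both countably infinite), `s` the image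
of `S`, `φ n = (ι⁻¹ n).1`, `ψ n = (ι⁻¹ n).2`: `Sep` (different integer points), `#s = #S`, and
`y ∈ cell k` gives `|y - k|² ≤ 2 ≤ 4`. Exponents: choose `κ₀` with `2 - ρ < κ₀ ≤ ρ - 1`,
`κ₀/(2ρ) < κ`, `1/2 - κ₀/(2ρ) ≥ η` (possible: at `κ₀ = 2 - ρ` one has `κ₀/(2ρ) = 1/ρ - 1/2` and
`1/2 - κ₀/(2ρ) = 1 - 1/ρ`), `ν₀` with `2 - 3μ/2 < ν₀ ≤ μ/2`, `ν₀/(2μ) < ν`, `1/2 - ν₀/(2μ) ≥ θ`
(at `ν₀ = 2 - 3μ/2`: `1/μ - 3/4` and `5/4 - 1/μ`), and `ε > 0` with `(1/2+ε) κ₀/ρ ≤ κ`,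
`(1/2+ε) ν₀/μ ≤ ν`. `vs f ≤ 1`, so a bigger exponent of `vs f` gives a smaller number; `#s ≥ 1`.
Now `Wex.THK_.main` (general finite `s`) with `A = E f`, `C = 1`, `M` = the constant of ASA:
`E f (ξ + w) = E f_w ξ` (`THK_.shift`), `f_w x = u(w·x) f x`, `Sq f_w` (`THK_.sq_shift`),
`|f_w| = |f|`, `vs f_w = vs f`; `E f` is bounded (`THK_.E_bdd`). Trilinear: `A = E f * E g`, for
`g_w` the `L²` norm is unchanged; see the end of `Wex/THK.lean` for both cases. -/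
def T_SPB : Prop := ∀ ρ κ η μ ν θ : ℝ, 3 / 2 < ρ → ρ < 2 → 1 / ρ - 1 / 2 < κ → 0 ≤ η →
  η < 1 - 1 / ρ → 1 < μ → μ < 4 / 3 → 1 / μ - 3 / 4 < ν → 0 ≤ θ → θ < 5 / 4 - 1 / μ →
  ∃ C : ℝ≥0, ∀ (χ γ : ℝ × ℝ → ℂ) (K : ℝ≥0) (S : Finset (ℤ × ℤ)), Wi K χ →
  (∀ x, x ∉ QQ → χ x = 0) → Measurable γ → Integrable γ →
  (∀ y : ℝ × ℝ, (∀ k ∈ S, y ∉ cell k) → γ y = 0) →
  ∀ f : ℝ × ℝ → ℂ, Sq f → (∀ x, ‖f x‖ ≤ 1) →
    eLpNorm (fun ξ => E f ξ * E (fun x => χ x * chk γ x) ξ)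
      (ENNReal.ofReal ρ) volume ≤ C * K * vs f ^ η * pw S.card κ * eLpNorm γ 2 volume ∧
    ∀ g : ℝ × ℝ → ℂ, Sq g →
    eLpNorm (fun ξ => E f ξ * E g ξ * E (fun x => χ x * chk γ x) ξ)
      (ENNReal.ofReal μ) volume ≤
      C * K * vs f ^ θ * pw S.card ν * eLpNorm γ 2 volume * eLpNorm g 2 volume

/-- LEB (from SPB): level sets of the transform of `g`. Variant of `Wex/LEV.lean`.

PROOF. As `p_LEV` in `Wex/LEV.lean`: `Wex.LEV_.assemble` (abstract) with `D = C₀ K (vs f)^η`, resp.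
`C₀ K (vs f)^θ ‖g‖₂`. -/
def T_LEB : Prop := ∀ ρ s η μ t θ : ℝ, 3 / 2 < ρ → ρ < 2 → 1 ≤ s → s < ρ → 0 ≤ η →
  η < 1 - 1 / ρ → 1 < μ → μ < 4 / 3 → 1 ≤ t → 1 / μ - 1 / 4 < 1 / t → 0 ≤ θ →
  θ < 5 / 4 - 1 / μ → ∃ C : ℝ≥0, ∀ (χ γ : ℝ × ℝ → ℂ) (K : ℝ≥0) (S : Finset (ℤ × ℤ)),
  Wi K χ → (∀ x, x ∉ QQ → χ x = 0) → Measurable γ → Integrable γ →
  ∫⁻ y, ‖γ y‖ₑ ^ 2 < ∞ → (∀ y : ℝ × ℝ, (∀ k ∈ S, y ∉ cell k) → γ y = 0) →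
  ∀ f : ℝ × ℝ → ℂ, Sq f → (∀ x, ‖f x‖ ≤ 1) →
    eLpNorm (fun ξ => E f ξ * E (fun x => χ x * chk γ x) ξ)
      (ENNReal.ofReal ρ) volume ≤ C * K * vs f ^ η * amal s γ ∧
    ∀ g : ℝ × ℝ → ℂ, Sq g →
    eLpNorm (fun ξ => E f ξ * E g ξ * E (fun x => χ x * chk γ x) ξ)
      (ENNReal.ofReal μ) volume ≤ C * K * vs f ^ θ * amal t γ * eLpNorm g 2 volume

/-- FIA (from LEB): functions on the small square, time `0`. Variant of `Wex/FI0.lean` (word for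
word, with the factors `vs f ^ η`, `vs f ^ θ`; `Wex.p_AMA`, `Wex.p_CHI`). -/
def T_FIA : Prop := ∀ ρ s η μ t θ : ℝ, 3 / 2 < ρ → ρ < 2 → 1 ≤ s → s < ρ → 0 ≤ η →
  η < 1 - 1 / ρ → 1 < μ → μ < 4 / 3 → 1 ≤ t → 1 / μ - 1 / 4 < 1 / t → 0 ≤ θ →
  θ < 5 / 4 - 1 / μ → ∃ C : ℝ≥0, ∀ f g : ℝ × ℝ → ℂ, Sq f → (∀ x, ‖f x‖ ≤ 1) →
  Measurable g → Integrable g → (∀ x : ℝ × ℝ, (1 / 4 < |x.1| ∨ 1 / 4 < |x.2|) → g x = 0) →
    eLpNorm (fun ξ => E f ξ * E g ξ) (ENNReal.ofReal ρ) volume ≤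
      C * vs f ^ η * (∫⁻ y, ‖hat g y‖ₑ ^ s) ^ (1 / s) ∧
    ∀ h : ℝ × ℝ → ℂ, Sq h →
    eLpNorm (fun ξ => E f ξ * E h ξ * E g ξ) (ENNReal.ofReal μ) volume ≤
      C * vs f ^ θ * (∫⁻ y, ‖hat g y‖ₑ ^ t) ^ (1 / t) * eLpNorm h 2 volume

/-- FNA (from FIA; with `Wex.p_SHI`): the disc, every time `c`. Variant of `Wex/FIN.lean` (word for
word; the support of `chp (-c) f` is that of `f`, and `vs (dl f) = vs f / 4 ≤ vs f` for the dilate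
`dl f x = f (2x)`: `Wex.FIN_.map2`, or `Measure.addHaar_preimage_smul`). -/
def T_FNA : Prop := ∀ ρ s η μ t θ : ℝ, 3 / 2 < ρ → ρ < 2 → 1 ≤ s → s < ρ → 0 ≤ η →
  η < 1 - 1 / ρ → 1 < μ → μ < 4 / 3 → 1 ≤ t → 1 / μ - 1 / 4 < 1 / t → 0 ≤ θ →
  θ < 5 / 4 - 1 / μ → ∃ C : ℝ≥0, ∀ (c : ℝ) (f g : ℝ × ℝ → ℂ), InD f → (∀ x, ‖f x‖ ≤ 1) →
  InD g →
    eLpNorm (fun ξ => E f ξ * E g ξ) (ENNReal.ofReal ρ) volume ≤
      C * vs f ^ η * eLpNorm (fun y : ℝ × ℝ => E g (y.1, y.2, c)) (ENNReal.ofReal s) volume ∧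
    ∀ h : ℝ × ℝ → ℂ, InD h →
    eLpNorm (fun ξ => E f ξ * E h ξ * E g ξ) (ENNReal.ofReal μ) volume ≤
      C * vs f ^ θ * eLpNorm (fun y : ℝ × ℝ => E g (y.1, y.2, c)) (ENNReal.ofReal t) volume *
        eLpNorm h 2 volume

/-! ## All `f` in `L^p` -/

/-- SUP (abstract): superposition of level sets.

PROOF. `N = ‖f‖_p < ∞`. If `N = 0` then `f = 0` a.e. and `E f = 0`. Let `N > 0`; by homogeneity
(`E (b f) = b E f`, `Pool.Agent.H27.Fib.E_const_mul`, with the real number `b = N.toReal⁻¹`) assume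
`N = 1`; or work with the levels `2^j N`. `f_0 = f` where `|f| ≤ 1`, `f_j = f` where
`2^(j-1) < |f| ≤ 2^j` (`j ≥ 1`), `0` elsewhere: `InD`, `|2^(-j) f_j| ≤ 1`, and by Chebyshev
`vs f_j ≤ 2^(-(j-1) p)` for `j ≥ 1`, `vs f_0 ≤ 1` (the disc has area `π/4 ≤ 1`). The hypothesis for
`2^(-j) f_j`: `‖E f_j w‖_r ≤ D 2^j (vs f_j)^η ≤ D 2^(pη) 2^(-j(pη - 1))`, a convergent geometric
series as `p η > 1`. Triangle inequality (`eLpNorm_sum_le`, `r ≥ 1`) for the finite sums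
`F_J = ∑_(j ≤ J) f_j = f` where `|f| ≤ 2^J`, `0` elsewhere. `f` is integrable (`p ≥ 1`, zero off the
disc: `MemLp.integrable` on a finite measure space, or `|f| ≤ 1 + |f|^p`), so `E F_J ξ → E f ξ`
for every `ξ` (dominated convergence), and `Lp.eLpNorm_le_of_ae_tendsto` (as used in
`Wex/FI0.lean`) finishes. The constant `C` depends only on `η`, `p`. -/
def T_SUP : Prop := ∀ p η : ℝ, 1 ≤ p → 0 < η → 1 < p * η → ∃ C : ℝ≥0, ∀ (r : ℝ) (D : ℝ≥0∞)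
  (w : ℝ × ℝ × ℝ → ℂ), 1 ≤ r → Measurable w →
  (∀ f : ℝ × ℝ → ℂ, InD f → (∀ x, ‖f x‖ ≤ 1) →
    eLpNorm (fun ξ => E f ξ * w ξ) (ENNReal.ofReal r) volume ≤ D * vs f ^ η) →
  ∀ f : ℝ × ℝ → ℂ, InD f → MemLp f (ENNReal.ofReal p) volume →
    eLpNorm (fun ξ => E f ξ * w ξ) (ENNReal.ofReal r) volume ≤
      C * D * eLpNorm f (ENNReal.ofReal p) volume

/-- FIN (from FNA, SUP): the theorem.

PROOF. Choose `η` with `1/p < η < 1 - 1/ρ` (so `p > 2`, `p η > 1`), `θ` with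
`1/p' < θ < 5/4 - 1/μ`. SUP with `w = E g`, `D = C ‖Eg(·,c)‖_s`, resp. `w = E h * E g`,
`D = C ‖Eg(·,c)‖_t ‖h‖₂`. -/
def T_FIN : Prop := ∀ ρ s p μ t p' : ℝ, 3 / 2 < ρ → ρ < 2 → 1 ≤ s → s < ρ → 0 < p →
  1 / p < 1 - 1 / ρ → 1 < μ → μ < 4 / 3 → 1 ≤ t → 1 / μ - 1 / 4 < 1 / t → 0 < p' →
  1 / p' < 5 / 4 - 1 / μ → ∃ C : ℝ≥0, ∀ (c : ℝ) (f g : ℝ × ℝ → ℂ), InD f → InD g →
    (MemLp f (ENNReal.ofReal p) volume →
      eLpNorm (fun ξ => E f ξ * E g ξ) (ENNReal.ofReal ρ) volume ≤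
        C * eLpNorm f (ENNReal.ofReal p) volume *
          eLpNorm (fun y : ℝ × ℝ => E g (y.1, y.2, c)) (ENNReal.ofReal s) volume) ∧
    ∀ h : ℝ × ℝ → ℂ, InD h → MemLp f (ENNReal.ofReal p') volume →
      eLpNorm (fun ξ => E f ξ * E h ξ * E g ξ) (ENNReal.ofReal μ) volume ≤
        C * eLpNorm f (ENNReal.ofReal p') volume * eLpNorm h 2 volume *
          eLpNorm (fun y : ℝ × ℝ => E g (y.1, y.2, c)) (ENNReal.ofReal t) volume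

/-- KNB (with `Wex.p_KNA`, `Wex.p_SLN Wex.p_TEN`): necessary conditions on `p`. Variant of
`Wex/NEC.lean`.

PROOF. `f = g = J² pyr (2J)`, `h = J pyr (2J)`, `J ≥ 2` (definitions in `Wex/Targets3.lean`).
`‖f‖_p ≤ J² (1/J)^(2/p)` (`|pyr| ≤ 1`, support in a square of side `1/J`; compare
`Wex.KNA_.norm_two`). KNA: `|E f|, |E g| ≥ c` and `|E h| ≥ c/J` on `YY J`, a set of measure
`(J/16)² J (J/2)` (as in the proof of `AVE`, `Wex/AVE.lean`); SLN: `‖Eg(·,0)‖_s ≤ C J^(2/s)`.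
Bilinear: `c' J^(4/ρ) ≤ C J^(2 - 2/p) J^(2/s)` for all `J`, so `4/ρ ≤ 2 - 2/p + 2/s`. Trilinear:
`c' J^(4/μ) J^(-1) ≤ C J^(2-2/p) J^(2/t)`, `4/μ - 1 ≤ 2 - 2/p + 2/t`. -/
def T_KNB : Prop :=
  (∀ ρ s p : ℝ, 1 ≤ ρ → 1 ≤ s → 1 ≤ p → (∃ C : ℝ≥0, ∀ f g : ℝ × ℝ → ℂ, InD f →
    MemLp f (ENNReal.ofReal p) volume → InD g →
    eLpNorm (fun ξ => E f ξ * E g ξ) (ENNReal.ofReal ρ) volume ≤
      C * eLpNorm f (ENNReal.ofReal p) volume *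
        eLpNorm (fun y : ℝ × ℝ => E g (y.1, y.2, 0)) (ENNReal.ofReal s) volume) →
    1 / p ≤ 1 - 2 / ρ + 1 / s) ∧
  (∀ μ t p : ℝ, 1 ≤ μ → 1 ≤ t → 1 ≤ p → (∃ C : ℝ≥0, ∀ f h g : ℝ × ℝ → ℂ, InD f →
    MemLp f (ENNReal.ofReal p) volume → InD h → InD g →
    eLpNorm (fun ξ => E f ξ * E h ξ * E g ξ) (ENNReal.ofReal μ) volume ≤
      C * eLpNorm f (ENNReal.ofReal p) volume * eLpNorm h 2 volume *
        eLpNorm (fun y : ℝ × ℝ => E g (y.1, y.2, 0)) (ENNReal.ofReal t) volume) →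
    1 / p ≤ 3 / 2 - 2 / μ + 1 / t)

end TSL
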